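import Pool.Agent.Work.MP_99322d_an.Defs

/-!
# Theory U: upper bound of the entropy of the real Henon map (helper40)

An orbit in the plane is the sequence `x` with `x (k+2) = x (k+1)^2 - b x k + c`; the state at the time
`k` is the point `(x (k+1), x k)`.
A certificate `Cert c b R V I` consists of finitely many cells `Cell v x k` (predicates of the sequence and
the time, any memory), with the list `succ v` of the possible next cells, finitely many traps
`Trap i x k` with one next trap, slopes `al v ≤ t ≤ be v` and weights. Along the edges the map expands in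
the weighted sense, in the traps the norms `N i` of the differences do not grow, and the weights `a` bound
the number of the paths by `L^n`. A path may be stopped `J` steps before the trap, so the cells may look
into the future.
THEOREM `h_le_log`: then `h c b ≤ log L`.
-/

set_option autoImplicit false

open Set Filter Topology

namespace Pool.Agent.Work.MP_99322d_an.U

/-- The sequences of the bounded orbits. -/
def Adm (c b R : ℝ) (x : ℕ → ℝ) : Prop :=
  (∀ k, x (k + 2) = x (k + 1) ^ 2 - b * x k + c) ∧ ∀ k, |x k| ≤ R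

theorem Adm.shift {c b R : ℝ} {x : ℕ → ℝ} (h : Adm c b R x) (n : ℕ) :
    Adm c b R (fun k => x (n + k)) :=
  ⟨fun k => h.1 (n + k), fun k => h.2 (n + k)⟩

/-- Certificate for the upper bound. -/
structure Cert (c b R : ℝ) (V I : Type) where
  /-- memory: the cells are only used from this time on -/
  k0 : ℕ
  /-- lookahead: the paths may stop `J` steps before the trap -/
  J : ℕ
  /-- cells: predicates of the sequence and the time -/
  Cell : V → (ℕ → ℝ) → ℕ → Prop
  /-- traps -/
  Trap : I → (ℕ → ℝ) → ℕ → Prop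
  /-- possible next cells -/
  succ : V → List V
  /-- next trap -/
  nx : I → I
  /-- slopes `t = d x_(k) / d x_(k+1)` -/
  al : V → ℝ
  be : V → ℝ
  /-- metric weights of the cells -/
  m : V → ℝ
  /-- norm in the traps, `N i d1 d0` for the differences `d1` of `x (k+1)` and `d0` of `x k` -/
  N : I → ℝ → ℝ → ℝ
  Mn : ℝ
  /-- counting weights -/
  a : V → ℝ
  L : ℝ
  hL : 1 ≤ L
  m_pos : ∀ v, 0 < m v
  a_pos : ∀ v, 0 < a v
  Mn_pos : 0 < Mn
  N_lo1 : ∀ i d1 d0, |d1| ≤ Mn * N i d1 d0
  N_lo0 : ∀ i d1 d0, |d0| ≤ Mn * N i d1 d0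
  N_up : ∀ i d1 d0, N i d1 d0 ≤ Mn * (|d1| + |d0|)
  al_be : ∀ v, al v ≤ be v
  start : ∀ x, Adm c b R x → (∃ i, Trap i x (k0 + J)) ∨ ∃ v, Cell v x k0
  step : ∀ x, Adm c b R x → ∀ k, k0 ≤ k → ∀ v, Cell v x k →
    (∃ i, Trap i x (k + 1 + J)) ∨ ∃ w ∈ succ v, Cell w x (k + 1)
  trap : ∀ x, Adm c b R x → ∀ k, k0 ≤ k → ∀ i, Trap i x k → Trap (nx i) x (k + 1)
  expand : ∀ x y, Adm c b R x → Adm c b R y → ∀ k, k0 ≤ k → ∀ v w, w ∈ succ v →
    Cell v x k → Cell v y k → Cell w x (k + 1) → Cell w y (k + 1) → ∀ t, al v ≤ t → t ≤ be v →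
    ∃ t', t' * (x (k + 1) + y (k + 1) - b * t) = 1 ∧ al w ≤ t' ∧ t' ≤ be w ∧ m v * |t'| ≤ m w
  contr : ∀ x y, Adm c b R x → Adm c b R y → ∀ k, k0 ≤ k → ∀ i, Trap i x k → Trap i y k →
    N (nx i) (x (k + 2) - y (k + 2)) (x (k + 1) - y (k + 1)) ≤
      N i (x (k + 1) - y (k + 1)) (x k - y k)
  count : ∀ v, ((succ v).map a).sum ≤ L * a v

variable {c b R : ℝ} {V I : Type}

namespace Cert

variable (C : Cert c b R V I)

/-- `x` follows the path `v :: l` from the time `k` on. -/
def Fol (x : ℕ → ℝ) : ℕ → V → List V → Prop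
  | k, v, [] => C.Cell v x k
  | k, v, w :: l => C.Cell v x k ∧ w ∈ C.succ v ∧ Fol x (k + 1) w l

theorem Fol.cell {x : ℕ → ℝ} {k : ℕ} {v : V} {l : List V} (h : C.Fol x k v l) : C.Cell v x k := by
  cases l with
  | nil => exact h
  | cons w l => exact h.1

/-- All paths of length `n` from `v` on (without the first vertex). -/
def paths : ℕ → V → List (List V)
  | 0, _ => [[]]
  | n + 1, v => (C.succ v).flatMap fun w => (paths n w).map (w :: ·)

theorem Fol.mem_paths {x : ℕ → ℝ} : ∀ {l : List V} {k : ℕ} {v : V}, C.Fol x k v l →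
    l ∈ C.paths l.length v := by
  intro l
  induction l with
  | nil => intro k v _; simp [paths]
  | cons w l ih =>
    intro k v h
    obtain ⟨_, h2, h3⟩ := h
    simp only [List.length_cons, paths, List.mem_flatMap, List.mem_map]
    exact ⟨w, h2, l, ih h3, rfl⟩

theorem length_paths (am : ℝ) (hm : ∀ v, am ≤ C.a v) (n : ℕ) : ∀ v,
    ((C.paths n v).length : ℝ) * am ≤ C.L ^ n * C.a v := by
  induction n with
  | zero => intro v; simpa [paths] using hm v
  | succ n ih =>
    intro v
    have key : ∀ s : List V, (((s.flatMap fun w => (C.paths n w).map (w :: ·)).length : ℕ) : ℝ) * am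
        ≤ C.L ^ n * (s.map C.a).sum := by
      intro s
      induction s with
      | nil => simp
      | cons w s ihs =>
        have := ih w
        simp only [List.flatMap_cons, List.length_append, List.length_map, Nat.cast_add,
          List.map_cons, List.sum_cons]
        nlinarith
    have h1 := key (C.succ v)
    have h2 := C.count v
    have h3 : (0 : ℝ) ≤ C.L ^ n := pow_nonneg (by linarith [C.hL]) n
    have h4 := mul_le_mul_of_nonneg_left h2 h3
    simp only [paths]
    rw [pow_succ]
    linarith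

/-- Existence of paths: after `n` steps, or up to a trap. -/
theorem exists_fol {x : ℕ → ℝ} (hx : Adm c b R x) (n : ℕ) : ∀ k, C.k0 ≤ k → ∀ v, C.Cell v x k →
    (∃ l : List V, l.length = n ∧ C.Fol x k v l) ∨
    ∃ l : List V, l.length < n ∧ C.Fol x k v l ∧ ∃ i, C.Trap i x (k + l.length + 1 + C.J) := by
  induction n with
  | zero => intro k _ v hv; exact Or.inl ⟨[], rfl, hv⟩
  | succ n ih =>
    intro k hk v hv
    rcases C.step x hx k hk v hv with ⟨i, hi⟩ | ⟨w, hw, hcw⟩
    · exact Or.inr ⟨[], by simp, hv, i, by simpa using hi⟩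
    · rcases ih (k + 1) (by omega) w hcw with ⟨l, hl, hf⟩ | ⟨l, hl, hf, i, hi⟩
      · exact Or.inl ⟨w :: l, by simp [hl], hv, hw, hf⟩
      · refine Or.inr ⟨w :: l, by simpa using hl, ⟨hv, hw, hf⟩, i, ?_⟩
        have : k + (w :: l).length + 1 + C.J = k + 1 + l.length + 1 + C.J := by simp; omega
        rw [this]
        exact hi

/-- The last vertex of a path. -/
def last : V → List V → V
  | v, [] => v
  | _, w :: l => last w l

/-- THE EXPANSION LEMMA: two sequences with the same path are close if their final states are close. -/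
theorem expansion {x y : ℕ → ℝ} (hx : Adm c b R x) (hy : Adm c b R y) (hb : 0 ≤ b) (hb' : b ≤ 1 / 2)
    (M m0 : ℝ) (hM : ∀ v, C.m v ≤ M) (hm0 : ∀ v, m0 ≤ C.m v) (l : List V) :
    ∀ k, C.k0 ≤ k → ∀ v, C.Fol x k v l → C.Fol y k v l → ∀ t, C.al v ≤ t → t ≤ C.be v →
    C.m v * |x (k + 1) - y (k + 1)| ≤
      C.m (last v l) * |x (k + l.length + 1) - y (k + l.length + 1)| +
      M ^ 2 * (|(x k - y k) - t * (x (k + 1) - y (k + 1))| / C.m v) ∧
    ∀ j, j ≤ l.length → m0 * |x (k + j + 1) - y (k + j + 1)| ≤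
      C.m (last v l) * |x (k + l.length + 1) - y (k + l.length + 1)| +
      M ^ 2 * (|(x k - y k) - t * (x (k + 1) - y (k + 1))| / C.m v) := by
  induction l with
  | nil =>
    intro k _ v _ _ t _ _
    have hmv := C.m_pos v
    have h0 : 0 ≤ M ^ 2 * (|(x k - y k) - t * (x (k + 1) - y (k + 1))| / C.m v) := by positivity
    have h1 : m0 * |x (k + 1) - y (k + 1)| ≤ C.m v * |x (k + 1) - y (k + 1)| :=
      mul_le_mul_of_nonneg_right (hm0 v) (abs_nonneg _)
    refine ⟨by simp only [last, List.length_nil, add_zero]; linarith, fun j hj => ?_⟩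
    have : j = 0 := by simpa using hj
    subst this
    simp only [last, List.length_nil, add_zero]
    linarith
  | cons w l ih =>
    intro k hk v hfx hfy t ht1 ht2
    obtain ⟨hvx, hw, hfx'⟩ := hfx
    obtain ⟨hvy, _, hfy'⟩ := hfy
    obtain ⟨t', ht', hal, hbe, hmm⟩ := C.expand x y hx hy k hk v w hw hvx hvy (Fol.cell C hfx')
      (Fol.cell C hfy') t ht1 ht2
    have hmv := C.m_pos v
    have hmw := C.m_pos w
    have hMv := hM v
    have hMw := hM w
    obtain ⟨ih1, ih2⟩ := ih (k + 1) (by omega) w hfx' hfy' t' hal hbe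
    have hl : k + 1 + l.length + 1 = k + (w :: l).length + 1 := by simp; omega
    rw [hl] at ih1 ih2
    -- the recurrence
    have hd : x (k + 2) - y (k + 2) =
        (x (k + 1) + y (k + 1)) * (x (k + 1) - y (k + 1)) - b * (x k - y k) := by
      rw [hx.1 k, hy.1 k]; ring
    have hk2 : k + 1 + 1 = k + 2 := rfl
    rw [hk2] at ih1 ih2
    set d0 := x k - y k with hd0
    set d1 := x (k + 1) - y (k + 1) with hd1
    set d2 := x (k + 2) - y (k + 2) with hd2
    set s := x (k + 1) + y (k + 1) with hs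
    set e := d0 - t * d1 with he
    have h1 : d1 = t' * (d2 + b * e) := by
      rw [hd, he]
      have : t' * (s * d1 - b * d0 + b * (d0 - t * d1)) = (t' * (s - b * t)) * d1 := by ring
      rw [this, ht', one_mul]
    have h2 : d1 - t' * d2 = b * (t' * e) := by
      linear_combination h1
    rw [h2] at ih1 ih2
    have h3 : |b * (t' * e)| / C.m w ≤ b * (|e| / C.m v) := by
      rw [abs_mul, abs_mul, abs_of_nonneg hb, mul_div_assoc]
      refine mul_le_mul_of_nonneg_left ?_ hb
      rw [div_le_div_iff₀ hmw hmv]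
      have := mul_le_mul_of_nonneg_right hmm (abs_nonneg e)
      linarith
    have hE : 0 ≤ |e| / C.m v := by positivity
    have hM2 : 0 ≤ M ^ 2 := by positivity
    have h4 : M ^ 2 * (|b * (t' * e)| / C.m w) ≤ M ^ 2 * (b * (|e| / C.m v)) :=
      mul_le_mul_of_nonneg_left h3 hM2
    have h5 : M ^ 2 * (b * (|e| / C.m v)) ≤ 1 / 2 * (M ^ 2 * (|e| / C.m v)) := by
      have : b * (M ^ 2 * (|e| / C.m v)) ≤ 1 / 2 * (M ^ 2 * (|e| / C.m v)) :=
        mul_le_mul_of_nonneg_right hb' (by positivity)
      linarith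
    have hfirst : C.m v * |d1| ≤ C.m (last w l) * |x (k + (w :: l).length + 1) -
        y (k + (w :: l).length + 1)| + M ^ 2 * (|e| / C.m v) := by
      have e1 : C.m v * |d1| = (C.m v * |t'|) * |d2 + b * e| := by
        conv_lhs => rw [h1, abs_mul]
        ring
      have e2 : (C.m v * |t'|) * |d2 + b * e| ≤ C.m w * |d2 + b * e| :=
        mul_le_mul_of_nonneg_right hmm (abs_nonneg _)
      have e3 : |d2 + b * e| ≤ |d2| + b * |e| := by
        refine (abs_add_le _ _).trans ?_
        rw [abs_mul, abs_of_nonneg hb]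
      have e4 : C.m w * |d2 + b * e| ≤ C.m w * (|d2| + b * |e|) :=
        mul_le_mul_of_nonneg_left e3 hmw.le
      have e5 : C.m w * (b * |e|) = b * (C.m w * C.m v * (|e| / C.m v)) := by
        field_simp
      have e6 : C.m w * C.m v ≤ M ^ 2 := by
        rw [sq]
        exact mul_le_mul hMw hMv hmv.le (hmw.le.trans hMw)
      have e7 : b * (C.m w * C.m v * (|e| / C.m v)) ≤ b * (M ^ 2 * (|e| / C.m v)) :=
        mul_le_mul_of_nonneg_left (mul_le_mul_of_nonneg_right e6 hE) hb
      have e8 : b * (M ^ 2 * (|e| / C.m v)) ≤ 1 / 2 * (M ^ 2 * (|e| / C.m v)) :=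
        mul_le_mul_of_nonneg_right hb' (by positivity)
      rw [e1]
      nlinarith
    refine ⟨hfirst, fun j hj => ?_⟩
    cases j with
    | zero =>
      have h6 : m0 * |d1| ≤ C.m v * |d1| := mul_le_mul_of_nonneg_right (hm0 v) (abs_nonneg _)
      exact h6.trans hfirst
    | succ j =>
      have hj' : j ≤ l.length := by simpa using hj
      have h7 := ih2 j hj'
      have h8 : k + 1 + j + 1 = k + (j + 1) + 1 := by omega
      rw [h8] at h7
      have h9 : 0 ≤ M ^ 2 * (|e| / C.m v) := by positivity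
      simp only [last]
      linarith

end Cert

end Pool.Agent.Work.MP_99322d_an.U
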