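import Pool.Agent.Work.MP_99322d_an.Params
import Pool.Agent.Work.MP_99322d_an.U.Core

/-!
# MP_99322d, upper bound at `P0`: common definitions of the sign approach (helper98)

The states are coded by the signs of `x_k`.  `Win x n` : the point `x n` is in its window (window A
if `x (n-1) ≥ 0`, window B if `x (n-1) < 0`); the end points are integers at the scale `2^96`.
-/

set_option autoImplicit false

namespace Pool.Agent.Work.MP_99322d_an.U

/-- the sign `s` of the number `t` (`true` = nonnegative, `false` = negative) -/
def Sg (s : Bool) (t : ℝ) : Prop := if s = true then 0 ≤ t else t < 0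

/-- the signs of `x n, x (n+1), …` are the word -/
def Mat : List Bool → (ℕ → ℝ) → ℕ → Prop
  | [], _, _ => True
  | s :: w, x, n => Sg s (x n) ∧ Mat w x (n + 1)

/-- end points of the windows, scale `2^96` -/
def wAl : ℤ := -186335041491218800249308
def wAr : ℤ := 203872230337604813753132
def wBl : ℤ := -177157355726193198437356
def wBr : ℤ := 73610063556988496533676

/-- `x n` is in its window -/
def Win (x : ℕ → ℝ) (n : ℕ) : Prop :=
  (0 ≤ x (n - 1) ∧ (wAl : ℝ) ≤ x n * 2 ^ 96 ∧ x n * 2 ^ 96 ≤ (wAr : ℝ)) ∨
  (x (n - 1) < 0 ∧ (wBl : ℝ) ≤ x n * 2 ^ 96 ∧ x n * 2 ^ 96 ≤ (wBr : ℝ))

/-- the orbits of the point `P0`, with the bound `|x_k| ≤ 2` -/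
def Orb (x : ℕ → ℝ) : Prop := Adm P0.1 P0.2 2 x

/-- the word `A` (19 signs of `x_1 … x_19`) -/
def wordA : List Bool := [false, true, true, true, false, false, true, true, false, true, true, true,
  false, true, true, true, false, false, true]

/-- the word `B` (17 signs of `x_1 … x_17`) -/
def wordB : List Bool := [false, true, true, true, false, false, true, true, false, true, true, true,
  false, true, true, true, false]

/-- the forbidden words (read in the order of time); the last two carry the context: the sign of
`x_(-1)`, then the sign of `x_0`, then `x_1, x_2, …` -/
def forb : List (List Bool) := [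
  [false, true, true, true, true],
  [false, true, true, true, false, false, true, true, true],
  [false, true, true, true, false, false, true, true, false, false],
  [false, true, true, true, false, false, true, true, false, true, false],
  [false, true, true, true, false, false, true, true, false, true, true, false],
  [false, true, true, true, false, false, true, true, false, true, true, true, false, true, true,
    true, true],
  wordB ++ [false, true, true],
  [false, false] ++ wordB ++ [false],
  [false, true] ++ wordB ++ [false]]

end Pool.Agent.Work.MP_99322d_an.U
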