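import Pool.Agent.Work.MP_99322d_an.U.Sign
import Pool.Agent.Work.MP_99322d_an.U.Sig
import Pool.Agent.Work.MP_99322d_an.Weights

/-!
# Upper bound at `P0`: assembly from lists of integers (helper40)
-/

set_option autoImplicit false

open Set Filter Topology

namespace Pool.Agent.Work.MP_99322d_an.U

/-- The traps: what is needed of `U/Trap`. -/
structure TrapSys (I : Type) where
  Trap : I → (ℕ → ℝ) → ℕ → Prop
  nx : I → I
  N : I → ℝ → ℝ → ℝ
  Mn : ℝ
  Mn_pos : 0 < Mn
  N_lo1 : ∀ i d1 d0, |d1| ≤ Mn * N i d1 d0
  N_lo0 : ∀ i d1 d0, |d0| ≤ Mn * N i d1 d0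
  N_up : ∀ i d1 d0, N i d1 d0 ≤ Mn * (|d1| + |d0|)
  trap : ∀ x, Orb x → ∀ k, 4 ≤ k → ∀ i, Trap i x k → Trap (nx i) x (k + 1)
  contr : ∀ x y, Orb x → Orb y → ∀ k, 4 ≤ k → ∀ i, Trap i x k → Trap i y k →
    N (nx i) (x (k + 2) - y (k + 2)) (x (k + 1) - y (k + 1)) ≤ N i (x (k + 1) - y (k + 1)) (x k - y k)

/-- trapped at the time `k` -/
def TrapSys.Trapped {I : Type} (T : TrapSys I) (x : ℕ → ℝ) (k : ℕ) : Prop := ∃ i, T.Trap i x k

/-- The data of the graph: lists in the order of the vertices. -/
structure UData where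
  words : List (List Bool)
  succs : List (List ℕ)
  los : List (List ℤ)
  als : List ℤ
  bes : List ℤ
  ms : List ℤ
  as : List ℕ

namespace UData

variable (G : UData)

def n : ℕ := G.words.length
def word (i : ℕ) : List Bool := G.words.getD i []
def succ (i : ℕ) : List ℕ := G.succs.getD i []
def lo (i j : ℕ) : ℤ := (((G.succ i).zip (G.los.getD i [])).lookup j).getD 0
def al (i : ℕ) : ℤ := G.als.getD i 0
def be (i : ℕ) : ℤ := G.bes.getD i 0
def m (i : ℕ) : ℤ := G.ms.getD i 0
def a (i : ℕ) : ℕ := G.as.getD i 0

/-- check of the words of the vertex `i` -/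
def ckWord (i : ℕ) : Bool :=
  decide (2 ≤ (G.word i).length) && decide ((G.word i).length ≤ 30) &&
    (G.succ i).all (fun j => decide (j < G.n)) &&
    cov forb ((G.succ i).map G.word) 1 24 (G.word i)

/-- check of the numbers of the vertex `i` -/
def ckNum (i : ℕ) : Bool :=
  decide (0 < G.m i) && decide (0 < G.a i) && decide (G.al i ≤ G.be i) &&
    decide (wD * ((G.succ i).map G.a).sum ≤ LN * G.a i) &&
    (G.succ i).all (fun j => edgeOK (2 ^ 96) Pb ((G.word i).getD 1 true) (G.lo i j) (2 ^ 97) (G.al i)
      (G.be i) (G.m i) (G.al j) (G.be j) (G.m j))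

end UData

theorem P0_snd' : P0.2 = (Pb : ℝ) / ((2 ^ 96 : ℤ) : ℝ) := by
  have h1 : P0.2 = (Pb : ℝ) / 2 ^ 96 := rfl
  have h2 : (((2 : ℤ) ^ 96 : ℤ) : ℝ) = (2 : ℝ) ^ 96 := by norm_num
  rw [h1, h2]

/-- THE UPPER BOUND from the data. -/
theorem upper_of_data {I : Type} [Finite I] (T : TrapSys I) (J' : ℕ) (G : UData)
    (hW : ∀ i, i < G.n → G.ckWord i = true) (hN : ∀ i, i < G.n → G.ckNum i = true)
    (hS : cov forb G.words 0 24 [] = true)
    (facts : ∀ x, Orb x → ∀ k, 5 ≤ k → T.Trapped x (k + J') ∨ ∀ w ∈ forb, ¬ Occ x w k)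
    (bound : ∀ x, Orb x → ∀ k, 5 ≤ k → ∀ i, i < G.n → ∀ j ∈ G.succ i, Occ x (G.word i) k →
      Occ x (G.word j) (k + 1) → ¬ T.Trapped x k → (G.lo i j : ℝ) / 2 ^ 96 ≤ |x (k + 1)|) :
    h P0.1 P0.2 ≤ ((Real.log L0q : ℝ) : EReal) := by
  have hD : (((2 : ℤ) ^ 96 : ℤ) : ℝ) = (2 : ℝ) ^ 96 := by norm_num
  have hb := P0_snd'
  have hA : ∀ x, Adm P0.1 ((Pb : ℝ) / ((2 ^ 96 : ℤ) : ℝ)) 2 x → Orb x := by
    intro x hx
    rw [← hb] at hx
    exact hx
  have hword : ∀ i, i < G.n → G.word i ∈ G.words := by
    intro i hi
    have hi' : i < G.words.length := hi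
    unfold UData.word
    rw [List.getD_eq_getElem _ _ hi']
    exact List.getElem_mem hi'
  have hmem : ∀ w ∈ G.words, ∃ i, i < G.n ∧ G.word i = w := by
    intro w hw
    obtain ⟨i, hi, rfl⟩ := List.getElem_of_mem hw
    exact ⟨i, hi, List.getD_eq_getElem _ _ hi⟩
  have hsucc : ∀ i, i < G.n → ∀ j ∈ G.succ i, j < G.n := by
    intro i hi j hj
    have := hW i hi
    simp only [UData.ckWord, Bool.and_eq_true, List.all_eq_true, decide_eq_true_eq] at this
    exact this.1.2 j hj
  -- the successor lists in `Fin n`
  obtain ⟨S, hSdef⟩ : ∃ S : Fin G.n → List (Fin G.n), ∀ i, (S i).map Fin.val = G.succ i.val := by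
    refine ⟨fun i => (G.succ i.val).attach.map fun j => ⟨j.1, hsucc i.val i.2 j.1 j.2⟩, fun i => ?_⟩
    rw [List.map_map]
    have : (Fin.val ∘ fun (j : {x // x ∈ G.succ i.val}) =>
        (⟨j.1, hsucc i.val i.2 j.1 j.2⟩ : Fin G.n)) = Subtype.val := rfl
    rw [this, List.attach_map_subtype_val]
  have hSmem : ∀ i j, j ∈ S i → j.val ∈ G.succ i.val := by
    intro i j hj
    rw [← hSdef i]
    exact List.mem_map_of_mem hj
  let C : SignCert P0.1 2 (2 ^ 96) Pb (Fin G.n) I :=
    { k0 := 5
      J' := J'
      fuel := 24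
      ml := 54
      W := fun i => G.word i.val
      succ := S
      starts := List.finRange G.n
      lo := fun i j => G.lo i.val j.val
      hi := fun _ => 2 ^ 97
      al := fun i => G.al i.val
      be := fun i => G.be i.val
      m := fun i => G.m i.val
      a := fun i => (G.a i.val : ℤ)
      LN := (LN : ℤ)
      LD := (wD : ℤ)
      forb := forb
      Trap := T.Trap
      nx := T.nx
      N := T.N
      Mn := T.Mn
      D_pos := by norm_num
      B_nonneg := by norm_num [Pb]
      hLD := by decide +kernel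
      hLN := by decide +kernel
      m_pos := by
        intro i
        have := hN i.val i.2
        simp only [UData.ckNum, Bool.and_eq_true, decide_eq_true_eq] at this
        exact this.1.1.1.1
      a_pos := by
        intro i
        have := hN i.val i.2
        simp only [UData.ckNum, Bool.and_eq_true, decide_eq_true_eq] at this
        exact_mod_cast this.1.1.1.2
      al_be := by
        intro i
        have := hN i.val i.2
        simp only [UData.ckNum, Bool.and_eq_true, decide_eq_true_eq] at this
        exact this.1.1.2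
      Mn_pos := T.Mn_pos
      N_lo1 := T.N_lo1
      N_lo0 := T.N_lo0
      N_up := T.N_up
      trap := fun x hx k hk i hi => T.trap x (hA x hx) k (by omega) i hi
      contr := fun x y hx hy k hk i h1 h2 => T.contr x y (hA x hx) (hA y hy) k (by omega) i h1 h2
      facts := fun x hx k hk => facts x (hA x hx) k hk
      bound := by
        intro x hx k hk i j hj hi1 hj1 hT
        refine ⟨?_, ?_⟩
        · have := bound x (hA x hx) k hk i.val i.2 j.val (hSmem i j hj) hi1 hj1 hT
          rw [hD]
          exact this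
        · have h1 := (hA x hx).2 (k + 1)
          have h2 : (((2 : ℤ) ^ 97 : ℤ) : ℝ) / (((2 : ℤ) ^ 96 : ℤ) : ℝ) = 2 := by
            push_cast; norm_num
          rw [h2]
          exact h1
      hlen := by
        intro i
        have := hW i.val i.2
        simp only [UData.ckWord, Bool.and_eq_true, decide_eq_true_eq] at this
        exact ⟨this.1.1.1, by omega⟩
      hfuel := by norm_num
      hstart := by
        have : (List.finRange G.n).map (fun i => G.word i.val) = G.words := by
          apply List.ext_getElem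
          · simp [UData.n]
          · intro i h1 h2
            simp only [List.getElem_map, List.getElem_finRange]
            exact List.getD_eq_getElem _ _ h2
        rw [this]
        exact hS
      hstep := by
        intro i
        have := hW i.val i.2
        simp only [UData.ckWord, Bool.and_eq_true] at this
        have h2 : (S i).map (fun j => G.word j.val) = (G.succ i.val).map G.word := by
          rw [← hSdef i, List.map_map]; rfl
        rw [h2]
        exact this.2
      hedge := by
        intro i j hj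
        have := hN i.val i.2
        simp only [UData.ckNum, Bool.and_eq_true, List.all_eq_true] at this
        exact this.2 j.val (hSmem i j hj)
      count := by
        intro i
        have := hN i.val i.2
        simp only [UData.ckNum, Bool.and_eq_true, decide_eq_true_eq] at this
        have h1 := this.1.2
        have h2 : ((S i).map fun j => (G.a j.val : ℤ)).sum = (((G.succ i.val).map G.a).sum : ℕ) := by
          rw [← hSdef i, List.map_map]
          have : ∀ l : List (Fin G.n), (l.map fun j => (G.a j.val : ℤ)).sum =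
              ((l.map (G.a ∘ Fin.val)).sum : ℕ) := by
            intro l
            induction l with
            | nil => simp
            | cons j l ih => simp only [List.map_cons, List.sum_cons, ih, Function.comp]; push_cast; ring
          exact this (S i)
        rw [h2]
        exact_mod_cast h1 }
  have key := C.h_le_log (by
      have h1 : ((Pb : ℤ) : ℝ) / (((2 : ℤ) ^ 96 : ℤ) : ℝ) ≤ 1 / 2 := by
        rw [hD]; norm_num [Pb]
      exact h1) (by norm_num) (by
      have h1 : |P0.1| + (1 + (Pb : ℝ) / (((2 : ℤ) ^ 96 : ℤ) : ℝ)) * 2 < 2 ^ 2 := by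
        have h2 : P0.1 = (Pc : ℝ) / 2 ^ 96 := rfl
        rw [hD, h2, abs_of_nonpos (by norm_num [Pc])]
        norm_num [Pb, Pc]
      exact h1)
  rw [← hb] at key
  have hL : (((LN : ℤ) : ℝ) / ((wD : ℤ) : ℝ)) = L0q := by
    unfold L0q; push_cast; rfl
  have hlog : Real.log (((C.LN : ℤ) : ℝ) / ((C.LD : ℤ) : ℝ)) = Real.log L0q := by
    rw [← hL]
  rw [hlog] at key
  exact key

end Pool.Agent.Work.MP_99322d_an.U
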