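import Pool.Agent.Work.MP_99322d_an.U.Trap
import Pool.Agent.Work.MP_99322d_an.U.Upper

/-!
# MP_99322d, upper bound at `P0`: the traps as a `TrapSys` (helper31)
-/

set_option autoImplicit false

namespace Pool.Agent.Work.MP_99322d_an.U

/-- the traps of `U/Trap.lean` -/
noncomputable def trapSys : TrapSys TI where
  Trap := Trap
  nx := tnx
  N := tN
  Mn := tMn
  Mn_pos := tMn_pos
  N_lo1 := tN_lo1
  N_lo0 := tN_lo0
  N_up := tN_up
  trap _ hx _ _ _ h := trap_next hx h
  contr _ _ hx hy _ _ _ h h' := trap_contr hx hy h h'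

/-- a point of a window is trapped -/
theorem trapped_of_win {x : ℕ → ℝ} {n : ℕ} (hn : 4 ≤ n) (h : Win x n) :
    trapSys.Trapped x (n - 1) := by
  obtain ⟨s, hs⟩ := trap_of_win hn h
  exact ⟨_, hs⟩

/-- the traps persist -/
theorem trapped_add {x : ℕ → ℝ} (hx : Orb x) {k : ℕ} (h : trapSys.Trapped x k) (j : ℕ) :
    trapSys.Trapped x (k + j) := by
  induction j with
  | zero => exact h
  | succ j ih =>
    obtain ⟨i, hi⟩ := ih
    exact ⟨_, trap_next hx hi⟩

/-- trapped from the time `n - 1` of a window on -/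
theorem trapped_of_win_le {x : ℕ → ℝ} (hx : Orb x) {n k : ℕ} (hn : 4 ≤ n) (h : Win x n)
    (hk : n ≤ k + 1) : trapSys.Trapped x k := by
  have h1 := trapped_add hx (trapped_of_win hn h) (k - (n - 1))
  rwa [show n - 1 + (k - (n - 1)) = k by omega] at h1

end Pool.Agent.Work.MP_99322d_an.U
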