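import Pool.Agent.Work.MP_99322d_an.U.Chk
import Pool.Agent.Work.MP_99322d_an.U.TrapInst

/-!
# MP_99322d: the upper bound of the entropy at `P0` (helper98)
-/

set_option autoImplicit false

namespace Pool.Agent.Work.MP_99322d_an.U

/-- **Upper bound at `P0`.** -/
theorem upper : h P0.1 P0.2 ≤ ((Real.log L0q : ℝ) : EReal) := by
  refine upper_of_data trapSys 25 G ?_ ?_ ckStart ?_ ?_
  · intro i hi
    rw [G_n] at hi
    exact of_all ckWord_all i hi
  · intro i hi
    rw [G_n] at hi
    exact of_all ckNum_all i hi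
  · intro x hx k hk
    by_cases hW : ∃ j, k - 1 ≤ j ∧ j ≤ k + 24 ∧ Win x j
    · obtain ⟨j, hj1, hj2, hj⟩ := hW
      exact Or.inl (trapped_of_win_le hx (by omega) hj (by omega))
    · refine Or.inr (forb_fact hx k (by omega) fun j hj1 hj2 hj => hW ⟨j, hj1, hj2, hj⟩)
  · intro x hx k hk i hi j hj h1 h2 hT
    refine bound_fact hx k (by omega) i hi j hj h1 h2 fun hW => hT ?_
    have := trapped_of_win (x := x) (n := k + 1) (by omega) hW
    simpa using this

end Pool.Agent.Work.MP_99322d_an.U
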