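import Pool.Agent.Work.MP_99322d_an.U.Main

/-!
# Theory U: certificates with cells given by sign words (helper40)

A cell is a word of signs: `Occ w x k` says that the signs of `x k, x (k+1), ...` are the letters of `w`
(`true` for `0 ≤ x`). Forbidden words are facts about the sequences which are not trapped; `cov` is a tree
check that every continuation without forbidden words is matched by one of the given words.
-/

set_option autoImplicit false

open Set Filter Topology

namespace Pool.Agent.Work.MP_99322d_an.U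

/-- sign: `true` for `0 ≤ x k` -/
noncomputable def sg (x : ℕ → ℝ) (k : ℕ) : Bool := decide (0 ≤ x k)

/-- the signs from the time `k` on are the letters of the word -/
def Occ (x : ℕ → ℝ) : List Bool → ℕ → Prop
  | [], _ => True
  | a :: w, k => sg x k = a ∧ Occ x w (k + 1)

theorem Occ.of_append {x : ℕ → ℝ} (u w : List Bool) (k : ℕ) (h : Occ x (u ++ w) k) :
    Occ x u k ∧ Occ x w (k + u.length) := by
  induction u generalizing k with
  | nil => exact ⟨trivial, by simpa using h⟩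
  | cons a u ih =>
    obtain ⟨h1, h2⟩ := h
    obtain ⟨h3, h4⟩ := ih (k + 1) h2
    refine ⟨⟨h1, h3⟩, ?_⟩
    have : k + (a :: u).length = k + 1 + u.length := by simp; omega
    rw [this]
    exact h4

theorem Occ.append {x : ℕ → ℝ} (u w : List Bool) (k : ℕ) (h1 : Occ x u k)
    (h2 : Occ x w (k + u.length)) : Occ x (u ++ w) k := by
  induction u generalizing k with
  | nil => simpa using h2
  | cons a u ih =>
    obtain ⟨h3, h4⟩ := h1
    refine ⟨h3, ih (k + 1) h4 ?_⟩
    have : k + (a :: u).length = k + 1 + u.length := by simp; omega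
    rwa [this] at h2

theorem Occ.drop {x : ℕ → ℝ} (u : List Bool) (k d : ℕ) (hd : d ≤ u.length) (h : Occ x u k) :
    Occ x (u.drop d) (k + d) := by
  have h1 : Occ x (u.take d ++ u.drop d) k := by rwa [List.take_append_drop]
  have h2 := (Occ.of_append _ _ _ h1).2
  rwa [List.length_take, min_eq_left hd] at h2

theorem Occ.of_initial {x : ℕ → ℝ} {w u : List Bool} (hw : w <+: u) (k : ℕ) (h : Occ x u k) :
    Occ x w k := by
  obtain ⟨t, rfl⟩ := hw
  exact (Occ.of_append _ _ _ h).1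

/-- Tree check: every continuation of `U` without forbidden words is matched by a word of `S` from the
position `d` on. -/
def cov (forb S : List (List Bool)) (d : ℕ) : ℕ → List Bool → Bool
  | 0, U => S.any (fun w => w.isPrefixOf (U.drop d)) || forb.any fun w => w.isSuffixOf U
  | n + 1, U => (S.any (fun w => w.isPrefixOf (U.drop d)) || forb.any fun w => w.isSuffixOf U) ||
      (cov forb S d n (U ++ [true]) && cov forb S d n (U ++ [false]))

theorem cov_base {forb S : List (List Bool)} {d : ℕ} {U : List Bool}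
    (h : (S.any (fun w => w.isPrefixOf (U.drop d)) || forb.any fun w => w.isSuffixOf U) = true)
    (hd : d ≤ U.length) {x : ℕ → ℝ} {k : ℕ} (hU : Occ x U k) {N : ℕ} (hN : U.length ≤ N)
    (hF : ∀ w ∈ forb, ∀ j, j ≤ N → ¬ Occ x w (k + j)) : ∃ w ∈ S, Occ x w (k + d) := by
  rw [Bool.or_eq_true, List.any_eq_true, List.any_eq_true] at h
  rcases h with ⟨w, hw, hp⟩ | ⟨w, hw, hp⟩
  · exact ⟨w, hw, Occ.of_initial (List.isPrefixOf_iff_prefix.1 hp) _ (Occ.drop U k d hd hU)⟩
  · obtain ⟨t, ht⟩ := List.isSuffixOf_iff_suffix.1 hp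
    rw [← ht] at hU
    have h1 := (Occ.of_append _ _ _ hU).2
    have h2 : t.length ≤ N := by
      have : t.length + w.length = U.length := by rw [← ht, List.length_append]
      omega
    exact absurd h1 (hF w hw t.length h2)

theorem cov_sound {forb S : List (List Bool)} {d : ℕ} (n : ℕ) : ∀ {U : List Bool},
    cov forb S d n U = true → d ≤ U.length → ∀ {x : ℕ → ℝ} {k : ℕ}, Occ x U k → ∀ {N : ℕ},
    U.length + n ≤ N → (∀ w ∈ forb, ∀ j, j ≤ N → ¬ Occ x w (k + j)) →
    ∃ w ∈ S, Occ x w (k + d) := by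
  induction n with
  | zero =>
    intro U h hd x k hU N hN hF
    exact cov_base h hd hU (by omega) hF
  | succ n ih =>
    intro U h hd x k hU N hN hF
    rw [cov, Bool.or_eq_true] at h
    rcases h with h | h
    · exact cov_base h hd hU (by omega) hF
    · rw [Bool.and_eq_true] at h
      cases hb : sg x (k + U.length) with
      | true =>
        exact ih h.1 (by simp; omega) (Occ.append U [true] k hU ⟨hb, trivial⟩)
          (by simp; omega) hF
      | false =>
        exact ih h.2 (by simp; omega) (Occ.append U [false] k hU ⟨hb, trivial⟩)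
          (by simp; omega) hF

/-! ### The edges -/

/-- Numerical check of an edge `v → w`: sign `s` of `x (k+1)`, `lo ≤ |x (k+1)| ≤ hi`, slopes
`[al, be]` at `v` and `[al', be']` at `w`, weights `m`, `m'`; all numbers divided by `D`, `b = B / D`. -/
def edgeOK (D B : ℤ) (s : Bool) (lo hi al be m al' be' m' : ℤ) : Bool :=
  match s with
  | true => decide (0 < 2 * lo * D - B * be) && decide (al' * (2 * hi * D - B * al) ≤ D ^ 3) &&
      decide (D ^ 3 ≤ be' * (2 * lo * D - B * be)) && decide (m * D ^ 2 ≤ m' * (2 * lo * D - B * be))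
  | false => decide (0 < 2 * lo * D + B * al) && decide (al' * (2 * lo * D + B * al) ≤ -D ^ 3) &&
      decide (-D ^ 3 ≤ be' * (2 * hi * D + B * be)) && decide (m * D ^ 2 ≤ m' * (2 * lo * D + B * al))

/-- the sign of `x` is `s` and `lo ≤ |x| ≤ hi` -/
def SB (s : Bool) (lo hi x : ℝ) : Prop :=
  (s = true → lo ≤ x ∧ x ≤ hi) ∧ (s = false → -hi ≤ x ∧ x ≤ -lo)

theorem SB.of_sg {x : ℕ → ℝ} {k : ℕ} {s : Bool} {lo hi : ℝ} (hs : sg x k = s) (h1 : lo ≤ |x k|)
    (h2 : |x k| ≤ hi) : SB s lo hi (x k) := by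
  subst hs
  unfold sg
  constructor
  · intro h
    have h0 : 0 ≤ x k := by simpa using h
    rw [abs_of_nonneg h0] at h1 h2
    exact ⟨h1, h2⟩
  · intro h
    have h0 : x k < 0 := by simpa using h
    rw [abs_of_neg h0] at h1 h2
    exact ⟨by linarith, by linarith⟩

theorem edgeOK_sound {D B : ℤ} (hD : 0 < D) (hB : 0 ≤ B) {s : Bool}
    {lo hi al be m al' be' m' : ℤ} (hm' : 0 < m')
    (h : edgeOK D B s lo hi al be m al' be' m' = true) {x y t : ℝ}
    (hx : SB s (lo / D) (hi / D) x) (hy : SB s (lo / D) (hi / D) y)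
    (ht1 : (al : ℝ) / D ≤ t) (ht2 : t ≤ (be : ℝ) / D) :
    ∃ t', t' * (x + y - (B / D : ℝ) * t) = 1 ∧ (al' : ℝ) / D ≤ t' ∧ t' ≤ (be' : ℝ) / D ∧
      (m : ℝ) * |t'| ≤ m' := by
  have hD' : (0 : ℝ) < D := by exact_mod_cast hD
  have hB' : (0 : ℝ) ≤ B := by exact_mod_cast hB
  have hmm : (0 : ℝ) < m' := by exact_mod_cast hm'
  rw [div_le_iff₀ hD'] at ht1
  rw [le_div_iff₀ hD'] at ht2
  have hbt1 : (B : ℝ) * al ≤ B * (t * D) := mul_le_mul_of_nonneg_left ht1 hB'
  have hbt2 : (B : ℝ) * (t * D) ≤ B * be := mul_le_mul_of_nonneg_left ht2 hB'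
  obtain ⟨S, hS⟩ : ∃ S : ℝ, S = x + y - (B / D : ℝ) * t := ⟨_, rfl⟩
  have hSD : S * D ^ 2 = (x * D + y * D) * D - B * (t * D) := by
    rw [hS]; field_simp
  rw [← hS]
  cases s with
  | true =>
    obtain ⟨hx1, hx2⟩ := hx.1 rfl
    obtain ⟨hy1, hy2⟩ := hy.1 rfl
    rw [div_le_iff₀ hD'] at hx1 hy1
    rw [le_div_iff₀ hD'] at hx2 hy2
    simp only [edgeOK, Bool.and_eq_true, decide_eq_true_eq] at h
    obtain ⟨⟨⟨h1, h2⟩, h3⟩, h4⟩ := h
    have h1' : (0 : ℝ) < 2 * lo * D - B * be := by exact_mod_cast h1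
    have h2' : (al' : ℝ) * (2 * hi * D - B * al) ≤ D ^ 3 := by exact_mod_cast h2
    have h3' : (D : ℝ) ^ 3 ≤ be' * (2 * lo * D - B * be) := by exact_mod_cast h3
    have h4' : (m : ℝ) * D ^ 2 ≤ m' * (2 * lo * D - B * be) := by exact_mod_cast h4
    have hlo : 2 * lo * D - B * be ≤ S * D ^ 2 := by
      rw [hSD]
      have := mul_le_mul_of_nonneg_right (add_le_add hx1 hy1) hD'.le
      linarith
    have hhi : S * D ^ 2 ≤ 2 * hi * D - B * al := by
      rw [hSD]
      have := mul_le_mul_of_nonneg_right (add_le_add hx2 hy2) hD'.le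
      linarith
    have hS0 : 0 < S := by
      have : 0 < S * D ^ 2 := by linarith
      exact (pos_iff_pos_of_mul_pos this).2 (by positivity)
    refine ⟨S⁻¹, inv_mul_cancel₀ hS0.ne', ?_, ?_, ?_⟩
    · rw [div_le_iff₀ hD', ← div_eq_inv_mul, le_div_iff₀ hS0]
      by_cases hal : 0 ≤ (al' : ℝ)
      · have e1 := mul_le_mul_of_nonneg_left hhi hal
        have e2 : (al' : ℝ) * S * D ^ 2 ≤ D * D ^ 2 := by
          have : (al' : ℝ) * (S * D ^ 2) ≤ D ^ 3 := e1.trans h2'
          linarith [show (D : ℝ) * D ^ 2 = D ^ 3 by ring,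
            show (al' : ℝ) * S * D ^ 2 = al' * (S * D ^ 2) by ring]
        exact le_of_mul_le_mul_right e2 (by positivity)
      · push Not at hal
        have : (al' : ℝ) * S ≤ 0 := mul_nonpos_of_nonpos_of_nonneg hal.le hS0.le
        linarith
    · rw [le_div_iff₀ hD', ← div_eq_inv_mul, div_le_iff₀ hS0]
      have hbe : 0 ≤ (be' : ℝ) := by
        by_contra hcon
        push Not at hcon
        have := mul_neg_of_neg_of_pos hcon h1'
        have : (0 : ℝ) < D ^ 3 := by positivity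
        linarith
      have e1 := mul_le_mul_of_nonneg_left hlo hbe
      have e2 : (D : ℝ) * D ^ 2 ≤ be' * S * D ^ 2 := by
        have := h3'.trans e1
        linarith [show (D : ℝ) * D ^ 2 = D ^ 3 by ring,
            show (be' : ℝ) * S * D ^ 2 = be' * (S * D ^ 2) by ring]
      exact le_of_mul_le_mul_right e2 (by positivity)
    · rw [abs_of_pos (inv_pos.2 hS0), ← div_eq_mul_inv, div_le_iff₀ hS0]
      have e1 := mul_le_mul_of_nonneg_left hlo hmm.le
      have e2 : (m : ℝ) * D ^ 2 ≤ m' * S * D ^ 2 := by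
        have := h4'.trans e1
        linarith [show (m' : ℝ) * S * D ^ 2 = m' * (S * D ^ 2) by ring]
      exact le_of_mul_le_mul_right e2 (by positivity)
  | false =>
    obtain ⟨hx1, hx2⟩ := hx.2 rfl
    obtain ⟨hy1, hy2⟩ := hy.2 rfl
    have hx1' : -(hi : ℝ) ≤ x * D := by
      rw [neg_le, ← neg_mul, ← le_div_iff₀ hD']; linarith
    have hx2' : x * D ≤ -(lo : ℝ) := by
      rw [le_neg, ← neg_mul, ← div_le_iff₀ hD']; linarith
    have hy1' : -(hi : ℝ) ≤ y * D := by
      rw [neg_le, ← neg_mul, ← le_div_iff₀ hD']; linarith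
    have hy2' : y * D ≤ -(lo : ℝ) := by
      rw [le_neg, ← neg_mul, ← div_le_iff₀ hD']; linarith
    simp only [edgeOK, Bool.and_eq_true, decide_eq_true_eq] at h
    obtain ⟨⟨⟨h1, h2⟩, h3⟩, h4⟩ := h
    have h1' : (0 : ℝ) < 2 * lo * D + B * al := by exact_mod_cast h1
    have h2' : (al' : ℝ) * (2 * lo * D + B * al) ≤ -D ^ 3 := by exact_mod_cast h2
    have h3' : -(D : ℝ) ^ 3 ≤ be' * (2 * hi * D + B * be) := by exact_mod_cast h3
    have h4' : (m : ℝ) * D ^ 2 ≤ m' * (2 * lo * D + B * al) := by exact_mod_cast h4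
    obtain ⟨Q, hQ⟩ : ∃ Q : ℝ, Q = -S := ⟨_, rfl⟩
    have hQD : Q * D ^ 2 = -(x * D + y * D) * D + B * (t * D) := by
      rw [hQ, neg_mul, hSD]; ring
    have hlo : 2 * lo * D + B * al ≤ Q * D ^ 2 := by
      rw [hQD]
      have := mul_le_mul_of_nonneg_right (add_le_add hx2' hy2') hD'.le
      linarith
    have hhi : Q * D ^ 2 ≤ 2 * hi * D + B * be := by
      rw [hQD]
      have := mul_le_mul_of_nonneg_right (add_le_add hx1' hy1') hD'.le
      linarith
    have hQ0 : 0 < Q := by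
      have : 0 < Q * D ^ 2 := by linarith
      exact (pos_iff_pos_of_mul_pos this).2 (by positivity)
    have hSQ : S = -Q := by rw [hQ]; ring
    rw [hSQ]
    refine ⟨-Q⁻¹, by rw [neg_mul_neg, inv_mul_cancel₀ hQ0.ne'], ?_, ?_, ?_⟩
    · rw [div_le_iff₀ hD', neg_mul, ← div_eq_inv_mul, le_neg, div_le_iff₀ hQ0]
      have hal : (al' : ℝ) ≤ 0 := by
        by_contra hcon
        push Not at hcon
        have := mul_pos hcon h1'
        have : (0 : ℝ) < D ^ 3 := by positivity
        linarith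
      have e1 := mul_le_mul_of_nonpos_left hlo hal
      have e2 : (al' : ℝ) * Q * D ^ 2 ≤ -D * D ^ 2 := by
        have := e1.trans h2'
        linarith [show -(D : ℝ) * D ^ 2 = -D ^ 3 by ring,
            show (al' : ℝ) * Q * D ^ 2 = al' * (Q * D ^ 2) by ring]
      have e3 := le_of_mul_le_mul_right e2 (by positivity)
      linarith
    · rw [le_div_iff₀ hD', neg_mul, ← div_eq_inv_mul, neg_le, le_div_iff₀ hQ0]
      by_cases hbe : 0 ≤ (be' : ℝ)
      · have : 0 ≤ (be' : ℝ) * Q := mul_nonneg hbe hQ0.le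
        linarith
      · push Not at hbe
        have e1 := mul_le_mul_of_nonpos_left hhi hbe.le
        have e2 : -(D : ℝ) * D ^ 2 ≤ be' * Q * D ^ 2 := by
          have := h3'.trans e1
          linarith [show -(D : ℝ) * D ^ 2 = -D ^ 3 by ring,
            show (be' : ℝ) * Q * D ^ 2 = be' * (Q * D ^ 2) by ring]
        have e3 := le_of_mul_le_mul_right e2 (by positivity)
        linarith
    · rw [abs_neg, abs_of_pos (inv_pos.2 hQ0), ← div_eq_mul_inv, div_le_iff₀ hQ0]
      have e1 := mul_le_mul_of_nonneg_left hlo hmm.le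
      have e2 : (m : ℝ) * D ^ 2 ≤ m' * Q * D ^ 2 := by
        have := h4'.trans e1
        linarith [show (m' : ℝ) * Q * D ^ 2 = m' * (Q * D ^ 2) by ring]
      exact le_of_mul_le_mul_right e2 (by positivity)

/-! ### Certificates with sign words -/

/-- Certificate with cells given by sign words; all numbers are integers, divided by `D`. -/
structure SignCert (c R : ℝ) (D B : ℤ) (V I : Type) where
  k0 : ℕ
  /-- lookahead of the facts on forbidden words -/
  J' : ℕ
  fuel : ℕ
  /-- bound of the lengths of the words -/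
  ml : ℕ
  W : V → List Bool
  succ : V → List V
  starts : List V
  /-- lower bound of `|x (k+1)|` along an edge, upper bound at a vertex -/
  lo : V → V → ℤ
  hi : V → ℤ
  al : V → ℤ
  be : V → ℤ
  m : V → ℤ
  a : V → ℤ
  LN : ℤ
  LD : ℤ
  forb : List (List Bool)
  Trap : I → (ℕ → ℝ) → ℕ → Prop
  nx : I → I
  N : I → ℝ → ℝ → ℝ
  Mn : ℝ
  D_pos : 0 < D
  B_nonneg : 0 ≤ B
  hLD : 0 < LD
  hLN : LD ≤ LN
  m_pos : ∀ v, 0 < m v
  a_pos : ∀ v, 0 < a v
  al_be : ∀ v, al v ≤ be v
  Mn_pos : 0 < Mn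
  N_lo1 : ∀ i d1 d0, |d1| ≤ Mn * N i d1 d0
  N_lo0 : ∀ i d1 d0, |d0| ≤ Mn * N i d1 d0
  N_up : ∀ i d1 d0, N i d1 d0 ≤ Mn * (|d1| + |d0|)
  trap : ∀ x, Adm c (B / D) R x → ∀ k, k0 ≤ k → ∀ i, Trap i x k → Trap (nx i) x (k + 1)
  contr : ∀ x y, Adm c (B / D) R x → Adm c (B / D) R y → ∀ k, k0 ≤ k → ∀ i, Trap i x k →
    Trap i y k → N (nx i) (x (k + 2) - y (k + 2)) (x (k + 1) - y (k + 1)) ≤
      N i (x (k + 1) - y (k + 1)) (x k - y k)
  /-- facts: forbidden words do not occur unless the orbit is trapped -/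
  facts : ∀ x, Adm c (B / D) R x → ∀ k, k0 ≤ k →
    (∃ i, Trap i x (k + J')) ∨ ∀ w ∈ forb, ¬ Occ x w k
  /-- facts: bounds of `|x (k+1)|` from the words, for orbits which are not yet trapped -/
  bound : ∀ x, Adm c (B / D) R x → ∀ k, k0 ≤ k → ∀ v, ∀ w ∈ succ v, Occ x (W v) k →
    Occ x (W w) (k + 1) → (¬ ∃ i, Trap i x k) →
    (lo v w : ℝ) / D ≤ |x (k + 1)| ∧ |x (k + 1)| ≤ (hi v : ℝ) / D
  /-- kernel checks -/
  hlen : ∀ v, 2 ≤ (W v).length ∧ (W v).length + fuel ≤ ml
  hfuel : fuel ≤ ml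
  hstart : cov forb (starts.map W) 0 fuel [] = true
  hstep : ∀ v, cov forb ((succ v).map W) 1 fuel (W v) = true
  hedge : ∀ v, ∀ w ∈ succ v,
    edgeOK D B ((W v).getD 1 true) (lo v w) (hi v) (al v) (be v) (m v) (al w) (be w) (m w) = true
  count : ∀ v, LD * ((succ v).map a).sum ≤ LN * a v

namespace SignCert

variable {c R : ℝ} {D B : ℤ} {V I : Type} (C : SignCert c R D B V I)

theorem trap_iter {x : ℕ → ℝ} (hx : Adm c (B / D) R x) (k : ℕ) (hk : C.k0 ≤ k) (i : I)
    (hi : C.Trap i x k) (j : ℕ) : ∃ i', C.Trap i' x (k + j) := by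
  induction j with
  | zero => exact ⟨i, hi⟩
  | succ j ih =>
    obtain ⟨i', hi'⟩ := ih
    exact ⟨_, C.trap x hx (k + j) (by omega) i' hi'⟩

theorem facts_all {x : ℕ → ℝ} (hx : Adm c (B / D) R x) (k : ℕ) (hk : C.k0 ≤ k) :
    (∃ i, C.Trap i x (k + (C.J' + C.ml))) ∨
      ∀ w ∈ C.forb, ∀ j, j ≤ C.ml → ¬ Occ x w (k + j) := by
  by_cases h : ∃ j, j ≤ C.ml ∧ ∃ i, C.Trap i x (k + j + C.J')
  · obtain ⟨j, hj, i, hi⟩ := h
    obtain ⟨i', hi'⟩ := C.trap_iter hx (k + j + C.J') (by omega) i hi (C.ml - j)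
    have e : k + j + C.J' + (C.ml - j) = k + (C.J' + C.ml) := by omega
    rw [e] at hi'
    exact Or.inl ⟨i', hi'⟩
  · refine Or.inr fun w hw j hj => ?_
    rcases C.facts x hx (k + j) (by omega) with h1 | h1
    · exact absurd ⟨j, hj, h1⟩ h
    · exact h1 w hw

/-- the certificate of theory U -/
noncomputable def toCert : Cert c (B / D) R V I where
  k0 := C.k0
  J := C.J' + C.ml
  Cell v x k := Occ x (C.W v) k ∧ ¬ ∃ i, C.Trap i x k
  Trap := C.Trap
  succ := C.succ
  nx := C.nx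
  al v := C.al v / D
  be v := C.be v / D
  m v := C.m v
  N := C.N
  Mn := C.Mn
  a v := C.a v
  L := C.LN / C.LD
  hL := by
    have h1 : (0 : ℝ) < C.LD := by exact_mod_cast C.hLD
    rw [one_le_div h1]
    exact_mod_cast C.hLN
  m_pos v := by exact_mod_cast C.m_pos v
  a_pos v := by exact_mod_cast C.a_pos v
  Mn_pos := C.Mn_pos
  N_lo1 := C.N_lo1
  N_lo0 := C.N_lo0
  N_up := C.N_up
  al_be v := by
    have h1 : (0 : ℝ) < D := by exact_mod_cast C.D_pos
    have h2 : (C.al v : ℝ) ≤ C.be v := by exact_mod_cast C.al_be v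
    exact div_le_div_of_nonneg_right h2 h1.le
  start x hx := by
    rcases C.facts_all hx C.k0 le_rfl with h | h
    · exact Or.inl h
    · obtain ⟨w, hw, ho⟩ := cov_sound C.fuel C.hstart (by simp) (x := x) (k := C.k0) trivial
        (N := C.ml) (by simpa using C.hfuel) h
      obtain ⟨v, _, rfl⟩ := List.mem_map.1 hw
      by_cases hT : ∃ i, C.Trap i x C.k0
      · obtain ⟨i, hi⟩ := hT
        exact Or.inl (C.trap_iter hx C.k0 le_rfl i hi _)
      · exact Or.inr ⟨v, ho, hT⟩
  step x hx k hk v hv := by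
    rcases C.facts_all hx k hk with ⟨i, hi⟩ | h
    · obtain ⟨i', hi'⟩ := C.trap_iter hx (k + (C.J' + C.ml)) (by omega) i hi 1
      have e : k + (C.J' + C.ml) + 1 = k + 1 + (C.J' + C.ml) := by omega
      rw [e] at hi'
      exact Or.inl ⟨i', hi'⟩
    · have hl := C.hlen v
      obtain ⟨w, hw, ho⟩ := cov_sound C.fuel (C.hstep v) (by omega) (x := x) (k := k) hv.1
        (N := C.ml) hl.2 h
      obtain ⟨w', hw', rfl⟩ := List.mem_map.1 hw
      by_cases hT : ∃ i, C.Trap i x (k + 1)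
      · obtain ⟨i, hi⟩ := hT
        exact Or.inl (C.trap_iter hx (k + 1) (by omega) i hi _)
      · exact Or.inr ⟨w', hw', ho, hT⟩
  trap := C.trap
  expand x y hx hy k hk v w hw hvx hvy hwx hwy t ht1 ht2 := by
    have hl := C.hlen v
    have hsx : ∀ {z : ℕ → ℝ}, Occ z (C.W v) k → sg z (k + 1) = (C.W v).getD 1 true := by
      intro z hz
      rcases hW : C.W v with _ | ⟨a, _ | ⟨a', l⟩⟩
      · rw [hW] at hl; simp at hl
      · rw [hW] at hl; simp at hl
      · rw [hW] at hz
        simpa using hz.2.1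
    obtain ⟨hx1, hx2⟩ := C.bound x hx k hk v w hw hvx.1 hwx.1 hvx.2
    obtain ⟨hy1, hy2⟩ := C.bound y hy k hk v w hw hvy.1 hwy.1 hvy.2
    exact edgeOK_sound C.D_pos C.B_nonneg (C.m_pos w) (C.hedge v w hw)
      (SB.of_sg (hsx hvx.1) hx1 hx2) (SB.of_sg (hsx hvy.1) hy1 hy2) ht1 ht2
  contr := C.contr
  count v := by
    have h1 : (0 : ℝ) < C.LD := by exact_mod_cast C.hLD
    have h2 : ∀ l : List V, (l.map fun v => (C.a v : ℝ)).sum = ((l.map C.a).sum : ℤ) := by
      intro l
      induction l with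
      | nil => simp
      | cons v l ih =>
        simp only [List.map_cons, List.sum_cons, ih]
        push_cast
        ring
    rw [h2, div_mul_eq_mul_div, le_div_iff₀ h1]
    have := C.count v
    have h3 : (C.LD : ℝ) * (((C.succ v).map C.a).sum : ℤ) ≤ C.LN * C.a v := by exact_mod_cast this
    linarith

/-- The entropy bound from a certificate with sign words. -/
theorem h_le_log (C : SignCert c R D B V I) [Finite V] [Finite I] (hb : (B : ℝ) / D ≤ 1 / 2)
    (hR0 : 0 < R) (hR : |c| + (1 + B / D) * R < R ^ 2) :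
    h c (B / D) ≤ ((Real.log (C.LN / C.LD) : ℝ) : EReal) := by
  have h1 : (0 : ℝ) < D := by exact_mod_cast C.D_pos
  have h2 : (0 : ℝ) ≤ B := by exact_mod_cast C.B_nonneg
  exact C.toCert.h_le_log (by positivity) hb hR0 hR

end SignCert

end Pool.Agent.Work.MP_99322d_an.U
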