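import Pool.Agent.Work.MP_99322d_an.U.Ref
import Pool.Agent.Work.MP_99322d_an.U.Sign

/-!
# MP_99322d, upper bound: forbidden words and lower bounds (helper98)
-/

set_option autoImplicit false

namespace Pool.Agent.Work.MP_99322d_an.U

theorem Sg.of_sg {x : ℕ → ℝ} {k : ℕ} {s : Bool} (h : sg x k = s) : Sg s (x k) := by
  subst h
  unfold sg Sg
  by_cases h0 : 0 ≤ x k
  · simp [h0]
  · simp only [h0, decide_false, Bool.false_eq_true, if_false]
    exact not_le.1 h0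

theorem Occ.mat {x : ℕ → ℝ} (w : List Bool) (k : ℕ) (h : Occ x w k) : Mat w x k := by
  induction w generalizing k with
  | nil => trivial
  | cons s w ih => exact ⟨Sg.of_sg h.1, ih _ h.2⟩

/-! ### The fold: a point outside of its window -/

theorem fold_A_pos {b c x0 xm xmm V0 Q : ℝ} (hb : 0 ≤ b) (hxm : 0 ≤ xm) (hrec : xm ^ 2 = x0 - c + b * xmm)
    (hmm : xmm ≤ 2) (hx : V0 ≤ x0) (hQ : 1 ≤ Q) (hQ2 : V0 - c + 2 * b ≤ Q ^ 2)
    (hV : 5 * b ≤ 8 * V0) :
    V0 ^ 2 - b * Q + 3 / 4 * b * (x0 - V0) ≤ x0 ^ 2 - b * xm := by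
  have h0 : 0 ≤ x0 - V0 := by linarith
  have h1 : xm ^ 2 ≤ Q ^ 2 + (x0 - V0) := by
    have := mul_le_mul_of_nonneg_left hmm hb
    linarith
  have h2 : xm ≤ Q + (x0 - V0) / 2 := by
    have h3 : 0 ≤ Q + (x0 - V0) / 2 := by linarith
    refine abs_le_of_sq_le_sq' ?_ h3 |>.2
    nlinarith
  have h4 : b * xm ≤ b * (Q + (x0 - V0) / 2) := mul_le_mul_of_nonneg_left h2 hb
  have h5 : 5 / 4 * b * (x0 - V0) ≤ (x0 + V0) * (x0 - V0) :=
    mul_le_mul_of_nonneg_right (by linarith) h0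
  nlinarith

theorem fold_A_neg {b c x0 xm xmm V0 Q : ℝ} (hb : 0 ≤ b) (hrec : xm ^ 2 = x0 - c + b * xmm)
    (hmm : xmm ≤ 2) (hx : x0 ≤ V0) (hQ : 1 ≤ Q) (hQ2 : V0 - c + 2 * b ≤ Q ^ 2)
    (hV : 3 * b ≤ -(8 * V0)) :
    V0 ^ 2 - b * Q + 3 / 4 * b * (V0 - x0) ≤ x0 ^ 2 - b * xm := by
  have h0 : 0 ≤ V0 - x0 := by linarith
  have h1 : xm ^ 2 ≤ Q ^ 2 := by
    have := mul_le_mul_of_nonneg_left hmm hb
    linarith
  have h2 : xm ≤ Q := abs_le_of_sq_le_sq' h1 (by linarith) |>.2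
  have h4 : b * xm ≤ b * Q := mul_le_mul_of_nonneg_left h2 hb
  have h5 : 3 / 4 * b * (V0 - x0) ≤ -(x0 + V0) * (V0 - x0) :=
    mul_le_mul_of_nonneg_right (by linarith) h0
  nlinarith

theorem fold_B_pos {b c x0 xm xmm V0 Q : ℝ} (hb : 0 ≤ b) (hxm : xm ≤ 0) (hrec : xm ^ 2 = x0 - c + b * xmm)
    (hmm : -2 ≤ xmm) (hx : V0 ≤ x0) (hQ : 1 ≤ Q) (hQ2 : Q ^ 2 ≤ V0 - c - 2 * b)
    (hV : 3 * b ≤ 8 * V0) :
    V0 ^ 2 + b * Q + 3 / 4 * b * (x0 - V0) ≤ x0 ^ 2 - b * xm := by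
  have h0 : 0 ≤ x0 - V0 := by linarith
  have h1 : Q ^ 2 ≤ (-xm) ^ 2 := by
    have := mul_le_mul_of_nonneg_left hmm hb
    nlinarith
  have h2 : Q ≤ -xm := abs_le_of_sq_le_sq' h1 (by linarith) |>.2
  have h4 : b * Q ≤ b * (-xm) := mul_le_mul_of_nonneg_left h2 hb
  have h5 : 3 / 4 * b * (x0 - V0) ≤ (x0 + V0) * (x0 - V0) :=
    mul_le_mul_of_nonneg_right (by linarith) h0
  nlinarith

theorem fold_B_neg {b c x0 xm xmm V0 Q : ℝ} (hb : 0 ≤ b) (hxm : xm ≤ 0) (hrec : xm ^ 2 = x0 - c + b * xmm)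
    (hmm : -2 ≤ xmm) (hx : x0 ≤ V0) (hQ : 1 ≤ Q) (hQ2 : Q ^ 2 ≤ V0 - c - 2 * b)
    (hV : 7 * b ≤ -(8 * V0)) :
    V0 ^ 2 + b * Q + 3 / 4 * b * (V0 - x0) ≤ x0 ^ 2 - b * xm := by
  have h0 : 0 ≤ V0 - x0 := by linarith
  have h1 : Q ^ 2 - (V0 - x0) ≤ (-xm) ^ 2 := by
    have := mul_le_mul_of_nonneg_left hmm hb
    nlinarith
  have h2 : Q - (V0 - x0) ≤ -xm := by
    by_contra hcon
    push Not at hcon
    have h3 : 0 ≤ -xm := by linarith
    -- (-xm)^2 < (Q - d)^2 ≤ Q^2 - d  (0 ≤ d ≤ Q, Q ≥ 1)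
    have h6 : (-xm) ^ 2 < (Q - (V0 - x0)) ^ 2 := by
      apply sq_lt_sq' <;> linarith
    have h7 : (V0 - x0) ≤ Q := by linarith
    nlinarith
  have h4 : b * (Q - (V0 - x0)) ≤ b * (-xm) := mul_le_mul_of_nonneg_left h2 hb
  have h5 : 7 / 4 * b * (V0 - x0) ≤ -(x0 + V0) * (V0 - x0) :=
    mul_le_mul_of_nonneg_right (by linarith) h0
  nlinarith

/-! ### The reference orbits of the window edges -/

/-- margin at the first step, `2^96 (1/512 + 4/3)` -/
def muF : ℤ := 105792292523929789325754324311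

/-- references of type A: the points `(V_0, V_1)` -/
def rAp : ℤ × ℤ := (wAr, -157020470971793554277353324682)
def rAn : ℤ × ℤ := (wAl, -157020470971581750509158539292)
/-- references of type B -/
def rBp : ℤ × ℤ := (wBr, -157019991024376614629068353992)
def rBn : ℤ × ℤ := (wBl, -157019991024240498020028163586)

/-- the references of the type -/
def refs (s : Bool) : List (ℤ × ℤ) := if s = true then [rAp, rAn] else [rBp, rBn]

def QAp : ℤ := 111536843879681547780916850317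
def QAn : ℤ := 111536705291286547136694975786
def QBp : ℤ := 111536555446440337299072481602
def QBn : ℤ := 111536466382143429546371409603

theorem scal {u : ℤ} {V : ℝ} (h : (u : ℝ) ≤ V * 2 ^ 96) : (u : ℝ) / 2 ^ 96 ≤ V := by
  rw [div_le_iff₀ (by positivity)]; exact h

/-- **Fold.** Outside of the window the image is above one of the references. -/
theorem fold {x : ℕ → ℝ} (hx : Orb x) (m : ℕ) (hW : ¬ Win x (m + 2)) (s : Bool)
    (hs : Sg s (x (m + 1))) :
    ∃ r ∈ refs s, (3 / 4 * P0.2) * |x (m + 2) - ((r.1 : ℤ) : ℝ) / 2 ^ 96| ≤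
      sid true (x (m + 3) - ((r.2 : ℤ) : ℝ) / 2 ^ 96) := by
  have hb := P0_b_pos.le
  have hrec0 : x (m + 2) = x (m + 1) ^ 2 - P0.2 * x m + P0.1 := hx.rec m
  have hrec1 : x (m + 3) = x (m + 2) ^ 2 - P0.2 * x (m + 1) + P0.1 := hx.rec (m + 1)
  have hsq : x (m + 1) ^ 2 = x (m + 2) - P0.1 + P0.2 * x m := by linarith
  have hm1 := (abs_le.1 (hx.bd m)).1
  have hm2 := (abs_le.1 (hx.bd m)).2
  have hbv : P0.2 = (Pb : ℝ) / 2 ^ 96 := rfl
  have hcv : P0.1 = (Pc : ℝ) / 2 ^ 96 := rfl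
  cases s with
  | true =>
    have h0 : 0 ≤ x (m + 1) := by simpa [Sg] using hs
    have hcase : x (m + 2) < (wAl : ℝ) / 2 ^ 96 ∨ (wAr : ℝ) / 2 ^ 96 < x (m + 2) := by
      by_contra hcon
      push Not at hcon
      refine hW (Or.inl ⟨by simpa using h0, ?_, ?_⟩)
      · have := hcon.1; rwa [div_le_iff₀ (by positivity)] at this
      · have := hcon.2; rwa [le_div_iff₀ (by positivity)] at this
    rcases hcase with hc | hc
    · refine ⟨rAn, by simp [refs], ?_⟩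
      have hf := fold_A_neg (b := P0.2) (c := P0.1) (x0 := x (m + 2)) (xm := x (m + 1)) (xmm := x m)
        (V0 := (wAl : ℝ) / 2 ^ 96) (Q := (QAn : ℝ) / 2 ^ 96) hb hsq hm2 hc.le
        (by norm_num [QAn]) (by rw [hbv, hcv]; norm_num [QAn, wAl, Pc, Pb])
        (by rw [hbv]; norm_num [wAl, Pb])
      have hu : ((rAn.2 : ℤ) : ℝ) / 2 ^ 96 ≤ ((wAl : ℝ) / 2 ^ 96) ^ 2 -
          P0.2 * ((QAn : ℝ) / 2 ^ 96) + P0.1 := by
        rw [hbv, hcv]; norm_num [rAn, QAn, wAl, Pc, Pb]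
      have e1 : ((rAn.1 : ℤ) : ℝ) = (wAl : ℝ) := rfl
      rw [e1, abs_of_nonpos (by linarith)]
      simp only [sid, if_true]
      rw [hrec1]
      linarith
    · refine ⟨rAp, by simp [refs], ?_⟩
      have hf := fold_A_pos (b := P0.2) (c := P0.1) (x0 := x (m + 2)) (xm := x (m + 1)) (xmm := x m)
        (V0 := (wAr : ℝ) / 2 ^ 96) (Q := (QAp : ℝ) / 2 ^ 96) hb h0 hsq hm2 hc.le
        (by norm_num [QAp]) (by rw [hbv, hcv]; norm_num [QAp, wAr, Pc, Pb])
        (by rw [hbv]; norm_num [wAr, Pb])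
      have hu : ((rAp.2 : ℤ) : ℝ) / 2 ^ 96 ≤ ((wAr : ℝ) / 2 ^ 96) ^ 2 -
          P0.2 * ((QAp : ℝ) / 2 ^ 96) + P0.1 := by
        rw [hbv, hcv]; norm_num [rAp, QAp, wAr, Pc, Pb]
      have e1 : ((rAp.1 : ℤ) : ℝ) = (wAr : ℝ) := rfl
      rw [e1, abs_of_nonneg (by linarith)]
      simp only [sid, if_true]
      rw [hrec1]
      linarith
  | false =>
    have h0 : x (m + 1) < 0 := by simpa [Sg] using hs
    have hcase : x (m + 2) < (wBl : ℝ) / 2 ^ 96 ∨ (wBr : ℝ) / 2 ^ 96 < x (m + 2) := by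
      by_contra hcon
      push Not at hcon
      refine hW (Or.inr ⟨by simpa using h0, ?_, ?_⟩)
      · have := hcon.1; rwa [div_le_iff₀ (by positivity)] at this
      · have := hcon.2; rwa [le_div_iff₀ (by positivity)] at this
    rcases hcase with hc | hc
    · refine ⟨rBn, by simp [refs], ?_⟩
      have hf := fold_B_neg (b := P0.2) (c := P0.1) (x0 := x (m + 2)) (xm := x (m + 1)) (xmm := x m)
        (V0 := (wBl : ℝ) / 2 ^ 96) (Q := (QBn : ℝ) / 2 ^ 96) hb h0.le hsq hm1 hc.le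
        (by norm_num [QBn]) (by rw [hbv, hcv]; norm_num [QBn, wBl, Pc, Pb])
        (by rw [hbv]; norm_num [wBl, Pb])
      have hu : ((rBn.2 : ℤ) : ℝ) / 2 ^ 96 ≤ ((wBl : ℝ) / 2 ^ 96) ^ 2 +
          P0.2 * ((QBn : ℝ) / 2 ^ 96) + P0.1 := by
        rw [hbv, hcv]; norm_num [rBn, QBn, wBl, Pc, Pb]
      have e1 : ((rBn.1 : ℤ) : ℝ) = (wBl : ℝ) := rfl
      rw [e1, abs_of_nonpos (by linarith)]
      simp only [sid, if_true]
      rw [hrec1]
      linarith
    · refine ⟨rBp, by simp [refs], ?_⟩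
      have hf := fold_B_pos (b := P0.2) (c := P0.1) (x0 := x (m + 2)) (xm := x (m + 1)) (xmm := x m)
        (V0 := (wBr : ℝ) / 2 ^ 96) (Q := (QBp : ℝ) / 2 ^ 96) hb h0.le hsq hm1 hc.le
        (by norm_num [QBp]) (by rw [hbv, hcv]; norm_num [QBp, wBr, Pc, Pb])
        (by rw [hbv]; norm_num [wBr, Pb])
      have hu : ((rBp.2 : ℤ) : ℝ) / 2 ^ 96 ≤ ((wBr : ℝ) / 2 ^ 96) ^ 2 +
          P0.2 * ((QBp : ℝ) / 2 ^ 96) + P0.1 := by
        rw [hbv, hcv]; norm_num [rBp, QBp, wBr, Pc, Pb]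
      have e1 : ((rBp.1 : ℤ) : ℝ) = (wBr : ℝ) := rfl
      rw [e1, abs_of_nonneg (by linarith)]
      simp only [sid, if_true]
      rw [hrec1]
      linarith

theorem muF_ok : (1 / 512 + P0.2 / (3 / 4 * P0.2)) * 2 ^ 96 ≤ ((muF : ℤ) : ℝ) := by
  have h : P0.2 / (3 / 4 * P0.2) = 4 / 3 := by
    have := P0_b_pos.ne'
    field_simp
  rw [h]; norm_num [muF]

theorem kappa_pos : 0 < 3 / 4 * P0.2 := mul_pos (by norm_num) P0_b_pos

/-- the six short forbidden words -/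
def forb6 : List (List Bool) := [
  [false, true, true, true, true],
  [false, true, true, true, false, false, true, true, true],
  [false, true, true, true, false, false, true, true, false, false],
  [false, true, true, true, false, false, true, true, false, true, false],
  [false, true, true, true, false, false, true, true, false, true, true, false],
  [false, true, true, true, false, false, true, true, false, true, true, true, false, true, true,
    true, true]]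

theorem forb6_run : (forb6.all fun f => [rAp, rAn, rBp, rBn].all fun r =>
    run (fun _ _ => false) true r.1 r.2 muF f) = true := by decide +kernel

theorem runA : ([rAp, rAn].all fun r =>
    run (fun t u => !t && decide (u ≤ wAr)) true r.1 r.2 muF wordA) = true := by decide +kernel

theorem runB : ([rBp, rBn].all fun r =>
    run (fun t u => t && decide (wBl ≤ u)) true r.1 r.2 muF wordB) = true := by decide +kernel

end Pool.Agent.Work.MP_99322d_an.U
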