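import Pool.Agent.Work.MP_99322d_an.U.Bnd

/-!
# MP_99322d, upper bound: the forbidden words and the bounds of the edges (helper98)
-/

set_option autoImplicit false

namespace Pool.Agent.Work.MP_99322d_an.U

theorem no_forb6 {x : ℕ → ℝ} (hx : Orb x) (m : ℕ) (hW : ¬ Win x (m + 2)) (f : List Bool)
    (hf : f ∈ forb6) (hO : Occ x f (m + 3)) : False := by
  obtain ⟨r, hr, hI⟩ := fold hx m hW (sg x (m + 1)) (Sg.of_sg rfl)
  have h1 := List.all_eq_true.1 forb6_run f hf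
  have hr' : r ∈ [rAp, rAn, rBp, rBn] := by
    unfold refs at hr
    split at hr <;> simp only [List.mem_cons, List.not_mem_nil, or_false] at hr ⊢ <;> tauto
  have h2 := List.all_eq_true.1 h1 r hr'
  exact run_false hx f true r.1 r.2 muF (3 / 4 * P0.2) (m + 2) kappa_pos hI muF_ok
    (Occ.mat f _ hO) h2

theorem no_forbB {x : ℕ → ℝ} (hx : Orb x) (m : ℕ) (hW : ¬ Win x (m + 2)) (hW2 : ¬ Win x (m + 20))
    (hs : sg x (m + 1) = false) (hO : Occ x wordB (m + 3)) (hl : sg x (m + 20) = false) : False := by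
  obtain ⟨r, hr, hI⟩ := fold hx m hW false (Sg.of_sg hs)
  have hr' : r ∈ [rBp, rBn] := by simpa [refs] using hr
  have h2 := List.all_eq_true.1 runB r hr'
  obtain ⟨t', u', hf, hside⟩ := run_sound hx wordB true r.1 r.2 muF (3 / 4 * P0.2) (m + 2) kappa_pos
    hI muF_ok (Occ.mat _ _ hO) h2
  simp only [Bool.and_eq_true, decide_eq_true_eq] at hf
  obtain ⟨ht, hu⟩ := hf
  subst ht
  have e : m + 2 + 1 + wordB.length = m + 20 := by simp [wordB]
  rw [e] at hside
  simp only [sid, if_true] at hside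
  have hneg : x (m + 20) < 0 := by simpa [Sg] using (Sg.of_sg hl)
  have h19 : x (m + 19) < 0 := by
    have : sg x (m + 19) = false := by
      have := hO
      simp only [wordB, Occ] at this
      simpa using this.2.2.2.2.2.2.2.2.2.2.2.2.2.2.2.2.1
    simpa [Sg] using (Sg.of_sg this)
  have hu' : (wBl : ℝ) ≤ (u' : ℝ) := by exact_mod_cast hu
  have h5 : (u' : ℝ) / 2 ^ 96 ≤ x (m + 20) := by linarith
  have h6 : (u' : ℝ) ≤ x (m + 20) * 2 ^ 96 := by rwa [div_le_iff₀ (by positivity)] at h5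
  refine hW2 (Or.inr ⟨by simpa using h19, hu'.trans h6, ?_⟩)
  have h7 : x (m + 20) * 2 ^ 96 ≤ 0 := mul_nonpos_of_nonpos_of_nonneg hneg.le (by positivity)
  have h8 : (0 : ℝ) ≤ (wBr : ℝ) := by norm_num [wBr]
  linarith

theorem no_forbA {x : ℕ → ℝ} (hx : Orb x) (m : ℕ) (hW : ¬ Win x (m + 2)) (hW2 : ¬ Win x (m + 20))
    (hW3 : ¬ Win x (m + 22)) (hO : Occ x wordA (m + 3)) (hl : sg x (m + 22) = true) : False := by
  cases hs : sg x (m + 1) with
  | false =>
    have h1 : Occ x (wordB ++ [false, true]) (m + 3) := hO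
    have h2 := Occ.of_append _ _ _ h1
    refine no_forbB hx m hW hW2 hs h2.1 ?_
    have h3 := h2.2
    have e : m + 3 + wordB.length = m + 20 := by simp [wordB]
    rw [e] at h3
    exact h3.1
  | true =>
    obtain ⟨r, hr, hI⟩ := fold hx m hW true (Sg.of_sg hs)
    have hr' : r ∈ [rAp, rAn] := by simpa [refs] using hr
    have h2 := List.all_eq_true.1 runA r hr'
    obtain ⟨t', u', hf, hside⟩ := run_sound hx wordA true r.1 r.2 muF (3 / 4 * P0.2) (m + 2)
      kappa_pos hI muF_ok (Occ.mat _ _ hO) h2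
    simp only [Bool.and_eq_true, decide_eq_true_eq, Bool.not_eq_true'] at hf
    obtain ⟨ht, hu⟩ := hf
    subst ht
    have e : m + 2 + 1 + wordA.length = m + 22 := by simp [wordA]
    rw [e] at hside
    simp only [sid, Bool.false_eq_true, if_false] at hside
    have hpos : 0 ≤ x (m + 22) := by simpa [Sg] using (Sg.of_sg hl)
    have h21 : 0 ≤ x (m + 21) := by
      have : sg x (m + 21) = true := by
        have := hO
        simp only [wordA, Occ] at this
        simpa using this.2.2.2.2.2.2.2.2.2.2.2.2.2.2.2.2.2.2.1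
      simpa [Sg] using (Sg.of_sg this)
    have hu' : (u' : ℝ) ≤ (wAr : ℝ) := by exact_mod_cast hu
    have h5 : x (m + 22) ≤ (u' : ℝ) / 2 ^ 96 := by linarith
    have h6 : x (m + 22) * 2 ^ 96 ≤ (u' : ℝ) := by rwa [le_div_iff₀ (by positivity)] at h5
    refine hW3 (Or.inl ⟨by simpa using h21, ?_, h6.trans hu'⟩)
    have h7 : 0 ≤ x (m + 22) * 2 ^ 96 := mul_nonneg hpos (by positivity)
    have h8 : (wAl : ℝ) ≤ 0 := by norm_num [wAl]
    linarith

/-- **The forbidden words do not occur, as long as the orbit is outside of the windows.** -/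
theorem forb_fact {x : ℕ → ℝ} (hx : Orb x) (n : ℕ) (hn : 4 ≤ n)
    (hW : ∀ j, n - 1 ≤ j → j ≤ n + 24 → ¬ Win x j) : ∀ f ∈ forb, ¬ Occ x f n := by
  obtain ⟨m, rfl⟩ : ∃ m, n = m + 3 := ⟨n - 3, by omega⟩
  intro f hf hO
  have hcase : f ∈ forb6 ∨ f = wordB ++ [false, true, true] ∨ f = [false, false] ++ wordB ++ [false] ∨
      f = [false, true] ++ wordB ++ [false] := by
    simp only [forb, forb6, List.mem_cons, List.not_mem_nil, or_false] at hf ⊢
    tauto
  rcases hcase with h | h | h | h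
  · exact no_forb6 hx m (hW _ (by omega) (by omega)) f h hO
  · subst h
    have h1 : Occ x (wordA ++ [true]) (m + 3) := hO
    have h2 := Occ.of_append _ _ _ h1
    have e : m + 3 + wordA.length = m + 22 := by simp [wordA]
    rw [e] at h2
    exact no_forbA hx m (hW _ (by omega) (by omega)) (hW _ (by omega) (by omega))
      (hW _ (by omega) (by omega)) h2.1 h2.2.1
  · subst h
    obtain ⟨h1, h2⟩ := Occ.of_append ([false, false] ++ wordB) [false] _ hO
    obtain ⟨h3, h4⟩ := Occ.of_append [false, false] wordB _ h1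
    have e : m + 3 + ([false, false] ++ wordB).length = m + 2 + 20 := by simp [wordB]
    rw [e] at h2
    exact no_forbB hx (m + 2) (hW _ (by omega) (by omega)) (hW _ (by omega) (by omega)) h3.1 h4 h2.1
  · subst h
    obtain ⟨h1, h2⟩ := Occ.of_append ([false, true] ++ wordB) [false] _ hO
    obtain ⟨h3, h4⟩ := Occ.of_append [false, true] wordB _ h1
    have e : m + 3 + ([false, true] ++ wordB).length = m + 2 + 20 := by simp [wordB]
    rw [e] at h2
    exact no_forbB hx (m + 2) (hW _ (by omega) (by omega)) (hW _ (by omega) (by omega)) h3.1 h4 h2.1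

/-! ### Lower bounds on the edges -/

def mu1 (t0 : ℤ) : ℤ := SCI / 512 + SCI / t0 + 2

/-- Check of the lower bound `l` (scale `2^96`) of `|x (k+1)|`: `p` = sign of `x k`, `s0` = sign of
`x (k+1)`, `items` = signs of `x (k+2), …`. `t0 = 0`: window edge. -/
def edgeB (p s0 : Bool) (items : List Bool) (l t0 q : ℤ) : Bool :=
  if t0 = 0 then
    (if p = true then (if s0 = true then decide (l ≤ wAr) else decide (l ≤ -wAl))
     else (if s0 = true then decide (l ≤ wBr) else decide (l ≤ -wBl)))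
  else
    decide (0 < t0) && decide (0 ≤ l) &&
    (decide (2 * SCI ≤ q) || (p && decide (q ≤ 0) && decide (q * q ≤ (-l - Pc - 2 * Pb) * SCI)) ||
      (!p && decide (0 ≤ q) && decide ((l - Pc + 2 * Pb) * SCI ≤ q * q))) &&
    run (fun _ _ => false) false 0 (-((-(l * l + PcS + Pb * q + t0 * Pb * l)) / SCI)) (mu1 t0) items

theorem mu1_ok {t0 : ℤ} (h : 0 < t0) :
    (1 / 512 + P0.2 / ((t0 : ℝ) * P0.2)) * 2 ^ 96 ≤ ((mu1 t0 : ℤ) : ℝ) := by
  have ht : (0 : ℝ) < t0 := by exact_mod_cast h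
  have hb := P0_b_pos
  have e : P0.2 / ((t0 : ℝ) * P0.2) = 1 / t0 := by field_simp
  rw [e]
  have h1 : SCI < (SCI / 512 + 1) * 512 := Int.lt_ediv_add_one_mul_self SCI (by norm_num)
  have h2 : SCI < (SCI / t0 + 1) * t0 := Int.lt_ediv_add_one_mul_self SCI h
  have h1' : (SCI : ℝ) < ((SCI / 512 : ℤ) + 1) * 512 := by exact_mod_cast h1
  have h2' : (SCI : ℝ) < ((SCI / t0 : ℤ) + 1) * t0 := by exact_mod_cast h2
  have hS : (SCI : ℝ) = 2 ^ 96 := by exact_mod_cast SCI_eq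
  rw [hS] at h1' h2'
  have h3 : (2 : ℝ) ^ 96 / t0 < ((SCI / t0 : ℤ) : ℝ) + 1 := by rwa [div_lt_iff₀ ht]
  have h4 : ((mu1 t0 : ℤ) : ℝ) = ((SCI / 512 : ℤ) : ℝ) + ((SCI / t0 : ℤ) : ℝ) + 2 := by
    unfold mu1; push_cast; ring
  rw [h4, add_mul]
  have h5 : 1 / (t0 : ℝ) * 2 ^ 96 = 2 ^ 96 / t0 := by ring
  rw [h5]
  linarith

theorem edgeB_sound {x : ℕ → ℝ} (hx : Orb x) (k : ℕ) (hk : 1 ≤ k) {p s0 : Bool} {items : List Bool}
    {l t0 q : ℤ} (hp : sg x k = p) (hs : sg x (k + 1) = s0) (hO : Occ x items (k + 2))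
    (hW : ¬ Win x (k + 1)) (h : edgeB p s0 items l t0 q = true) :
    (l : ℝ) / 2 ^ 96 ≤ |x (k + 1)| := by
  obtain ⟨j, rfl⟩ : ∃ j, k = j + 1 := ⟨k - 1, by omega⟩
  have hp' := Sg.of_sg hp
  have hs' := Sg.of_sg hs
  unfold edgeB at h
  split at h
  · -- window edges
    rw [div_le_iff₀ (by positivity)]
    cases p <;> cases s0 <;>
      simp only [Sg, Bool.false_eq_true, if_false, if_true, decide_eq_true_eq] at hp' hs' h
    · have h' : (l : ℝ) ≤ -(wBl : ℝ) := by exact_mod_cast h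
      rw [abs_of_neg hs']
      by_contra hcon
      push Not at hcon
      refine hW (Or.inr ⟨by simpa using hp', by linarith, ?_⟩)
      have h7 : x (j + 1 + 1) * 2 ^ 96 ≤ 0 := mul_nonpos_of_nonpos_of_nonneg hs'.le (by positivity)
      have h8 : (0 : ℝ) ≤ (wBr : ℝ) := by norm_num [wBr]
      linarith
    · have h' : (l : ℝ) ≤ (wBr : ℝ) := by exact_mod_cast h
      rw [abs_of_nonneg hs']
      by_contra hcon
      push Not at hcon
      refine hW (Or.inr ⟨by simpa using hp', ?_, by linarith⟩)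
      have h7 : 0 ≤ x (j + 1 + 1) * 2 ^ 96 := mul_nonneg hs' (by positivity)
      have h8 : (wBl : ℝ) ≤ 0 := by norm_num [wBl]
      linarith
    · have h' : (l : ℝ) ≤ -(wAl : ℝ) := by exact_mod_cast h
      rw [abs_of_neg hs']
      by_contra hcon
      push Not at hcon
      refine hW (Or.inl ⟨by simpa using hp', by linarith, ?_⟩)
      have h7 : x (j + 1 + 1) * 2 ^ 96 ≤ 0 := mul_nonpos_of_nonpos_of_nonneg hs'.le (by positivity)
      have h8 : (0 : ℝ) ≤ (wAr : ℝ) := by norm_num [wAr]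
      linarith
    · have h' : (l : ℝ) ≤ (wAr : ℝ) := by exact_mod_cast h
      rw [abs_of_nonneg hs']
      by_contra hcon
      push Not at hcon
      refine hW (Or.inl ⟨by simpa using hp', ?_, by linarith⟩)
      have h7 : 0 ≤ x (j + 1 + 1) * 2 ^ 96 := mul_nonneg hs' (by positivity)
      have h8 : (wAl : ℝ) ≤ 0 := by norm_num [wAl]
      linarith
  · by_contra hcon
    push Not at hcon
    simp only [Bool.and_eq_true, decide_eq_true_eq] at h
    obtain ⟨⟨⟨ht0, hl0⟩, hq⟩, hrun⟩ := h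
    have hb := P0_b_pos
    have hlr : (0 : ℝ) ≤ (l : ℝ) := by exact_mod_cast hl0
    have ht0r : (0 : ℝ) < (t0 : ℝ) := by exact_mod_cast ht0
    have hS : (SCI : ℝ) = 2 ^ 96 := by exact_mod_cast SCI_eq
    have hbv : P0.2 = (Pb : ℝ) / 2 ^ 96 := rfl
    have hcv : P0.1 = (Pc : ℝ) / 2 ^ 96 := rfl
    have hrec0 : x (j + 1 + 1) = x (j + 1) ^ 2 - P0.2 * x j + P0.1 := hx.rec j
    have hrec1 : x (j + 1 + 2) = x (j + 1 + 1) ^ 2 - P0.2 * x (j + 1) + P0.1 := hx.rec (j + 1)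
    have hj1 := (abs_le.1 (hx.bd j)).1
    have hj2 := (abs_le.1 (hx.bd j)).2
    have hx1 := (abs_le.1 (hx.bd (j + 1))).1
    have hab := abs_lt.1 hcon
    -- bound of `- x k`
    have hqq : -x (j + 1) ≤ (q : ℝ) / 2 ^ 96 := by
      rcases Bool.or_eq_true_iff.1 hq with hq | hq
      · rcases Bool.or_eq_true_iff.1 hq with hq | hq
        · have : 2 * SCI ≤ q := by simpa using hq
          have h2 : 2 * (SCI : ℝ) ≤ q := by exact_mod_cast this
          rw [hS] at h2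
          rw [le_div_iff₀ (by positivity)]
          nlinarith
        · simp only [Bool.and_eq_true, decide_eq_true_eq] at hq
          obtain ⟨⟨hpt, hq0⟩, hq2⟩ := hq
          subst hpt
          have h0 : 0 ≤ x (j + 1) := by simpa [Sg] using hp'
          have hq0' : (q : ℝ) ≤ 0 := by exact_mod_cast hq0
          have hq2' : (q : ℝ) * q ≤ (-(l : ℝ) - Pc - 2 * Pb) * 2 ^ 96 := by
            rw [← hS]; exact_mod_cast hq2
          have h3 : (-((q : ℝ) / 2 ^ 96)) ^ 2 ≤ x (j + 1) ^ 2 := by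
            have h4 : (-((q : ℝ) / 2 ^ 96)) ^ 2 ≤ -((l : ℝ) / 2 ^ 96) - P0.1 - 2 * P0.2 := by
              rw [hbv, hcv]
              have e1 : (-((q : ℝ) / 2 ^ 96)) ^ 2 = (q : ℝ) * q / 2 ^ 192 := by
                rw [neg_sq, div_pow, pow_two]; norm_num
              have e2 : -((l : ℝ) / 2 ^ 96) - (Pc : ℝ) / 2 ^ 96 - 2 * ((Pb : ℝ) / 2 ^ 96) =
                  (-(l : ℝ) - Pc - 2 * Pb) * 2 ^ 96 / 2 ^ 192 := by ring
              rw [e1, e2]
              exact div_le_div_of_nonneg_right hq2' (by positivity)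
            nlinarith
          have h5 := abs_le_of_sq_le_sq' h3 h0 |>.2
          linarith
      · simp only [Bool.and_eq_true, decide_eq_true_eq, Bool.not_eq_true'] at hq
        obtain ⟨⟨hpt, hq0⟩, hq2⟩ := hq
        subst hpt
        have h0 : x (j + 1) < 0 := by simpa [Sg] using hp'
        have hq0' : 0 ≤ (q : ℝ) := by exact_mod_cast hq0
        have hq2' : ((l : ℝ) - Pc + 2 * Pb) * 2 ^ 96 ≤ (q : ℝ) * q := by
          rw [← hS]; exact_mod_cast hq2
        have h3 : (-x (j + 1)) ^ 2 ≤ ((q : ℝ) / 2 ^ 96) ^ 2 := by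
          have h4 : (l : ℝ) / 2 ^ 96 - P0.1 + 2 * P0.2 ≤ ((q : ℝ) / 2 ^ 96) ^ 2 := by
            rw [hbv, hcv]
            have e1 : ((q : ℝ) / 2 ^ 96) ^ 2 = (q : ℝ) * q / 2 ^ 192 := by
              rw [div_pow, pow_two]; norm_num
            have e2 : (l : ℝ) / 2 ^ 96 - (Pc : ℝ) / 2 ^ 96 + 2 * ((Pb : ℝ) / 2 ^ 96) =
                ((l : ℝ) - Pc + 2 * Pb) * 2 ^ 96 / 2 ^ 192 := by ring
            rw [e1, e2]
            exact div_le_div_of_nonneg_right hq2' (by positivity)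
          nlinarith
        have hq3 : (0 : ℝ) ≤ (q : ℝ) / 2 ^ 96 := by positivity
        exact abs_le_of_sq_le_sq' h3 hq3 |>.2
    -- the reference
    obtain ⟨u1, hu1⟩ : ∃ u1 : ℤ, u1 = -((-(l * l + PcS + Pb * q + t0 * Pb * l)) / SCI) := ⟨_, rfl⟩
    rw [← hu1] at hrun
    have hu : l * l + Pc * 2 ^ 96 + Pb * q + t0 * Pb * l ≤ u1 * 2 ^ 96 := by
      have h1 := Int.ediv_mul_le (-(l * l + PcS + Pb * q + t0 * Pb * l)) (b := SCI)
        (by norm_num [SCI])
      rw [hu1, ← PcS_eq, ← SCI_eq]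
      linarith
    have hu' : (l : ℝ) * l + (Pc : ℝ) * 2 ^ 96 + Pb * q + t0 * Pb * l ≤ (u1 : ℝ) * 2 ^ 96 := by
      exact_mod_cast hu
    have hu2 : ((l : ℝ) / 2 ^ 96) ^ 2 + P0.1 + P0.2 * ((q : ℝ) / 2 ^ 96) +
        (t0 : ℝ) * P0.2 * ((l : ℝ) / 2 ^ 96) ≤ (u1 : ℝ) / 2 ^ 96 := by
      rw [hbv, hcv]
      have e1 : ((l : ℝ) / 2 ^ 96) ^ 2 + (Pc : ℝ) / 2 ^ 96 + (Pb : ℝ) / 2 ^ 96 * ((q : ℝ) / 2 ^ 96) +
          (t0 : ℝ) * ((Pb : ℝ) / 2 ^ 96) * ((l : ℝ) / 2 ^ 96) =
          ((l : ℝ) * l + (Pc : ℝ) * 2 ^ 96 + Pb * q + t0 * Pb * l) / 2 ^ 192 := by ring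
      have e2 : (u1 : ℝ) / 2 ^ 96 = (u1 : ℝ) * 2 ^ 96 / 2 ^ 192 := by ring
      rw [e1, e2]
      exact div_le_div_of_nonneg_right hu' (by positivity)
    have hI : ((t0 : ℝ) * P0.2) * |x (j + 1 + 1) - ((0 : ℤ) : ℝ) / 2 ^ 96| ≤
        sid false (x (j + 1 + 1 + 1) - (u1 : ℝ) / 2 ^ 96) := by
      have e0 : x (j + 1 + 1) - ((0 : ℤ) : ℝ) / 2 ^ 96 = x (j + 1 + 1) := by simp
      rw [e0]
      simp only [sid, Bool.false_eq_true, if_false]
      have h1 : ((t0 : ℝ) * P0.2) * |x (j + 1 + 1)| ≤ ((t0 : ℝ) * P0.2) * ((l : ℝ) / 2 ^ 96) :=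
        mul_le_mul_of_nonneg_left hcon.le (by positivity)
      have h2 : x (j + 1 + 1) ^ 2 ≤ ((l : ℝ) / 2 ^ 96) ^ 2 := by
        rw [← sq_abs]
        exact pow_le_pow_left₀ (abs_nonneg _) hcon.le 2
      have h3 : P0.2 * (-x (j + 1)) ≤ P0.2 * ((q : ℝ) / 2 ^ 96) :=
        mul_le_mul_of_nonneg_left hqq hb.le
      have h4 : x (j + 1 + 1 + 1) = x (j + 1 + 1) ^ 2 - P0.2 * x (j + 1) + P0.1 := hrec1
      rw [h4]
      linarith
    exact run_false hx items false 0 u1 (mu1 t0) ((t0 : ℝ) * P0.2) (j + 1 + 1) (by positivity) hI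
      (mu1_ok ht0) (Occ.mat _ _ hO) hrun

end Pool.Agent.Work.MP_99322d_an.U
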