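import Pool.Agent.Work.MP_99322d_an.U.Data
import Pool.Agent.Work.MP_99322d_an.U.Facts

/-!
# MP_99322d, upper bound: kernel checks of the data (helper98)
-/

set_option autoImplicit false
set_option maxRecDepth 100000

namespace Pool.Agent.Work.MP_99322d_an.U

theorem G_n : G.n = 259 := by decide +kernel

theorem ckWord_all : ((List.range 259).all G.ckWord) = true := by decide +kernel

theorem ckNum_all : ((List.range 259).all G.ckNum) = true := by decide +kernel

theorem ckStart : cov forb G.words 0 24 [] = true := by decide +kernel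

def eT (i j : ℕ) : ℤ := (((G.succ i).zip (gTs.getD i [])).lookup j).getD 0
def eQ (i j : ℕ) : ℤ := (((G.succ i).zip (gQs.getD i [])).lookup j).getD 0

def ckEdge (i : ℕ) : Bool := (G.succ i).all fun j =>
  edgeB ((G.word i).getD 0 true) ((G.word i).getD 1 true) ((G.word j).drop 1) (G.lo i j) (eT i j)
    (eQ i j)

theorem ckEdge_all : ((List.range 259).all ckEdge) = true := by decide +kernel

theorem of_all {P : ℕ → Bool} {n : ℕ} (h : ((List.range n).all P) = true) (i : ℕ) (hi : i < n) :
    P i = true := List.all_eq_true.1 h i (List.mem_range.2 hi)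

/-- the lower bounds of the edges -/
theorem bound_fact {x : ℕ → ℝ} (hx : Orb x) (k : ℕ) (hk : 1 ≤ k) (i : ℕ) (hi : i < G.n) (j : ℕ)
    (hj : j ∈ G.succ i) (h1 : Occ x (G.word i) k) (h2 : Occ x (G.word j) (k + 1))
    (hW : ¬ Win x (k + 1)) : (G.lo i j : ℝ) / 2 ^ 96 ≤ |x (k + 1)| := by
  rw [G_n] at hi
  have hc := of_all ckEdge_all i hi
  have hc2 := List.all_eq_true.1 hc j hj
  have hw := of_all ckWord_all i hi
  simp only [UData.ckWord, Bool.and_eq_true, decide_eq_true_eq] at hw
  have hl : 2 ≤ (G.word i).length := hw.1.1.1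
  have hs : sg x k = (G.word i).getD 0 true ∧ sg x (k + 1) = (G.word i).getD 1 true := by
    rcases hW' : G.word i with _ | ⟨a, _ | ⟨a', l⟩⟩
    · rw [hW'] at hl; simp at hl
    · rw [hW'] at hl; simp at hl
    · rw [hW'] at h1
      exact ⟨by simpa using h1.1, by simpa using h1.2.1⟩
  have hO : Occ x ((G.word j).drop 1) (k + 2) := by
    rcases hj' : G.word j with _ | ⟨a, l⟩
    · simp only [List.drop_nil]; trivial
    · rw [hj'] at h2
      simpa using h2.2
  exact edgeB_sound hx k hk hs.1 hs.2 hO hW hc2

end Pool.Agent.Work.MP_99322d_an.U
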