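import Mathlib

/-!
# Upper bounds of `Dynamics.coverEntropy` by finite classifications (helper40)
-/

set_option autoImplicit false

open Set Filter Topology Dynamics Uniformity

namespace Pool.Agent.Work.MP_99322d_an.U

/-- A finite classification with close members in every class bounds the minimal cover. -/
theorem coverMincard_le {X Λ : Type} (T : X → X) (K : Set X) (U : SetRel X X) (n : ℕ)
    (S : Finset Λ) (P : X → Λ → Prop) (h1 : ∀ x ∈ K, ∃ a ∈ S, P x a)
    (h2 : ∀ x ∈ K, ∀ y ∈ K, ∀ a, P x a → P y a → (x, y) ∈ dynEntourage T U n) :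
    coverMincard T K U n ≤ (S.card : ℕ∞) := by
  classical
  rcases K.eq_empty_or_nonempty with rfl | ⟨x0, hx0⟩
  · simp
  · have hr : ∀ a : Λ, ∃ y : X, (∃ x ∈ K, P x a) → (y ∈ K ∧ P y a) := by
      intro a
      by_cases h : ∃ x ∈ K, P x a
      · obtain ⟨y, hy, hPy⟩ := h
        exact ⟨y, fun _ => ⟨hy, hPy⟩⟩
      · exact ⟨x0, fun h' => absurd h' h⟩
    choose r hr using hr
    have hcov : IsDynCoverOf T K U n ((S.image r : Finset X) : Set X) := by
      intro x hx
      obtain ⟨a, haS, hPa⟩ := h1 x hx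
      obtain ⟨hyK, hPy⟩ := hr a ⟨x, hx, hPa⟩
      exact ⟨r a, by simpa using ⟨a, haS, rfl⟩, h2 x hx (r a) hyK a hPa hPy⟩
    refine hcov.coverMincard_le_card.trans ?_
    exact_mod_cast Finset.card_image_le

theorem tendsto_growth (Cst L : ℝ) :
    Tendsto (fun n : ℕ => (Real.log Cst + (Real.log ((n : ℝ) + 1) + n * Real.log L)) / n) atTop
      (𝓝 (Real.log L)) := by
  have h1 : Tendsto (fun n : ℕ => Real.log Cst / (n : ℝ)) atTop (𝓝 0) :=
    tendsto_const_div_atTop_nhds_zero_nat _
  have h2 : Tendsto (fun n : ℕ => Real.log ((n : ℝ) + 1) / n) atTop (𝓝 0) := by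
    have h3 : Tendsto (fun x : ℝ => Real.log (x + 1) / x) atTop (𝓝 0) := by
      have h4 : Tendsto (fun x : ℝ => Real.log (x + 1) / (x + 1)) atTop (𝓝 0) := by
        have := (Real.isLittleO_log_id_atTop).tendsto_div_nhds_zero
        exact this.comp (tendsto_atTop_add_const_right atTop (1 : ℝ) tendsto_id)
      have h5 : Tendsto (fun x : ℝ => (x + 1) / x) atTop (𝓝 1) := by
        have h6 : Tendsto (fun x : ℝ => 1 + x⁻¹) atTop (𝓝 (1 + 0)) :=
          tendsto_const_nhds.add tendsto_inv_atTop_zero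
        rw [add_zero] at h6
        refine h6.congr' ?_
        filter_upwards [eventually_gt_atTop 0] with x hx
        field_simp
      have h7 := h4.mul h5
      rw [zero_mul] at h7
      refine h7.congr' ?_
      filter_upwards [eventually_gt_atTop 0] with x hx
      field_simp
    exact h3.comp tendsto_natCast_atTop_atTop
  have h8 : Tendsto (fun n : ℕ => Real.log Cst / (n : ℝ) + (Real.log ((n : ℝ) + 1) / n + Real.log L))
      atTop (𝓝 (0 + (0 + Real.log L))) := h1.add (h2.add tendsto_const_nhds)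
  rw [zero_add, zero_add] at h8
  refine h8.congr' ?_
  filter_upwards [eventually_gt_atTop 0] with n hn
  have : (n : ℝ) ≠ 0 := by positivity
  field_simp

theorem entropy_le_of_growth {X : Type} (T : X → X) (K : Set X) (U : SetRel X X) (Cst L : ℝ)
    (hC : 0 < Cst) (hL : 1 ≤ L)
    (h : ∀ n, ((coverMincard T K U n : ℕ∞) : ENNReal) ≤
      ENNReal.ofReal (Cst * (((n : ℝ) + 1) * L ^ n))) :
    coverEntropyEntourage T K U ≤ ((Real.log L : ℝ) : EReal) := by
  have h0 : 0 < L := by linarith
  have h1 := EReal.tendsto_coe.2 (tendsto_growth Cst L)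
  rw [← h1.limsup_eq]
  unfold coverEntropyEntourage ExpGrowth.expGrowthSup
  refine limsup_le_limsup ?_
  filter_upwards [eventually_gt_atTop 0] with n hn
  have h2 := ENNReal.log_monotone (h n)
  have h3 : 0 < Cst * (((n : ℝ) + 1) * L ^ n) := by positivity
  rw [ENNReal.log_ofReal_of_pos h3] at h2
  have h4 : Real.log (Cst * (((n : ℝ) + 1) * L ^ n)) =
      Real.log Cst + (Real.log ((n : ℝ) + 1) + n * Real.log L) := by
    rw [Real.log_mul hC.ne' (by positivity), Real.log_mul (by positivity) (by positivity),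
      Real.log_pow]
  rw [h4] at h2
  rw [EReal.coe_div]
  exact EReal.div_le_div_right_of_nonneg (by exact_mod_cast n.zero_le) h2

theorem coverEntropy_le_of_growth {X : Type} [UniformSpace X] (T : X → X) (K : Set X) (L : ℝ)
    (hL : 1 ≤ L)
    (h : ∀ U ∈ 𝓤 X, ∃ Cst : ℝ, 0 < Cst ∧ ∀ n, ((coverMincard T K U n : ℕ∞) : ENNReal) ≤
      ENNReal.ofReal (Cst * (((n : ℝ) + 1) * L ^ n))) :
    coverEntropy T K ≤ ((Real.log L : ℝ) : EReal) := by
  refine iSup₂_le fun U hU => ?_
  obtain ⟨Cst, hC, hn⟩ := h U hU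
  exact entropy_le_of_growth T K U Cst L hC hL hn

end Pool.Agent.Work.MP_99322d_an.U
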