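import Pool.Agent.Work.MP_99322d_an.U.TrapInst
import Pool.Agent.Work.MP_99322d_an.U.Facts

/-!
# Upper bound at `P0`: final form of the assembly (helper40, second copy as a safeguard)
-/

set_option autoImplicit false

namespace Pool.Agent.Work.MP_99322d_an.U

/-- entry of a table of integers parallel to the successor lists -/
def UData.tab (G : UData) (t : List (List ℤ)) (i j : ℕ) : ℤ :=
  (((G.succ i).zip (t.getD i [])).lookup j).getD 0

/-- check of the lower bounds of the edges from the vertex `i` -/
def UData.ckLow (G : UData) (t0s qs : List (List ℤ)) (i : ℕ) : Bool :=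
  (G.succ i).all fun j =>
    edgeB ((G.word i).getD 0 true) ((G.word i).getD 1 true) ((G.word j).drop 1) (G.lo i j)
      (G.tab t0s i j) (G.tab qs i j) && decide (1 ≤ (G.word j).length)

theorem upper_final (G : UData) (t0s qs : List (List ℤ))
    (hW : ∀ i, i < G.n → G.ckWord i = true) (hN : ∀ i, i < G.n → G.ckNum i = true)
    (hS : cov forb G.words 0 24 [] = true) (hB : ∀ i, i < G.n → G.ckLow t0s qs i = true) :
    h P0.1 P0.2 ≤ ((Real.log L0q : ℝ) : EReal) := by
  refine upper_of_data trapSys 24 G hW hN hS ?_ ?_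
  · intro x hx k hk
    by_cases hcase : ∃ j, k - 1 ≤ j ∧ j ≤ k + 24 ∧ Win x j
    · obtain ⟨j, h1, h2, h3⟩ := hcase
      exact Or.inl (trapped_of_win_le hx (by omega) h3 (by omega))
    · refine Or.inr (forb_fact hx k (by omega) fun j h1 h2 h3 => hcase ⟨j, h1, h2, h3⟩)
  · intro x hx k hk i hi j hj hOi hOj hT
    have h1 := hB i hi
    simp only [UData.ckLow, List.all_eq_true, Bool.and_eq_true, decide_eq_true_eq] at h1
    obtain ⟨h2, h3⟩ := h1 j hj
    have hlen : 2 ≤ (G.word i).length := by
      have := hW i hi
      simp only [UData.ckWord, Bool.and_eq_true, decide_eq_true_eq] at this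
      exact this.1.1.1
    have hWin : ¬ Win x (k + 1) := by
      intro hw
      exact hT (trapped_of_win (by omega) hw)
    have hs : sg x k = (G.word i).getD 0 true ∧ sg x (k + 1) = (G.word i).getD 1 true := by
      rcases hw : G.word i with _ | ⟨a, _ | ⟨a', l⟩⟩
      · rw [hw] at hlen; simp at hlen
      · rw [hw] at hlen; simp at hlen
      · rw [hw] at hOi
        exact ⟨hOi.1, hOi.2.1⟩
    have hO : Occ x ((G.word j).drop 1) (k + 2) := by
      have := Occ.drop (G.word j) (k + 1) 1 h3 hOj
      exact this
    exact edgeB_sound hx k (by omega) hs.1 hs.2 hO hWin h2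

end Pool.Agent.Work.MP_99322d_an.U
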