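import Pool.Agent.Work.MP_99322d_an.U.Core
import Pool.Agent.Work.MP_99322d_an.U.Ent

/-!
# Theory U: the theorem (helper40)
-/

set_option autoImplicit false

open Set Filter Topology Dynamics Uniformity

namespace Pool.Agent.Work.MP_99322d_an.U

/-- The sequence of an orbit: `x 0 = p.2`, `x (k+1) = (f^k p).1`. -/
noncomputable def sq (c b : ℝ) (p : ℝ × ℝ) : ℕ → ℝ
  | 0 => p.2
  | k + 1 => ((hen c b)^[k] p).1

theorem iterate_eq (c b : ℝ) (p : ℝ × ℝ) (k : ℕ) :
    (hen c b)^[k] p = (sq c b p (k + 1), sq c b p k) := by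
  cases k with
  | zero => rfl
  | succ k =>
    have h1 : ((hen c b)^[k + 1] p).2 = ((hen c b)^[k] p).1 := by
      rw [Function.iterate_succ_apply']
      rfl
    exact Prod.ext rfl h1

theorem sq_rec (c b : ℝ) (p : ℝ × ℝ) (k : ℕ) :
    sq c b p (k + 2) = sq c b p (k + 1) ^ 2 - b * sq c b p k + c := by
  have h1 : sq c b p (k + 2) = ((hen c b)^[k + 1] p).1 := rfl
  rw [h1, Function.iterate_succ_apply', iterate_eq]
  rfl

/-- Uniform entry into the box. -/
theorem entry {c b R : ℝ} (hb : 0 ≤ b) (hR0 : 0 < R) (hR : |c| + (1 + b) * R < R ^ 2)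
    (A : ℝ) (S : Set (ℕ → ℝ)) (hS : ∀ x ∈ S, (∀ k, x (k + 2) = x (k + 1) ^ 2 - b * x k + c) ∧
      ∀ k, |x k| ≤ A) : ∃ N, ∀ x ∈ S, ∀ k, |x (N + k)| ≤ R := by
  set κ := R ^ 2 - (|c| + (1 + b) * R) with hκ
  have hκ0 : 0 < κ := by linarith
  have key : ∀ n : ℕ, ∀ x ∈ S, ∀ k, n ≤ k → x k ^ 2 ≤ max (R ^ 2) (A ^ 2 - n * κ) := by
    intro n
    induction n with
    | zero =>
      intro x hx k _
      have := (hS x hx).2 k
      have h2 : x k ^ 2 ≤ A ^ 2 := by
        rw [← sq_abs (x k)]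
        exact pow_le_pow_left₀ (abs_nonneg _) this 2
      refine le_max_of_le_right ?_
      simpa using h2
    | succ n ih =>
      intro x hx k hk
      obtain ⟨j, rfl⟩ : ∃ j, k = j + 1 := ⟨k - 1, by omega⟩
      set B := Real.sqrt (max (R ^ 2) (A ^ 2 - n * κ)) with hB
      have hmax : 0 ≤ max (R ^ 2) (A ^ 2 - n * κ) := le_max_of_le_left (by positivity)
      have hB2 : B ^ 2 = max (R ^ 2) (A ^ 2 - n * κ) := Real.sq_sqrt hmax
      have hB0 : 0 ≤ B := Real.sqrt_nonneg _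
      have hBR : R ≤ B := by
        refine Real.le_sqrt_of_sq_le ?_
        exact le_max_left _ _
      have hj : |x j| ≤ B := Real.abs_le_sqrt (ih x hx j (by omega))
      have hj2 : |x (j + 2)| ≤ B := Real.abs_le_sqrt (ih x hx (j + 2) (by omega))
      have hrec := (hS x hx).1 j
      have h1 : x (j + 1) ^ 2 ≤ |c| + (1 + b) * B := by
        have h2 : x (j + 1) ^ 2 = x (j + 2) + b * x j - c := by rw [hrec]; ring
        have h3 := (abs_le.1 hj2).2
        have h4 := mul_le_mul_of_nonneg_left (abs_le.1 hj).2 hb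
        have h5 := neg_abs_le c
        linarith
      -- `B ^ 2 - (|c| + (1 + b) B) ≥ κ`
      have hRb : 1 + b ≤ R := by
        by_contra hcon
        push Not at hcon
        have : R * R < (1 + b) * R := mul_lt_mul_of_pos_right hcon hR0
        nlinarith [abs_nonneg c]
      have h6 : κ ≤ B ^ 2 - (|c| + (1 + b) * B) := by
        rw [hκ]
        nlinarith
      have h7 : B ^ 2 - κ ≤ max (R ^ 2) (A ^ 2 - ((n + 1 : ℕ) : ℝ) * κ) := by
        rw [hB2]
        push_cast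
        rcases le_total (R ^ 2) (A ^ 2 - n * κ) with h | h
        · rw [max_eq_right h]
          refine le_max_of_le_right ?_
          linarith
        · rw [max_eq_left h]
          refine le_max_of_le_left ?_
          linarith
      linarith
  obtain ⟨N, hN⟩ := exists_nat_gt ((A ^ 2) / κ)
  refine ⟨N, fun x hx k => ?_⟩
  have h1 := key N x hx (N + k) (by omega)
  have h2 : A ^ 2 - N * κ ≤ R ^ 2 := by
    have : A ^ 2 < N * κ := by rwa [div_lt_iff₀ hκ0] at hN
    nlinarith [sq_nonneg R]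
  rw [max_eq_left h2] at h1
  have := Real.abs_le_sqrt h1
  rwa [Real.sqrt_sq hR0.le] at this

variable {c b R : ℝ} {V I : Type}

/-- THE TRAP LEMMA. -/
theorem Cert.trapped (C : Cert c b R V I) {x y : ℕ → ℝ} (hx : Adm c b R x) (hy : Adm c b R y)
    (ω : ℝ) (k : ℕ) (hk : C.k0 ≤ k) (i : I) (hxi : C.Trap i x k)
    (hyi : C.Trap i y k) (h1 : C.N i (x (k + 1) - y (k + 1)) (x k - y k) ≤ ω) (j : ℕ) :
    ∃ i', C.Trap i' x (k + j) ∧ C.Trap i' y (k + j) ∧
      C.N i' (x (k + j + 1) - y (k + j + 1)) (x (k + j) - y (k + j)) ≤ ω := by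
  induction j with
  | zero => exact ⟨i, hxi, hyi, h1⟩
  | succ j ih =>
    obtain ⟨i', hx', hy', hd⟩ := ih
    have hc := C.contr x y hx hy (k + j) (by omega) i' hx' hy'
    exact ⟨C.nx i', C.trap x hx (k + j) (by omega) i' hx', C.trap y hy (k + j) (by omega) i' hy',
      hc.trans hd⟩

/-! ### Finite families -/

theorem exists_pos_le {ι : Type} [Finite ι] (f : ι → ℝ) (hf : ∀ v, 0 < f v) :
    ∃ m0, 0 < m0 ∧ ∀ v, m0 ≤ f v := by
  have := Fintype.ofFinite ι
  have h0 : 0 < 1 + ∑ v, (f v)⁻¹ := by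
    have : 0 ≤ ∑ v, (f v)⁻¹ := Finset.sum_nonneg fun v _ => (inv_pos.2 (hf v)).le
    linarith
  refine ⟨(1 + ∑ v, (f v)⁻¹)⁻¹, inv_pos.2 h0, fun v => ?_⟩
  have h1 : (f v)⁻¹ ≤ ∑ w, (f w)⁻¹ :=
    Finset.single_le_sum (f := fun w => (f w)⁻¹) (fun w _ => (inv_pos.2 (hf w)).le)
      (Finset.mem_univ v)
  have h2 : (f v)⁻¹ ≤ 1 + ∑ w, (f w)⁻¹ := by linarith
  exact inv_le_of_inv_le₀ (hf v) h2

theorem exists_abs_le {ι : Type} [Finite ι] (f : ι → ℝ) : ∃ M, 0 < M ∧ ∀ v, |f v| ≤ M := by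
  have := Fintype.ofFinite ι
  have h0 : 0 ≤ ∑ v, |f v| := Finset.sum_nonneg fun v _ => abs_nonneg _
  refine ⟨1 + ∑ v, |f v|, by linarith, fun v => ?_⟩
  have := Finset.single_le_sum (f := fun w => |f w|) (fun w _ => abs_nonneg _) (Finset.mem_univ v)
  linarith

theorem close_of_floor {δ : ℝ} (hδ : 0 < δ) {x y : ℝ} (h : ⌊x / δ⌋ = ⌊y / δ⌋) : |x - y| ≤ δ := by
  have h1 := Int.abs_sub_lt_one_of_floor_eq_floor h
  rw [← sub_div, abs_div, abs_of_pos hδ, div_lt_one hδ] at h1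
  exact h1.le

theorem floor_mem {δ A : ℝ} (hδ : 0 < δ) {x : ℝ} (h : |x| ≤ A) :
    ⌊x / δ⌋ ∈ Finset.Icc (-(⌈A / δ⌉ + 1)) (⌈A / δ⌉ + 1) := by
  have h1 := (abs_le.1 h).1
  have h2 := (abs_le.1 h).2
  have h3 : x / δ ≤ A / δ := div_le_div_of_nonneg_right h2 hδ.le
  have h4 : -(A / δ) ≤ x / δ := by
    rw [← neg_div]
    exact div_le_div_of_nonneg_right h1 hδ.le
  have h5 := Int.le_ceil (A / δ)
  have h6 := Int.floor_le (x / δ)
  have h7 := Int.lt_floor_add_one (x / δ)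
  rw [Finset.mem_Icc]
  constructor
  · have : (-(⌈A / δ⌉ + 1) : ℝ) < (⌊x / δ⌋ : ℝ) + 1 := by linarith
    have h8 : (-(⌈A / δ⌉ + 1) : ℤ) < ⌊x / δ⌋ + 1 := by exact_mod_cast this
    omega
  · have : (⌊x / δ⌋ : ℝ) ≤ (⌈A / δ⌉ : ℝ) + 1 := by linarith
    exact_mod_cast this

/-! ### Labels -/

/-- Labels: initial vertex and path (or none), trap (or none), final positions on a grid. -/
abbrev Lab (V I : Type) (J : ℕ) := Option (V × List V) × Option I × (Fin (J + 2) → ℤ)

/-- `x` has the given label. -/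
def Cert.Has (C : Cert c b R V I) (δ : ℝ) (n : ℕ) (x : ℕ → ℝ) : Lab V I C.J → Prop
  | (none, some i, _) => C.Trap i x (C.k0 + C.J)
  | (none, none, _) => False
  | (some (v, l), none, g) => l.length = n ∧ C.Fol x C.k0 v l ∧
      ∀ i : Fin (C.J + 2), g i = ⌊x (C.k0 + l.length + 1 + i) / δ⌋
  | (some (v, l), some i, g) => C.Fol x C.k0 v l ∧ C.Trap i x (C.k0 + l.length + 1 + C.J) ∧
      ∀ i : Fin (C.J + 2), g i = ⌊x (C.k0 + l.length + 1 + i) / δ⌋

/-- Two sequences with the same label are close. -/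
theorem Cert.close (C : Cert c b R V I) [Finite V] (hb : 0 ≤ b) (hb' : b ≤ 1 / 2) :
    ∃ Q : ℝ, 1 ≤ Q ∧ ∀ δ, 0 < δ → ∀ n x y, Adm c b R x → Adm c b R y → ∀ a : Lab V I C.J,
      C.Has δ n x a → C.Has δ n y a →
      (∀ j, j ≤ C.J + 1 → |x (C.k0 + j) - y (C.k0 + j)| ≤ δ) →
      ∀ j, j ≤ n + 1 → |x (C.k0 + j) - y (C.k0 + j)| ≤ Q * δ := by
  obtain ⟨M, hM0, hM⟩ := exists_abs_le C.m
  obtain ⟨m0, hm00, hm0⟩ := exists_pos_le C.m C.m_pos
  have hMn := C.Mn_pos
  obtain ⟨τ, hτ0, hτ⟩ := exists_abs_le C.al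
  have hMm : ∀ v, C.m v ≤ M := fun v => (le_abs_self _).trans (hM v)
  set Q1 := (M + M ^ 2 * ((1 + τ) / m0)) / m0 with hQ1
  have hQ10 : 0 < Q1 := by positivity
  set Q2 := 2 * C.Mn ^ 2 with hQ2
  have hQ20 : 0 < Q2 := by positivity
  refine ⟨1 + Q1 + Q2, by linarith, ?_⟩
  intro δ hδ n x y hx hy a hax hay hd j hj
  have hd0 : |x C.k0 - y C.k0| ≤ δ := hd 0 (by omega)
  have hd1 : |x (C.k0 + 1) - y (C.k0 + 1)| ≤ δ := hd 1 (by omega)
  have hQQ1 : δ ≤ (1 + Q1 + Q2) * δ := by nlinarith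
  -- the two basic estimates
  have trapcase : ∀ k, C.k0 ≤ k → ∀ i, C.Trap i x k → C.Trap i y k →
      |x (k + 1) - y (k + 1)| ≤ δ → |x k - y k| ≤ δ → ∀ j, |x (k + j) - y (k + j)| ≤ Q2 * δ := by
    intro k hk i hxi hyi h1 h2 j
    have e1 : C.N i (x (k + 1) - y (k + 1)) (x k - y k) ≤ C.Mn * (δ + δ) :=
      (C.N_up i _ _).trans (mul_le_mul_of_nonneg_left (add_le_add h1 h2) hMn.le)
    obtain ⟨i', _, _, h3⟩ := C.trapped hx hy (C.Mn * (δ + δ)) k hk i hxi hyi e1 j
    have h4 := C.N_lo0 i' (x (k + j + 1) - y (k + j + 1)) (x (k + j) - y (k + j))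
    have h5 := mul_le_mul_of_nonneg_left h3 hMn.le
    have h6 : C.Mn * (C.Mn * (δ + δ)) = Q2 * δ := by rw [hQ2]; ring
    linarith
  have pathcase : ∀ v l, C.Fol x C.k0 v l → C.Fol y C.k0 v l →
      |x (C.k0 + l.length + 1) - y (C.k0 + l.length + 1)| ≤ δ →
      ∀ j, j ≤ l.length + 1 → |x (C.k0 + j) - y (C.k0 + j)| ≤ (1 + Q1) * δ := by
    intro v l hxl hyl hend j hj
    cases j with
    | zero =>
      refine hd0.trans ?_
      nlinarith
    | succ j =>
      have h1 := (C.expansion hx hy hb hb' M m0 hMm hm0 l C.k0 le_rfl v hxl hyl (C.al v) le_rfl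
        (C.al_be v)).2 j (by omega)
      have h2 : |(x C.k0 - y C.k0) - C.al v * (x (C.k0 + 1) - y (C.k0 + 1))| ≤ (1 + τ) * δ := by
        refine (abs_sub _ _).trans ?_
        rw [abs_mul]
        have := mul_le_mul (hτ v) hd1 (abs_nonneg _) hτ0.le
        linarith
      have h3 : |(x C.k0 - y C.k0) - C.al v * (x (C.k0 + 1) - y (C.k0 + 1))| / C.m v ≤
          (1 + τ) * δ / m0 :=
        div_le_div₀ (by positivity) h2 hm00 (hm0 v)
      have h4 : C.m (last v l) * |x (C.k0 + l.length + 1) - y (C.k0 + l.length + 1)| ≤ M * δ :=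
        mul_le_mul (hMm _) hend (abs_nonneg _) hM0.le
      have h5 := mul_le_mul_of_nonneg_left h3 (show 0 ≤ M ^ 2 by positivity)
      have h6 : m0 * |x (C.k0 + j + 1) - y (C.k0 + j + 1)| ≤ (M + M ^ 2 * ((1 + τ) / m0)) * δ := by
        refine h1.trans ?_
        have : M ^ 2 * ((1 + τ) * δ / m0) = M ^ 2 * ((1 + τ) / m0) * δ := by ring
        linarith
      have h7 : |x (C.k0 + j + 1) - y (C.k0 + j + 1)| ≤ Q1 * δ := by
        rw [hQ1, div_mul_eq_mul_div, le_div_iff₀ hm00]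
        linarith
      have h8 : C.k0 + (j + 1) = C.k0 + j + 1 := by omega
      rw [h8]
      linarith
  have hQQ : (1 + Q1) * δ ≤ (1 + Q1 + Q2) * δ := by nlinarith
  have hQQ2 : Q2 * δ ≤ (1 + Q1 + Q2) * δ := by nlinarith
  obtain ⟨p, oi, g⟩ := a
  rcases p with _ | ⟨v, l⟩
  · rcases oi with _ | i
    · exact absurd hax id
    · by_cases hjJ : j ≤ C.J
      · exact (hd j (by omega)).trans hQQ1
      · obtain ⟨j', rfl⟩ : ∃ j', j = C.J + j' := ⟨j - C.J, by omega⟩
        have := trapcase (C.k0 + C.J) (by omega) i hax hay (hd (C.J + 1) le_rfl)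
          (hd C.J (by omega)) j'
        have e : C.k0 + (C.J + j') = C.k0 + C.J + j' := by omega
        rw [e]
        exact this.trans hQQ2
  · rcases oi with _ | i
    · obtain ⟨hl, hfx, hgx⟩ := hax
      obtain ⟨_, hfy, hgy⟩ := hay
      have hend := close_of_floor hδ ((hgx 0).symm.trans (hgy 0))
      exact (pathcase v l hfx hfy hend j (by omega)).trans hQQ
    · obtain ⟨hfx, htx, hgx⟩ := hax
      obtain ⟨hfy, hty, hgy⟩ := hay
      have hg : ∀ i, i < C.J + 2 → |x (C.k0 + l.length + 1 + i) - y (C.k0 + l.length + 1 + i)| ≤ δ :=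
        fun i hi => close_of_floor hδ ((hgx ⟨i, hi⟩).symm.trans (hgy ⟨i, hi⟩))
      by_cases hjl : j ≤ l.length + 1
      · exact (pathcase v l hfx hfy (hg 0 (by omega)) j hjl).trans hQQ
      · obtain ⟨j', rfl⟩ : ∃ j', j = l.length + 1 + j' := ⟨j - (l.length + 1), by omega⟩
        have e : C.k0 + (l.length + 1 + j') = C.k0 + l.length + 1 + j' := by omega
        rw [e]
        by_cases hjJ : j' ≤ C.J
        · exact (hg j' (by omega)).trans hQQ1
        · obtain ⟨j'', rfl⟩ : ∃ j'', j' = C.J + j'' := ⟨j' - C.J, by omega⟩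
          have e' : C.k0 + l.length + 1 + (C.J + j'') = C.k0 + l.length + 1 + C.J + j'' := by omega
          rw [e']
          exact (trapcase (C.k0 + l.length + 1 + C.J) (by omega) i htx hty
            (hg (C.J + 1) (by omega)) (hg C.J (by omega)) j'').trans hQQ2

open Classical in
/-- The paths of length at most `n`. -/
noncomputable def Cert.lst (C : Cert c b R V I) [Fintype V] (n : ℕ) : Finset (Option (V × List V)) :=
  insert none ((Finset.univ.biUnion fun v => (Finset.range (n + 1)).biUnion fun T =>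
    (C.paths T v).toFinset.image fun l => (v, l)).image some)

theorem Cert.mem_lst (C : Cert c b R V I) [Fintype V] (n : ℕ) (v : V) (l : List V)
    (h : l ∈ C.paths l.length v) (hl : l.length ≤ n) : some (v, l) ∈ C.lst n := by
  classical
  unfold Cert.lst
  refine Finset.mem_insert_of_mem (Finset.mem_image_of_mem _ ?_)
  simp only [Finset.mem_biUnion, Finset.mem_univ, true_and, Finset.mem_range, Finset.mem_image,
    List.mem_toFinset]
  exact ⟨v, l.length, by omega, l, h, rfl⟩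

theorem Cert.card_lst (C : Cert c b R V I) [Fintype V] :
    ∃ Q : ℝ, 0 < Q ∧ ∀ n, ((C.lst n).card : ℝ) ≤ Q * (((n : ℝ) + 1) * C.L ^ n) := by
  classical
  obtain ⟨aM, haM0, haM⟩ := exists_abs_le C.a
  obtain ⟨am, ham0, ham⟩ := exists_pos_le C.a C.a_pos
  refine ⟨1 + Fintype.card V * (aM / am), by positivity, fun n => ?_⟩
  have hL := C.hL
  have h1 : ∀ v T, T ≤ n → ((C.paths T v).length : ℝ) ≤ aM / am * C.L ^ n := by
    intro v T hT
    have h2 := C.length_paths am ham T v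
    have h3 : C.L ^ T ≤ C.L ^ n := pow_le_pow_right₀ hL hT
    have h4 : C.a v ≤ aM := (le_abs_self _).trans (haM v)
    have h5 : C.L ^ T * C.a v ≤ C.L ^ n * aM :=
      mul_le_mul h3 h4 (C.a_pos v).le (by positivity)
    rw [div_mul_eq_mul_div, le_div_iff₀ ham0]
    linarith
  have h6 : ((C.lst n).card : ℝ) ≤ 1 + ∑ v : V, ∑ T ∈ Finset.range (n + 1),
      ((C.paths T v).length : ℝ) := by
    have e1 : (C.lst n).card ≤ (∑ v : V, ∑ T ∈ Finset.range (n + 1), (C.paths T v).length) + 1 := by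
      refine (Finset.card_insert_le _ _).trans ?_
      refine Nat.add_le_add_right ?_ 1
      refine Finset.card_image_le.trans ?_
      refine Finset.card_biUnion_le.trans ?_
      refine Finset.sum_le_sum fun v _ => ?_
      refine Finset.card_biUnion_le.trans ?_
      refine Finset.sum_le_sum fun T _ => ?_
      exact Finset.card_image_le.trans (List.toFinset_card_le _)
    have e2 : ((C.lst n).card : ℝ) ≤
        (((∑ v : V, ∑ T ∈ Finset.range (n + 1), (C.paths T v).length) + 1 : ℕ) : ℝ) := by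
      exact_mod_cast e1
    refine e2.trans (le_of_eq ?_)
    push_cast
    ring
  have h7 : ∑ v : V, ∑ T ∈ Finset.range (n + 1), ((C.paths T v).length : ℝ) ≤
      ∑ v : V, ∑ T ∈ Finset.range (n + 1), (aM / am * C.L ^ n) := by
    refine Finset.sum_le_sum fun v _ => Finset.sum_le_sum fun T hT => h1 v T ?_
    have := Finset.mem_range.1 hT
    omega
  have h8 : ∑ v : V, ∑ T ∈ Finset.range (n + 1), (aM / am * C.L ^ n) =
      Fintype.card V * (aM / am) * (((n : ℝ) + 1) * C.L ^ n) := by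
    rw [Finset.sum_const, Finset.sum_const, Finset.card_univ, Finset.card_range, nsmul_eq_mul,
      nsmul_eq_mul]
    push_cast
    ring
  have h9 : 1 ≤ ((n : ℝ) + 1) * C.L ^ n := by
    have := one_le_pow₀ hL (n := n)
    nlinarith [(Nat.cast_nonneg n : (0 : ℝ) ≤ n)]
  linarith

/-- Every sequence has a label. -/
theorem Cert.exists_label (C : Cert c b R V I) [Fintype V] [Fintype I] {δ : ℝ} (hδ : 0 < δ) (n : ℕ)
    {x : ℕ → ℝ} (hx : Adm c b R x) :
    ∃ a ∈ C.lst n ×ˢ (Finset.univ : Finset (Option I)) ×ˢ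
      (Fintype.piFinset fun _ : Fin (C.J + 2) => Finset.Icc (-(⌈R / δ⌉ + 1)) (⌈R / δ⌉ + 1)),
      C.Has δ n x a := by
  have hg := fun k => floor_mem hδ (hx.2 k)
  have hnone : none ∈ C.lst n := by
    classical
    exact Finset.mem_insert_self _ _
  rcases C.start x hx with ⟨i, hi⟩ | ⟨v, hv⟩
  · refine ⟨(none, some i, fun _ => ⌊x 0 / δ⌋), ?_, hi⟩
    simp only [Finset.mem_product, Finset.mem_univ, true_and, Fintype.mem_piFinset]
    exact ⟨hnone, fun _ => hg 0⟩
  · rcases C.exists_fol hx n C.k0 le_rfl v hv with ⟨l, hl, hf⟩ | ⟨l, hl, hf, i, hi⟩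
    · refine ⟨(some (v, l), none, fun i => ⌊x (C.k0 + l.length + 1 + i) / δ⌋), ?_, hl, hf,
        fun _ => rfl⟩
      simp only [Finset.mem_product, Finset.mem_univ, true_and, Fintype.mem_piFinset]
      exact ⟨C.mem_lst n v l (Cert.Fol.mem_paths C hf) hl.le, fun _ => hg _⟩
    · refine ⟨(some (v, l), some i, fun i => ⌊x (C.k0 + l.length + 1 + i) / δ⌋), ?_, hf, hi,
        fun _ => rfl⟩
      simp only [Finset.mem_product, Finset.mem_univ, true_and, Fintype.mem_piFinset]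
      exact ⟨C.mem_lst n v l (Cert.Fol.mem_paths C hf) hl.le, fun _ => hg _⟩

/-! ### The theorem -/

theorem Cert.entropy_le (C : Cert c b R V I) [Finite V] [Finite I] (hb : 0 ≤ b) (hb' : b ≤ 1 / 2)
    (hR0 : 0 < R) (hR : |c| + (1 + b) * R < R ^ 2) (K : Set (ℝ × ℝ)) (hK : IsCompact K)
    (hfK : MapsTo (hen c b) K K) :
    coverEntropy (hen c b) K ≤ ((Real.log C.L : ℝ) : EReal) := by
  classical
  have := Fintype.ofFinite V
  have := Fintype.ofFinite I
  -- bound of the orbits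
  obtain ⟨A, hA⟩ := hK.isBounded.subset_closedBall (0 : ℝ × ℝ)
  have horb : ∀ p ∈ K, ∀ k, (hen c b)^[k] p ∈ K := fun p hp k => (hfK.iterate k) hp
  have hbd : ∀ p ∈ K, ∀ k, |sq c b p k| ≤ A := by
    intro p hp k
    have h1 := hA (horb p hp k)
    rw [iterate_eq, Metric.mem_closedBall, Prod.dist_eq] at h1
    have h2 := (le_max_right _ _).trans h1
    simpa [Real.dist_eq] using h2
  obtain ⟨N, hN⟩ := entry hb hR0 hR A (sq c b '' K) (by
    rintro _ ⟨p, hp, rfl⟩
    exact ⟨sq_rec c b p, hbd p hp⟩)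
  have hadm : ∀ p ∈ K, Adm c b R (fun k => sq c b p (N + k)) := by
    intro p hp
    exact ⟨fun k => sq_rec c b p (N + k), fun k => hN _ ⟨p, hp, rfl⟩ k⟩
  obtain ⟨Q, hQ1, hQ⟩ := C.close hb hb'
  obtain ⟨Q', hQ'0, hQ'⟩ := C.card_lst
  refine coverEntropy_le_of_growth (hen c b) K C.L C.hL fun U hU => ?_
  obtain ⟨ε, hε, hεU⟩ := Metric.mem_uniformity_dist.1 hU
  set δ := ε / (2 * Q) with hδ
  have hδ0 : 0 < δ := by positivity
  -- the labels
  set S0 : Finset (Fin (N + C.k0 + C.J + 2) → ℤ) :=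
    Fintype.piFinset fun _ => Finset.Icc (-(⌈A / δ⌉ + 1)) (⌈A / δ⌉ + 1) with hS0
  set G : Finset (Fin (C.J + 2) → ℤ) :=
    Fintype.piFinset fun _ => Finset.Icc (-(⌈R / δ⌉ + 1)) (⌈R / δ⌉ + 1) with hG
  have hcount : ∀ n, coverMincard (hen c b) K U n ≤
      ((S0 ×ˢ (C.lst n ×ˢ (Finset.univ : Finset (Option I)) ×ˢ G)).card : ℕ∞) := by
    intro n
    refine coverMincard_le (hen c b) K U n _
      (fun p a => (∀ i : Fin (N + C.k0 + C.J + 2), a.1 i = ⌊sq c b p i / δ⌋) ∧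
        C.Has δ n (fun k => sq c b p (N + k)) a.2) ?_ ?_
    · intro p hp
      obtain ⟨a, ha, hh⟩ := C.exists_label hδ0 n (hadm p hp)
      refine ⟨(fun i => ⌊sq c b p i / δ⌋, a), ?_, fun i => rfl, hh⟩
      rw [Finset.mem_product]
      exact ⟨Fintype.mem_piFinset.2 fun i => floor_mem hδ0 (hbd p hp i), ha⟩
    · rintro p hp q hq ⟨g, a⟩ ⟨hp1, hp2⟩ ⟨hq1, hq2⟩
      have hinit : ∀ j, j < N + C.k0 + C.J + 2 → |sq c b p j - sq c b q j| ≤ δ := by
        intro j hj
        exact close_of_floor hδ0 ((hp1 ⟨j, hj⟩).symm.trans (hq1 ⟨j, hj⟩))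
      have hQδ : δ ≤ Q * δ := by nlinarith
      have hall : ∀ j, j ≤ N + C.k0 + n + 1 → |sq c b p j - sq c b q j| ≤ Q * δ := by
        intro j hj
        by_cases h : j < N + C.k0 + C.J + 2
        · exact (hinit j h).trans hQδ
        · obtain ⟨j', rfl⟩ : ∃ j', j = N + (C.k0 + j') := ⟨j - (N + C.k0), by omega⟩
          exact hQ δ hδ0 n _ _ (hadm p hp) (hadm q hq) a hp2 hq2
            (fun i hi => hinit _ (by omega)) j' (by omega)
      rw [mem_dynEntourage]
      intro k hk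
      refine hεU ?_
      rw [iterate_eq, iterate_eq, Prod.dist_eq, Real.dist_eq, Real.dist_eq]
      have h1 := hall (k + 1) (by omega)
      have h2 := hall k (by omega)
      have h3 : Q * δ = ε / 2 := by rw [hδ]; field_simp
      rw [h3] at h1 h2
      exact (max_le h1 h2).trans_lt (by linarith)
  set c0 : ℝ := (S0.card : ℝ) * ((Fintype.card (Option I) : ℝ) * (G.card : ℝ)) with hc0
  have hc00 : 0 ≤ c0 := by positivity
  refine ⟨c0 * Q' + 1, by positivity, fun n => ?_⟩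
  have hL := C.hL
  have hX : 0 ≤ ((n : ℝ) + 1) * C.L ^ n := by positivity
  have h1 : (((S0 ×ˢ (C.lst n ×ˢ (Finset.univ : Finset (Option I)) ×ˢ G)).card : ℕ) : ℝ) ≤
      (c0 * Q' + 1) * (((n : ℝ) + 1) * C.L ^ n) := by
    rw [Finset.card_product, Finset.card_product, Finset.card_product, Finset.card_univ]
    push_cast
    have h2 := mul_le_mul_of_nonneg_left (hQ' n) hc00
    have h3 : (S0.card : ℝ) * ((C.lst n).card * ((Fintype.card (Option I) : ℝ) *
        (G.card : ℝ))) = c0 * (C.lst n).card := by rw [hc0]; ring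
    rw [h3]
    linarith
  have h4 : ((coverMincard (hen c b) K U n : ℕ∞) : ENNReal) ≤
      (((S0 ×ˢ (C.lst n ×ˢ (Finset.univ : Finset (Option I)) ×ˢ G)).card : ℕ) : ENNReal) := by
    have := ENat.toENNReal_mono (hcount n)
    simpa using this
  refine h4.trans ?_
  rw [← ENNReal.ofReal_natCast]
  exact ENNReal.ofReal_le_ofReal h1

/-- THEOREM U: a certificate bounds the entropy of the Henon map. -/
theorem Cert.h_le_log (C : Cert c b R V I) [Finite V] [Finite I] (hb : 0 ≤ b) (hb' : b ≤ 1 / 2)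
    (hR0 : 0 < R) (hR : |c| + (1 + b) * R < R ^ 2) : h c b ≤ ((Real.log C.L : ℝ) : EReal) :=
  h_le c b _ fun K hK hfK => C.entropy_le hb hb' hR0 hR K hK hfK

end Pool.Agent.Work.MP_99322d_an.U
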