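import Pool.Agent.Work.MP_99322d_an.U.Sig

/-!
# MP_99322d, upper bound: monotone comparison with rational reference orbits (helper98)

`u` is a sequence of integers (scale `2^96`) computed by the recursion with directed rounding; if the
orbit `x` starts on one side of it (with a small cone condition) and has the signs of the word, then it
stays on the known side.
-/

set_option autoImplicit false

namespace Pool.Agent.Work.MP_99322d_an.U

/-- `z` with the sign: `z` for `true`, `-z` for `false` -/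
def sid (t : Bool) (z : ℝ) : ℝ := if t = true then z else -z

/-- `2^96` as a literal -/
def SCI : ℤ := 79228162514264337593543950336

/-- `Pc 2^96` as a literal -/
def PcS : ℤ := -12440424379542519650939082980145207788339328720727133126656

theorem SCI_eq : SCI = 2 ^ 96 := by norm_num [SCI]

theorem PcS_eq : PcS = Pc * 2 ^ 96 := by norm_num [PcS, Pc]

/-- next point of the reference orbit, rounded down (`t = true`) or up -/
def nxt (t : Bool) (u0 u1 : ℤ) : ℤ :=
  if t = true then (u1 * u1 + PcS - Pb * u0) / SCI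
  else -((-(u1 * u1 + PcS - Pb * u0)) / SCI)

/-- the margin `2^96 / 256` -/
def MU0 : ℤ := 309485009821345068724781056

/-- the comparison along a word -/
def run (fin : Bool → ℤ → Bool) : Bool → ℤ → ℤ → ℤ → List Bool → Bool
  | t, _, u1, _, [] => fin t u1
  | t, u0, u1, mu, s :: w =>
    (if s = true then (!t && decide (u1 < 0)) else (t && decide (0 ≤ u1))) ||
    ((if s = true then decide (mu ≤ u1) else decide (mu ≤ -u1)) &&
      run fin (t == s) u1 (nxt (t == s) u0 u1) MU0 w)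

theorem P0_fst : P0.1 = (Pc : ℝ) / 2 ^ 96 := rfl
theorem P0_snd : P0.2 = (Pb : ℝ) / 2 ^ 96 := rfl

theorem Orb.rec {x : ℕ → ℝ} (hx : Orb x) (k : ℕ) :
    x (k + 2) = x (k + 1) ^ 2 - P0.2 * x k + P0.1 := hx.1 k

theorem Orb.bd {x : ℕ → ℝ} (hx : Orb x) (k : ℕ) : |x k| ≤ 2 := hx.2 k

theorem nxt_true (u0 u1 : ℤ) : ((nxt true u0 u1 : ℤ) : ℝ) / 2 ^ 96 ≤
    ((u1 : ℝ) / 2 ^ 96) ^ 2 - P0.2 * ((u0 : ℝ) / 2 ^ 96) + P0.1 := by
  have h : nxt true u0 u1 * 2 ^ 96 ≤ u1 * u1 + Pc * 2 ^ 96 - Pb * u0 := by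
    simp only [nxt, if_true]
    rw [PcS_eq, SCI_eq]
    exact Int.ediv_mul_le _ (by norm_num)
  have h' : ((nxt true u0 u1 : ℤ) : ℝ) * 2 ^ 96 ≤
      (u1 : ℝ) * u1 + (Pc : ℝ) * 2 ^ 96 - (Pb : ℝ) * u0 := by exact_mod_cast h
  rw [P0_fst, P0_snd, div_le_iff₀ (by positivity)]
  have e : (((u1 : ℝ) / 2 ^ 96) ^ 2 - (Pb : ℝ) / 2 ^ 96 * ((u0 : ℝ) / 2 ^ 96) + (Pc : ℝ) / 2 ^ 96) *
      2 ^ 96 = ((u1 : ℝ) * u1 + (Pc : ℝ) * 2 ^ 96 - (Pb : ℝ) * u0) / 2 ^ 96 := by
    field_simp
    ring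
  rw [e, le_div_iff₀ (by positivity)]
  exact h'

theorem nxt_false (u0 u1 : ℤ) :
    ((u1 : ℝ) / 2 ^ 96) ^ 2 - P0.2 * ((u0 : ℝ) / 2 ^ 96) + P0.1 ≤
      ((nxt false u0 u1 : ℤ) : ℝ) / 2 ^ 96 := by
  have h : u1 * u1 + Pc * 2 ^ 96 - Pb * u0 ≤ nxt false u0 u1 * 2 ^ 96 := by
    have h1 := Int.ediv_mul_le (-(u1 * u1 + Pc * 2 ^ 96 - Pb * u0)) (b := 2 ^ 96) (by norm_num)
    have h2 : nxt false u0 u1 = -((-(u1 * u1 + Pc * 2 ^ 96 - Pb * u0)) / 2 ^ 96) := by
      simp only [nxt, Bool.false_eq_true, if_false]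
      rw [PcS_eq, SCI_eq]
    rw [h2]
    linarith
  have h' : (u1 : ℝ) * u1 + (Pc : ℝ) * 2 ^ 96 - (Pb : ℝ) * u0 ≤
      ((nxt false u0 u1 : ℤ) : ℝ) * 2 ^ 96 := by exact_mod_cast h
  rw [P0_fst, P0_snd, le_div_iff₀ (by positivity)]
  have e : (((u1 : ℝ) / 2 ^ 96) ^ 2 - (Pb : ℝ) / 2 ^ 96 * ((u0 : ℝ) / 2 ^ 96) + (Pc : ℝ) / 2 ^ 96) *
      2 ^ 96 = ((u1 : ℝ) * u1 + (Pc : ℝ) * 2 ^ 96 - (Pb : ℝ) * u0) / 2 ^ 96 := by
    field_simp
    ring
  rw [e, div_le_iff₀ (by positivity)]
  exact h'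

theorem P0_b_le : P0.2 ≤ 1 / 400000 := by
  rw [P0_snd]; norm_num [Pb]

/-- one step of the comparison -/
theorem step_cmp {b x0 x1 U0 U1 : ℝ} {s t : Bool} {κ κ' mu : ℝ} (hb : 0 ≤ b) (hκ : 0 < κ)
    (hs : Sg s x1) (hU : if s = true then mu ≤ U1 else mu ≤ -U1) (hmu : κ' + b / κ ≤ mu)
    (hI : κ * |x0 - U0| ≤ sid t (x1 - U1)) :
    κ' * |x1 - U1| ≤ sid (t == s) ((x1 ^ 2 - b * x0) - (U1 ^ 2 - b * U0)) := by
  set e := |x0 - U0| with he
  have he0 : 0 ≤ e := abs_nonneg _
  have hE : 0 ≤ sid t (x1 - U1) := (mul_nonneg hκ.le he0).trans hI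
  have habs : |x1 - U1| = sid t (x1 - U1) := by
    cases t
    · simp only [sid, Bool.false_eq_true, if_false] at hE ⊢
      rw [abs_of_nonpos (by linarith)]
    · simp only [sid, if_true] at hE ⊢
      rw [abs_of_nonneg hE]
  set E := sid t (x1 - U1) with hEdef
  have h1 : b * e ≤ (b / κ) * E := by
    have : b / κ * (κ * e) ≤ b / κ * E := mul_le_mul_of_nonneg_left hI (by positivity)
    have h2 : b / κ * (κ * e) = b * e := by field_simp
    linarith
  have h3 : (κ' + b / κ) * E ≤ mu * E := mul_le_mul_of_nonneg_right hmu hE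
  have h4 : b * (x0 - U0) ≤ b * e := mul_le_mul_of_nonneg_left (le_abs_self _) hb
  have h5 : -(b * (x0 - U0)) ≤ b * e := by
    have := mul_le_mul_of_nonneg_left (neg_abs_le (x0 - U0)) hb
    linarith
  rw [habs]
  cases s <;> cases t
  · -- s = false, t = false
    simp only [Sg, Bool.false_eq_true, if_false] at hs hU
    simp only [sid, Bool.false_eq_true, if_false] at hEdef
    have : sid (false == false) ((x1 ^ 2 - b * x0) - (U1 ^ 2 - b * U0)) =
        (-(x1 + U1)) * E - b * (x0 - U0) := by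
      simp only [sid, beq_self_eq_true, if_true]
      rw [hEdef]; ring
    rw [this]
    have h6 : mu * E ≤ (-(x1 + U1)) * E := mul_le_mul_of_nonneg_right (by linarith) hE
    nlinarith
  · simp only [Sg, Bool.false_eq_true, if_false] at hs hU
    simp only [sid, if_true] at hEdef
    have : sid (true == false) ((x1 ^ 2 - b * x0) - (U1 ^ 2 - b * U0)) =
        (-(x1 + U1)) * E + b * (x0 - U0) := by
      have h0 : (true == false) = false := rfl
      simp only [sid, h0, Bool.false_eq_true, if_false]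
      rw [hEdef]; ring
    rw [this]
    have h6 : mu * E ≤ (-(x1 + U1)) * E := mul_le_mul_of_nonneg_right (by linarith) hE
    nlinarith
  · simp only [Sg, if_true] at hs hU
    simp only [sid, Bool.false_eq_true, if_false] at hEdef
    have : sid (false == true) ((x1 ^ 2 - b * x0) - (U1 ^ 2 - b * U0)) =
        (x1 + U1) * E + b * (x0 - U0) := by
      have h0 : (false == true) = false := rfl
      simp only [sid, h0, Bool.false_eq_true, if_false]
      rw [hEdef]; ring
    rw [this]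
    have h6 : mu * E ≤ (x1 + U1) * E := mul_le_mul_of_nonneg_right (by linarith) hE
    nlinarith
  · simp only [Sg, if_true] at hs hU
    simp only [sid, if_true] at hEdef
    have : sid (true == true) ((x1 ^ 2 - b * x0) - (U1 ^ 2 - b * U0)) =
        (x1 + U1) * E - b * (x0 - U0) := by
      simp only [sid, beq_self_eq_true, if_true]
      rw [hEdef]; ring
    rw [this]
    have h6 : mu * E ≤ (x1 + U1) * E := mul_le_mul_of_nonneg_right (by linarith) hE
    nlinarith

/-- **Soundness of `run`.** -/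
theorem run_sound {fin : Bool → ℤ → Bool} {x : ℕ → ℝ} (hx : Orb x) (w : List Bool) :
    ∀ (t : Bool) (u0 u1 mu : ℤ) (κ : ℝ) (n : ℕ), 0 < κ →
    κ * |x n - (u0 : ℝ) / 2 ^ 96| ≤ sid t (x (n + 1) - (u1 : ℝ) / 2 ^ 96) →
    (1 / 512 + P0.2 / κ) * 2 ^ 96 ≤ (mu : ℝ) →
    Mat w x (n + 1) → run fin t u0 u1 mu w = true →
    ∃ t' u', fin t' u' = true ∧ 0 ≤ sid t' (x (n + 1 + w.length) - ((u' : ℤ) : ℝ) / 2 ^ 96) := by
  induction w with
  | nil =>
    intro t u0 u1 mu κ n hκ hI _ _ hr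
    refine ⟨t, u1, hr, ?_⟩
    simp only [List.length_nil, add_zero]
    exact (mul_nonneg hκ.le (abs_nonneg _)).trans hI
  | cons s w ih =>
    intro t u0 u1 mu κ n hκ hI hmu hM hr
    obtain ⟨hs, hM'⟩ := hM
    have hE : 0 ≤ sid t (x (n + 1) - (u1 : ℝ) / 2 ^ 96) :=
      (mul_nonneg hκ.le (abs_nonneg _)).trans hI
    unfold run at hr
    rcases Bool.or_eq_true_iff.1 hr with hr | hr
    · exfalso
      cases s
      · simp only [Bool.false_eq_true, if_false, Bool.and_eq_true, decide_eq_true_eq] at hr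
        obtain ⟨ht, hu⟩ := hr
        subst ht
        simp only [sid, if_true] at hE
        simp only [Sg, Bool.false_eq_true, if_false] at hs
        have : (0 : ℝ) ≤ (u1 : ℝ) / 2 ^ 96 := div_nonneg (by exact_mod_cast hu) (by positivity)
        linarith
      · simp only [if_true, Bool.and_eq_true, decide_eq_true_eq, Bool.not_eq_true'] at hr
        obtain ⟨ht, hu⟩ := hr
        subst ht
        simp only [sid, Bool.false_eq_true, if_false] at hE
        simp only [Sg, if_true] at hs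
        have : (u1 : ℝ) / 2 ^ 96 < 0 := div_neg_of_neg_of_pos (by exact_mod_cast hu) (by positivity)
        linarith
    · rw [Bool.and_eq_true] at hr
      obtain ⟨hm, hr⟩ := hr
      have hU : if s = true then (mu : ℝ) / 2 ^ 96 ≤ (u1 : ℝ) / 2 ^ 96
          else (mu : ℝ) / 2 ^ 96 ≤ -((u1 : ℝ) / 2 ^ 96) := by
        cases s
        · simp only [Bool.false_eq_true, if_false, decide_eq_true_eq] at hm ⊢
          rw [← neg_div]
          exact div_le_div_of_nonneg_right (by exact_mod_cast hm) (by positivity)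
        · simp only [if_true, decide_eq_true_eq] at hm ⊢
          exact div_le_div_of_nonneg_right (by exact_mod_cast hm) (by positivity)
      have hmu' : 1 / 512 + P0.2 / κ ≤ (mu : ℝ) / 2 ^ 96 := by
        rw [le_div_iff₀ (by positivity)]; exact hmu
      have h1 := step_cmp (κ' := 1 / 512) P0_b_pos.le hκ hs hU hmu' hI
      have h2 : (1 / 512 : ℝ) * |x (n + 1) - (u1 : ℝ) / 2 ^ 96| ≤
          sid (t == s) (x (n + 1 + 1) - ((nxt (t == s) u0 u1 : ℤ) : ℝ) / 2 ^ 96) := by
        refine h1.trans ?_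
        have hrec : x (n + 1 + 1) = x (n + 1) ^ 2 - P0.2 * x n + P0.1 := hx.rec n
        cases hts : (t == s)
        · simp only [sid, Bool.false_eq_true, if_false]
          have := nxt_false u0 u1
          rw [hrec]; linarith
        · simp only [sid, if_true]
          have := nxt_true u0 u1
          rw [hrec]; linarith
      have hmu2 : (1 / 512 + P0.2 / (1 / 512 : ℝ)) * 2 ^ 96 ≤ ((MU0 : ℤ) : ℝ) := by
        have h3 := P0_b_le
        have h4 : ((MU0 : ℤ) : ℝ) = 2 ^ 88 := by norm_num [MU0]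
        rw [h4]
        have h5 : 1 / 512 + P0.2 / (1 / 512 : ℝ) ≤ 1 / 256 := by
          have : P0.2 / (1 / 512 : ℝ) = 512 * P0.2 := by ring
          rw [this]; linarith
        calc (1 / 512 + P0.2 / (1 / 512 : ℝ)) * 2 ^ 96 ≤ (1 / 256) * 2 ^ 96 :=
              mul_le_mul_of_nonneg_right h5 (by positivity)
          _ = 2 ^ 88 := by norm_num
      obtain ⟨t', u', hf, hside⟩ := ih (t == s) u1 (nxt (t == s) u0 u1) MU0 (1 / 512) (n + 1)
        (by norm_num) h2 hmu2 hM' hr
      refine ⟨t', u', hf, ?_⟩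
      have : n + 1 + (s :: w).length = n + 1 + 1 + w.length := by
        simp only [List.length_cons]; omega
      rw [this]
      exact hside

/-- `run` without final condition gives a contradiction. -/
theorem run_false {x : ℕ → ℝ} (hx : Orb x) (w : List Bool) (t : Bool) (u0 u1 mu : ℤ) (κ : ℝ) (n : ℕ)
    (hκ : 0 < κ) (hI : κ * |x n - (u0 : ℝ) / 2 ^ 96| ≤ sid t (x (n + 1) - (u1 : ℝ) / 2 ^ 96))
    (hmu : (1 / 512 + P0.2 / κ) * 2 ^ 96 ≤ (mu : ℝ)) (hM : Mat w x (n + 1))
    (hr : run (fun _ _ => false) t u0 u1 mu w = true) : False := by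
  obtain ⟨t', u', hf, _⟩ := run_sound hx w t u0 u1 mu κ n hκ hI hmu hM hr
  simp at hf

end Pool.Agent.Work.MP_99322d_an.U
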