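import Pool.Agent.Work.MP_99322d_an.U.TrapData

/-!
# MP_99322d, upper bound at `P0`: the traps (helper31)

`Trap (s, r, j) x k`: at the time `n = k + 1 - j` the orbit was in the interval of the round `r` of the
window `s` (`s = true`: `x (n-1) ≥ 0`, window A; `s = false`: window B).
-/

set_option autoImplicit false

namespace Pool.Agent.Work.MP_99322d_an.U.Tr

/-- the scaled orbit -/
noncomputable def Xs (x : ℕ → ℝ) (k : ℕ) : ℝ := x k * SC

theorem Xs_eq (x : ℕ → ℝ) (k : ℕ) : Xs x k = x k * 2 ^ 96 := by rw [Xs, SC_real]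

theorem rec_of_orb {x : ℕ → ℝ} (hx : Orb x) : Rec (Xs x) := by
  intro k
  have h := hx.1 k
  have h1 : P0.1 * SC = Pc := by
    rw [SC_real]; unfold P0; field_simp
  have h2 : P0.2 * SC = Pb := by
    rw [SC_real]; unfold P0; field_simp
  unfold Xs
  rw [h]
  linear_combination (SC : ℝ) * h1 - x k * SC * h2

theorem Xs_abs {x : ℕ → ℝ} (hx : Orb x) (k : ℕ) : |Xs x k| ≤ 2 * SC := by
  have h := hx.2 k
  rw [Xs, abs_mul, abs_of_pos SC_pos]
  exact mul_le_mul_of_nonneg_right h SC_pos.le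

theorem sg_Xs {x : ℕ → ℝ} {s : Bool} {k : ℕ} (h : Sg s (x k)) : Sg s (Xs x k) := by
  cases s with
  | true =>
    simp only [Sg, if_true] at h ⊢
    exact mul_nonneg h SC_pos.le
  | false =>
    simp only [Sg, Bool.false_eq_true, if_false] at h ⊢
    exact mul_neg_of_neg_of_pos h SC_pos

theorem Sg_of_Xs {x : ℕ → ℝ} {s : Bool} {k : ℕ} (h : Sg s (Xs x k)) : Sg s (x k) := by
  cases s with
  | true =>
    simp only [Sg, if_true] at h ⊢
    unfold Xs at h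
    exact nonneg_of_mul_nonneg_left h SC_pos
  | false =>
    simp only [Sg, Bool.false_eq_true, if_false] at h ⊢
    unfold Xs at h
    exact neg_of_mul_neg_left h SC_pos.le

theorem ckR_get {r : ℕ} (hr : r < 6) (s : Bool) : ckR s r = true := by
  have h := List.all_eq_true.1 ckR_all r (List.mem_range.2 hr)
  rw [Bool.and_eq_true] at h
  cases s
  · exact h.2
  · exact h.1

theorem ckS_get {r j : ℕ} (hr : r < 6) (s : Bool) (hj : j < Ln s) : ckS s r j = true := by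
  have h := List.all_eq_true.1 ckS_all s (by cases s <;> simp)
  have h2 := List.all_eq_true.1 h r (List.mem_range.2 hr)
  exact List.all_eq_true.1 h2 j (List.mem_range.2 hj)

theorem ckN_get {r j : ℕ} (hr : r < 6) (s : Bool) (hj : j < 20) : ckN s r j = true := by
  have h := List.all_eq_true.1 ckN_all s (by cases s <;> simp)
  have h2 := List.all_eq_true.1 h r (List.mem_range.2 hr)
  exact List.all_eq_true.1 h2 j (List.mem_range.2 hj)

theorem Ln_le (s : Bool) : Ln s ≤ 20 := by cases s <;> decide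

/-- crude bounds of `X (n-1)`, `X (n-2)` -/
theorem crude {x : ℕ → ℝ} (hx : Orb x) {m : ℕ} {s : Bool}
    (h1 : ((Iv s 0).1 : ℝ) ≤ Xs x (m + 3)) (h2 : Xs x (m + 3) ≤ (Iv s 0).2)
    (hs : Sg s (x (m + 2))) :
    ((Qa s : ℝ) ≤ |Xs x (m + 2)| ∧ |Xs x (m + 2)| ≤ Qb s) ∧
    ((Xa s : ℝ) ≤ |Xs x (m + 1)| ∧ |Xs x (m + 1)| ≤ Xb s) := by
  have hq := ckQ_all s
  simp only [ckQ, Bool.and_eq_true, decide_eq_true_eq] at hq
  obtain ⟨⟨⟨⟨⟨⟨⟨q1, q2⟩, q3⟩, q4⟩, q5⟩, q6⟩, q7⟩, q8⟩ := hq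
  have hS := SC_pos
  have hb := Pb_nonneg
  have hX := rec_of_orb hx
  have e1 := hX (m + 1)
  have e0 := hX m
  have a1 := abs_le.1 (Xs_abs hx (m + 1))
  have a0 := abs_le.1 (Xs_abs hx m)
  have b1 : (Pb : ℝ) * Xs x (m + 1) ≤ Pb * (2 * SC) := mul_le_mul_of_nonneg_left a1.2 hb
  have b2 : (Pb : ℝ) * (-(2 * SC)) ≤ Pb * Xs x (m + 1) := mul_le_mul_of_nonneg_left a1.1 hb
  have b3 : (Pb : ℝ) * Xs x m ≤ Pb * (2 * SC) := mul_le_mul_of_nonneg_left a0.2 hb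
  have b4 : (Pb : ℝ) * (-(2 * SC)) ≤ Pb * Xs x m := mul_le_mul_of_nonneg_left a0.1 hb
  have c1 : ((Iv s 0).1 : ℝ) * SC ≤ Xs x (m + 3) * SC := mul_le_mul_of_nonneg_right h1 hS.le
  have c2 : Xs x (m + 3) * SC ≤ (Iv s 0).2 * SC := mul_le_mul_of_nonneg_right h2 hS.le
  have q5' : (Qa s : ℝ) * Qa s ≤ ((Iv s 0).1 - Pc) * SC - Pb * (2 * SC) := by exact_mod_cast q5
  have q6' : (((Iv s 0).2 : ℝ) - Pc) * SC + Pb * (2 * SC) ≤ Qb s * Qb s := by exact_mod_cast q6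
  have hQ := root_bd (y := Xs x (m + 2)) q1 q2 q5' q6' (by linarith) (by linarith)
  refine ⟨hQ, ?_⟩
  cases s with
  | true =>
    have h0 : 0 ≤ Xs x (m + 2) := by simpa [Sg] using sg_Xs hs
    rw [abs_of_nonneg h0] at hQ
    simp only [if_true] at q7 q8
    have q7' : (Xa true : ℝ) * Xa true ≤ (Qa true - Pc) * SC - Pb * (2 * SC) := by
      exact_mod_cast q7
    have q8' : ((Qb true : ℝ) - Pc) * SC + Pb * (2 * SC) ≤ Xb true * Xb true := by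
      exact_mod_cast q8
    have d1 : (Qa true : ℝ) * SC ≤ Xs x (m + 2) * SC := mul_le_mul_of_nonneg_right hQ.1 hS.le
    have d2 : Xs x (m + 2) * SC ≤ Qb true * SC := mul_le_mul_of_nonneg_right hQ.2 hS.le
    exact root_bd q3 q4 q7' q8' (by linarith) (by linarith)
  | false =>
    have h0 : Xs x (m + 2) < 0 := by simpa [Sg] using sg_Xs hs
    rw [abs_of_neg h0] at hQ
    simp only [Bool.false_eq_true, if_false] at q7 q8
    have q7' : (Xa false : ℝ) * Xa false ≤ (-(Qb false) - Pc) * SC - Pb * (2 * SC) := by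
      exact_mod_cast q7
    have q8' : (-(Qa false : ℝ) - Pc) * SC + Pb * (2 * SC) ≤ Xb false * Xb false := by
      exact_mod_cast q8
    have d1 : -(Qb false : ℝ) * SC ≤ Xs x (m + 2) * SC :=
      mul_le_mul_of_nonneg_right (by linarith) hS.le
    have d2 : Xs x (m + 2) * SC ≤ -(Qa false : ℝ) * SC :=
      mul_le_mul_of_nonneg_right (by linarith) hS.le
    exact root_bd q3 q4 q7' q8' (by linarith) (by linarith)

/-- enclosure of a whole round -/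
theorem round {x : ℕ → ℝ} (hx : Orb x) {m : ℕ} {s : Bool} {r : ℕ} (hr : r < 6)
    (h1 : ((Iv s r).1 : ℝ) ≤ Xs x (m + 3)) (h2 : Xs x (m + 3) ≤ (Iv s r).2)
    (hs : Sg s (x (m + 2))) (hs2 : 1 ≤ r → Sg (!s) (x (m + 1))) : Ins (T s r) (Xs x) (m + 3) := by
  have hc := ckR_get hr s
  rw [ckR, Bool.and_eq_true, Bool.and_eq_true, decide_eq_true_eq, decide_eq_true_eq] at hc
  obtain ⟨⟨hc1, hc2⟩, hc3⟩ := hc
  have hc2' : ((Iv s 0).1 : ℝ) ≤ (Iv s r).1 := by exact_mod_cast hc2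
  have hc3' : ((Iv s r).2 : ℝ) ≤ (Iv s 0).2 := by exact_mod_cast hc3
  obtain ⟨-, hX1, hX2⟩ := crude hx (hc2'.trans h1) (h2.trans hc3') hs
  obtain ⟨l', r', hp, hl, hr'⟩ := chk_sound 9 _ _ hc1 _ h1 h2
  have habs := abs_le.1 hX2
  refine piece_sound (rec_of_orb hx) hp (m := m + 1) ?_ ?_ (sg_Xs hs) hl hr'
  · unfold xlo
    split_ifs with h0 h3
    · push_cast; exact habs.1
    · push_cast; exact habs.1
    · have h4 := hs2 (by omega)
      have hsf : s = false := by simpa using h3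
      subst hsf
      have h5 : 0 ≤ Xs x (m + 1) := by simpa [Sg] using sg_Xs h4
      rwa [abs_of_nonneg h5] at hX1
  · unfold xhi
    split_ifs with h0 h3
    · exact habs.2
    · have h4 := hs2 (by omega)
      subst h3
      have h5 : Xs x (m + 1) < 0 := by simpa [Sg] using sg_Xs h4
      rw [abs_of_neg h5] at hX1
      push_cast
      linarith
    · exact habs.2

theorem T_length (s : Bool) (r : ℕ) : (T s r).length = Ln s + 1 := by
  cases s <;> rfl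

theorem T_last (s : Bool) (r : ℕ) : (T s r)[Ln s]? = some (Iv s (min (r + 1) 5)) := by
  cases s <;> rfl

theorem T_getD (s : Bool) (r j : ℕ) (hj : j < Ln s) :
    (T s r)[j]? = some ((T s r).getD j (0, 0)) := by
  have h : j < (T s r).length := by rw [T_length]; omega
  rw [List.getD_eq_getElem _ _ h, List.getElem?_eq_getElem h]

/-- signs at the end of a round -/
theorem signs {x : ℕ → ℝ} {n : ℕ} {s : Bool} {r : ℕ} (h : Ins (T s r) (Xs x) n) :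
    Sg s (x (n + Ln s - 1)) ∧ Sg (!s) (x (n + Ln s - 2)) := by
  cases s with
  | true =>
    have e1 : n + Ln true - 1 = n + 19 := by simp [Ln]
    have e2 : n + Ln true - 2 = n + 18 := by simp [Ln]
    rw [e1, e2]
    have h1 := h.get 19 (111536472466916020957539729408, 111536611776727265612073533440) rfl
    have h2 := h.get 18 (-145867268682413960593072455680, -145867231198630002815263571968) rfl
    refine ⟨Sg_of_Xs ?_, Sg_of_Xs ?_⟩
    · simp only [Sg, if_true]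
      exact le_trans (by norm_num) h1.1
    · simp only [Sg, Bool.not_true, Bool.false_eq_true, if_false]
      exact lt_of_le_of_lt h2.2 (by norm_num)
  | false =>
    have e1 : n + Ln false - 1 = n + 17 := by simp [Ln]
    have e2 : n + Ln false - 2 = n + 16 := by simp [Ln]
    rw [e1, e2]
    have h1 := h.get 17 ((hl false).getD 16 (0, 0)) rfl
    have h2 := h.get 16 ((hl false).getD 15 (0, 0)) rfl
    have f1 : ((hl false).getD 16 (0, 0)).2 < 0 := by decide +kernel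
    have f2 : 0 ≤ ((hl false).getD 15 (0, 0)).1 := by decide +kernel
    refine ⟨Sg_of_Xs ?_, Sg_of_Xs ?_⟩
    · simp only [Sg, Bool.false_eq_true, if_false]
      exact lt_of_le_of_lt h1.2 (by exact_mod_cast f1)
    · simp only [Sg, Bool.not_false, if_true]
      exact le_trans (by exact_mod_cast f2) h2.1

end Pool.Agent.Work.MP_99322d_an.U.Tr

namespace Pool.Agent.Work.MP_99322d_an.U

open Tr

/-- indices of the traps: sign, round, time since the window -/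
abbrev TI : Type := Bool × Fin 6 × Fin 20

/-- the traps -/
def Trap (i : TI) (x : ℕ → ℝ) (k : ℕ) : Prop :=
  (i.2.2 : ℕ) < Ln i.1 ∧ ∃ n, n + i.2.2 = k + 1 ∧ 4 ≤ n ∧
    ((Iv i.1 i.2.1).1 : ℝ) ≤ x n * 2 ^ 96 ∧ x n * 2 ^ 96 ≤ (Iv i.1 i.2.1).2 ∧
    Sg i.1 (x (n - 1)) ∧ (1 ≤ (i.2.1 : ℕ) → Sg (!i.1) (x (n - 2)))

/-- next trap -/
def tnx (i : TI) : TI :=
  if h : (i.2.2 : ℕ) + 1 < Ln i.1 then
    (i.1, i.2.1, ⟨i.2.2 + 1, lt_of_lt_of_le h (Ln_le i.1)⟩)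
  else (i.1, ⟨min ((i.2.1 : ℕ) + 1) 5, by omega⟩, ⟨0, by norm_num⟩)

/-- the norms -/
noncomputable def tN (i : TI) (d1 d0 : ℝ) : ℝ :=
  max (|d1 - (Gz i.1 i.2.2 : ℝ) / SC * d0| / (Pw i.1 i.2.1 i.2.2 : ℝ))
    (|d0 - (Tz i.1 i.2.2 : ℝ) / SC * d1| / (Qw i.1 i.2.1 i.2.2 : ℝ))

/-- the constant of the norms -/
noncomputable def tMn : ℝ := 2 ^ 96

theorem tMn_pos : 0 < tMn := by unfold tMn; positivity

/-- in the window at the time `n`: trapped -/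
theorem trap_of_win {x : ℕ → ℝ} {n : ℕ} (hn : 4 ≤ n) (h : Win x n) :
    ∃ s, Trap (s, 0, 0) x (n - 1) := by
  rcases h with ⟨h1, h2, h3⟩ | ⟨h1, h2, h3⟩
  · refine ⟨true, by simp [Ln], n, by simp; omega, hn, h2, h3, by simpa [Sg] using h1, ?_⟩
    intro h; simp at h
  · refine ⟨false, by simp [Ln], n, by simp; omega, hn, h2, h3, by simpa [Sg] using h1, ?_⟩
    intro h; simp at h

/-- enclosure of the orbit of a trapped point -/
theorem Trap.ins {x : ℕ → ℝ} (hx : Orb x) {i : TI} {n : ℕ} (hn : 4 ≤ n)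
    (h1 : ((Iv i.1 i.2.1).1 : ℝ) ≤ x n * 2 ^ 96) (h2 : x n * 2 ^ 96 ≤ (Iv i.1 i.2.1).2)
    (h3 : Sg i.1 (x (n - 1))) (h4 : 1 ≤ (i.2.1 : ℕ) → Sg (!i.1) (x (n - 2))) :
    Ins (T i.1 i.2.1) (Xs x) n := by
  obtain ⟨m, rfl⟩ : ∃ m, n = m + 3 := ⟨n - 3, by omega⟩
  exact round hx i.2.1.2 (by rw [Xs_eq]; exact h1) (by rw [Xs_eq]; exact h2) h3 h4

/-- the traps are forward invariant -/
theorem trap_next {x : ℕ → ℝ} (hx : Orb x) {k : ℕ} {i : TI} (h : Trap i x k) :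
    Trap (tnx i) x (k + 1) := by
  obtain ⟨hj, n, hn, hn4, h1, h2, h3, h4⟩ := h
  have hins := Trap.ins hx hn4 h1 h2 h3 h4
  unfold tnx
  split_ifs with hlt
  · exact ⟨hlt, n, by show n + ((i.2.2 : ℕ) + 1) = k + 1 + 1; omega, hn4, h1, h2, h3, h4⟩
  · have hjL : (i.2.2 : ℕ) + 1 = Ln i.1 := by omega
    have hlast := hins.get (Ln i.1) _ (T_last i.1 i.2.1)
    rw [Xs_eq] at hlast
    have hsg := signs hins
    have hL : 18 ≤ Ln i.1 := by cases i.1 <;> decide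
    refine ⟨?_, n + Ln i.1, ?_, by omega, hlast.1, hlast.2, hsg.1, fun _ => hsg.2⟩
    · show (0 : ℕ) < Ln i.1; omega
    · show n + Ln i.1 + 0 = k + 1 + 1; omega

theorem Gz_mul_Tz (s : Bool) (j : ℕ) : Gz s j * Tz s j = 0 := by
  unfold Gz Tz
  split_ifs <;> omega

theorem tN_facts (i : TI) : (1 : ℝ) ≤ Pw i.1 i.2.1 i.2.2 ∧ (1 : ℝ) ≤ Qw i.1 i.2.1 i.2.2 ∧
    (Pw i.1 i.2.1 i.2.2 : ℝ) + Qw i.1 i.2.1 i.2.2 ≤ 2 ^ 96 ∧
    |(Gz i.1 i.2.2 : ℝ) / SC| ≤ 1 ∧ |(Tz i.1 i.2.2 : ℝ) / SC| ≤ 1 := by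
  have h := ckN_get i.2.1.2 i.1 i.2.2.2
  simp only [ckN, Bool.and_eq_true, decide_eq_true_eq] at h
  obtain ⟨⟨⟨⟨h1, h2⟩, h3⟩, h4⟩, h5⟩ := h
  have h4' : (((ab (Gz i.1 i.2.2) : ℤ)) : ℝ) ≤ SC := by exact_mod_cast h4
  have h5' : (((ab (Tz i.1 i.2.2) : ℤ)) : ℝ) ≤ SC := by exact_mod_cast h5
  rw [ab_cast] at h4' h5'
  refine ⟨by exact_mod_cast h1, by exact_mod_cast h2, ?_, ?_, ?_⟩
  · rw [← SC_real]; exact_mod_cast h3
  · rw [abs_div, abs_of_pos SC_pos, div_le_one SC_pos]; exact h4'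
  · rw [abs_div, abs_of_pos SC_pos, div_le_one SC_pos]; exact h5'

theorem tN_split (i : TI) (d1 d0 : ℝ) :
    |d1 - (Gz i.1 i.2.2 : ℝ) / SC * d0| ≤ Pw i.1 i.2.1 i.2.2 * tN i d1 d0 ∧
    |d0 - (Tz i.1 i.2.2 : ℝ) / SC * d1| ≤ Qw i.1 i.2.1 i.2.2 * tN i d1 d0 ∧ 0 ≤ tN i d1 d0 := by
  obtain ⟨h1, h2, -, -, -⟩ := tN_facts i
  have hP : (0 : ℝ) < Pw i.1 i.2.1 i.2.2 := by linarith
  have hQ : (0 : ℝ) < Qw i.1 i.2.1 i.2.2 := by linarith
  refine ⟨?_, ?_, ?_⟩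
  · have : |d1 - (Gz i.1 i.2.2 : ℝ) / SC * d0| / (Pw i.1 i.2.1 i.2.2 : ℝ) ≤ tN i d1 d0 :=
      le_max_left _ _
    rw [div_le_iff₀ hP] at this
    linarith
  · have : |d0 - (Tz i.1 i.2.2 : ℝ) / SC * d1| / (Qw i.1 i.2.1 i.2.2 : ℝ) ≤ tN i d1 d0 :=
      le_max_right _ _
    rw [div_le_iff₀ hQ] at this
    linarith
  · exact le_trans (by positivity) (le_max_left _ _)

theorem tN_gt (i : TI) : ((Gz i.1 i.2.2 : ℝ) / SC) * ((Tz i.1 i.2.2 : ℝ) / SC) = 0 := by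
  rw [div_mul_div_comm]
  have : (Gz i.1 i.2.2 : ℝ) * Tz i.1 i.2.2 = 0 := by exact_mod_cast Gz_mul_Tz i.1 i.2.2
  rw [this, zero_div]

theorem tN_lo1 (i : TI) (d1 d0 : ℝ) : |d1| ≤ tMn * tN i d1 d0 := by
  obtain ⟨h1, h2, h3, h4, h5⟩ := tN_facts i
  obtain ⟨e1, e2, e3⟩ := tN_split i d1 d0
  have hgt := tN_gt i
  set g := (Gz i.1 i.2.2 : ℝ) / SC
  set t := (Tz i.1 i.2.2 : ℝ) / SC
  set P := (Pw i.1 i.2.1 i.2.2 : ℝ)
  set Q := (Qw i.1 i.2.1 i.2.2 : ℝ)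
  set N := tN i d1 d0
  have f : d1 = (d1 - g * d0) + g * (d0 - t * d1) := by linear_combination d1 * hgt
  have f1 : |d1| ≤ |d1 - g * d0| + |g * (d0 - t * d1)| := by
    conv_lhs => rw [f]
    exact abs_add_le _ _
  rw [abs_mul] at f1
  have f2 : |g| * |d0 - t * d1| ≤ 1 * (Q * N) :=
    mul_le_mul h4 e2 (abs_nonneg _) zero_le_one
  have f3 : (P + Q) * N ≤ 2 ^ 96 * N := mul_le_mul_of_nonneg_right h3 e3
  unfold tMn
  linarith

theorem tN_lo0 (i : TI) (d1 d0 : ℝ) : |d0| ≤ tMn * tN i d1 d0 := by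
  obtain ⟨h1, h2, h3, h4, h5⟩ := tN_facts i
  obtain ⟨e1, e2, e3⟩ := tN_split i d1 d0
  have hgt := tN_gt i
  set g := (Gz i.1 i.2.2 : ℝ) / SC
  set t := (Tz i.1 i.2.2 : ℝ) / SC
  set P := (Pw i.1 i.2.1 i.2.2 : ℝ)
  set Q := (Qw i.1 i.2.1 i.2.2 : ℝ)
  set N := tN i d1 d0
  have f : d0 = (d0 - t * d1) + t * (d1 - g * d0) := by linear_combination d0 * hgt
  have f1 : |d0| ≤ |d0 - t * d1| + |t * (d1 - g * d0)| := by
    conv_lhs => rw [f]
    exact abs_add_le _ _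
  rw [abs_mul] at f1
  have f2 : |t| * |d1 - g * d0| ≤ 1 * (P * N) :=
    mul_le_mul h5 e1 (abs_nonneg _) zero_le_one
  have f3 : (P + Q) * N ≤ 2 ^ 96 * N := mul_le_mul_of_nonneg_right h3 e3
  unfold tMn
  linarith

theorem tN_up (i : TI) (d1 d0 : ℝ) : tN i d1 d0 ≤ tMn * (|d1| + |d0|) := by
  obtain ⟨h1, h2, h3, h4, h5⟩ := tN_facts i
  have key : tN i d1 d0 ≤ |d1| + |d0| := by
    refine max_le ?_ ?_
    · rw [div_le_iff₀ (by linarith)]
      have f1 : |d1 - (Gz i.1 i.2.2 : ℝ) / SC * d0| ≤ |d1| + |(Gz i.1 i.2.2 : ℝ) / SC * d0| :=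
        abs_sub _ _
      rw [abs_mul] at f1
      have f2 : |(Gz i.1 i.2.2 : ℝ) / SC| * |d0| ≤ 1 * |d0| :=
        mul_le_mul_of_nonneg_right h4 (abs_nonneg _)
      have f3 : (|d1| + |d0|) * 1 ≤ (|d1| + |d0|) * Pw i.1 i.2.1 i.2.2 :=
        mul_le_mul_of_nonneg_left h1 (by positivity)
      linarith
    · rw [div_le_iff₀ (by linarith)]
      have f1 : |d0 - (Tz i.1 i.2.2 : ℝ) / SC * d1| ≤ |d0| + |(Tz i.1 i.2.2 : ℝ) / SC * d1| :=
        abs_sub _ _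
      rw [abs_mul] at f1
      have f2 : |(Tz i.1 i.2.2 : ℝ) / SC| * |d1| ≤ 1 * |d1| :=
        mul_le_mul_of_nonneg_right h5 (abs_nonneg _)
      have f3 : (|d1| + |d0|) * 1 ≤ (|d1| + |d0|) * Qw i.1 i.2.1 i.2.2 :=
        mul_le_mul_of_nonneg_left h2 (by positivity)
      linarith
  have h0 : (0 : ℝ) ≤ |d1| + |d0| := by positivity
  have h6 : 1 * (|d1| + |d0|) ≤ 2 ^ 96 * (|d1| + |d0|) :=
    mul_le_mul_of_nonneg_right (by norm_num) h0
  unfold tMn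
  linarith

/-- in the traps the norms of the differences do not grow -/
theorem trap_contr {x y : ℕ → ℝ} (hx : Orb x) (hy : Orb y) {k : ℕ} {i : TI} (h : Trap i x k)
    (h' : Trap i y k) : tN (tnx i) (x (k + 2) - y (k + 2)) (x (k + 1) - y (k + 1)) ≤
      tN i (x (k + 1) - y (k + 1)) (x k - y k) := by
  obtain ⟨hj, n, hn, hn4, h1, h2, h3, h4⟩ := h
  obtain ⟨-, n', hn', hn4', h1', h2', h3', h4'⟩ := h'
  obtain rfl : n' = n := by omega
  have hix := (Trap.ins hx hn4 h1 h2 h3 h4).get _ _ (T_getD i.1 i.2.1 i.2.2 hj)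
  have hiy := (Trap.ins hy hn4 h1' h2' h3' h4').get _ _ (T_getD i.1 i.2.1 i.2.2 hj)
  rw [hn] at hix hiy
  have hc := ckS_get i.2.1.2 i.1 hj
  unfold ckS at hc
  have hnx : (tnx i).1 = i.1 ∧ ((tnx i).2.1 : ℕ) = nr i.1 i.2.1 i.2.2 ∧
      ((tnx i).2.2 : ℕ) = nj i.1 i.2.2 := by
    unfold tnx nr nj
    split_ifs <;> simp
  have hf := tN_facts i
  have hf' := tN_facts (tnx i)
  have hpos : 0 < Pw i.1 i.2.1 i.2.2 ∧ 0 < Qw i.1 i.2.1 i.2.2 := by
    constructor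
    · have : (0 : ℝ) < Pw i.1 i.2.1 i.2.2 := by linarith [hf.1]
      exact_mod_cast this
    · have : (0 : ℝ) < Qw i.1 i.2.1 i.2.2 := by linarith [hf.2.1]
      exact_mod_cast this
  rw [hnx.1, hnx.2.1, hnx.2.2] at hf'
  have hpos' : 0 < Pw i.1 (nr i.1 i.2.1 i.2.2) (nj i.1 i.2.2) ∧
      0 < Qw i.1 (nr i.1 i.2.1 i.2.2) (nj i.1 i.2.2) := by
    constructor
    · have : (0 : ℝ) < Pw i.1 (nr i.1 i.2.1 i.2.2) (nj i.1 i.2.2) := by linarith [hf'.1]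
      exact_mod_cast this
    · have : (0 : ℝ) < Qw i.1 (nr i.1 i.2.1 i.2.2) (nj i.1 i.2.2) := by linarith [hf'.2.1]
      exact_mod_cast this
  have key := cC_sound hc (Gz_mul_Tz i.1 i.2.2) hpos.1 hpos.2 hpos'.1 hpos'.2 hix.1 hix.2 hiy.1
    hiy.2 (d1 := x (k + 1) - y (k + 1)) (d0 := x k - y k)
  have hS := SC_pos.ne'
  have e1 : (Xs x (k + 1) + Xs y (k + 1)) / SC = x (k + 1) + y (k + 1) := by
    unfold Xs; field_simp
  have e2 : (Pb : ℝ) / SC = P0.2 := by rw [SC_real]; rfl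
  have e3 : (x (k + 1) + y (k + 1)) * (x (k + 1) - y (k + 1)) - P0.2 * (x k - y k) =
      x (k + 2) - y (k + 2) := by
    rw [hx.1 k, hy.1 k]; ring
  rw [e1, e2, e3] at key
  unfold tN
  rw [hnx.1, hnx.2.1, hnx.2.2]
  exact key

end Pool.Agent.Work.MP_99322d_an.U
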