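import Pool.Agent.Work.MP_99322d_an.U.Sig

/-!
# MP_99322d, upper bound at `P0`: interval iteration and norms for the traps, the theory (helper31)

All integers are at the scale `SC = 2^96`.
-/

set_option autoImplicit false

namespace Pool.Agent.Work.MP_99322d_an.U.Tr

/-- the scale `2^96` -/
def SC : ℤ := 79228162514264337593543950336

theorem SC_real : (SC : ℝ) = 2 ^ 96 := by norm_num [SC]

theorem SC_pos : (0 : ℝ) < (SC : ℝ) := by rw [SC_real]; positivity

/-- lower bound of the square -/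
def sqlo (l h : ℤ) : ℤ := if 0 ≤ l then l * l else if h ≤ 0 then h * h else 0

/-- upper bound of the square -/
def sqhi (l h : ℤ) : ℤ := if l * l ≤ h * h then h * h else l * l

theorem sqlo_le {l h : ℤ} {t : ℝ} (h1 : (l : ℝ) ≤ t) (h2 : t ≤ h) : (sqlo l h : ℝ) ≤ t ^ 2 := by
  unfold sqlo
  split_ifs with h3 h4
  · have : (0 : ℝ) ≤ l := by exact_mod_cast h3
    push_cast
    nlinarith
  · have : (h : ℝ) ≤ 0 := by exact_mod_cast h4
    push_cast
    nlinarith
  · push_cast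
    positivity

theorem le_sqhi {l h : ℤ} {t : ℝ} (h1 : (l : ℝ) ≤ t) (h2 : t ≤ h) : t ^ 2 ≤ (sqhi l h : ℝ) := by
  have key : t ^ 2 ≤ (l : ℝ) * l ∨ t ^ 2 ≤ (h : ℝ) * h := by
    rcases le_total 0 t with h0 | h0
    · right; nlinarith
    · left; nlinarith
  unfold sqhi
  split_ifs with h3
  · have h3' : (l : ℝ) * l ≤ h * h := by exact_mod_cast h3
    push_cast
    rcases key with h4 | h4 <;> linarith
  · have h3' : (h : ℝ) * h ≤ l * l := by
      push Not at h3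
      exact_mod_cast h3.le
    push_cast
    rcases key with h4 | h4 <;> linarith

/-- one step, lower end -/
def nlo (phi lo hi : ℤ) : ℤ := (sqlo lo hi + Pc * SC - Pb * phi) / SC

/-- one step, upper end -/
def nhi (plo lo hi : ℤ) : ℤ := -(-(sqhi lo hi + Pc * SC - Pb * plo) / SC)

theorem div_le_real (a : ℤ) : ((a / SC : ℤ) : ℝ) * SC ≤ a := by
  have h : a / SC * SC ≤ a := Int.ediv_mul_le a (by norm_num [SC])
  exact_mod_cast h

/-- interval iteration: all intervals are inside the targets -/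
def run (plo phi lo hi : ℤ) : List (ℤ × ℤ) → Bool
  | [] => true
  | t :: T => decide (t.1 ≤ lo) && decide (hi ≤ t.2) && run lo hi (nlo phi lo hi) (nhi plo lo hi) T

/-- `X k, X (k+1), …` are in the intervals -/
def Ins : List (ℤ × ℤ) → (ℕ → ℝ) → ℕ → Prop
  | [], _, _ => True
  | t :: T, X, k => ((t.1 : ℝ) ≤ X k ∧ X k ≤ t.2) ∧ Ins T X (k + 1)

theorem Ins.get {T : List (ℤ × ℤ)} {X : ℕ → ℝ} {k : ℕ} (h : Ins T X k) (j : ℕ) (t : ℤ × ℤ)
    (ht : T[j]? = some t) : (t.1 : ℝ) ≤ X (k + j) ∧ X (k + j) ≤ t.2 := by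
  induction j generalizing T k with
  | zero =>
    cases T with
    | nil => simp at ht
    | cons a T =>
      simp only [List.getElem?_cons_zero, Option.some.injEq] at ht
      subst ht
      exact h.1
  | succ j ih =>
    cases T with
    | nil => simp at ht
    | cons a T =>
      simp only [List.getElem?_cons_succ] at ht
      have := ih h.2 ht
      rwa [show k + 1 + j = k + (j + 1) by ring] at this

/-- the scaled recursion -/
def Rec (X : ℕ → ℝ) : Prop := ∀ k, X (k + 2) * SC = X (k + 1) ^ 2 + Pc * SC - Pb * X k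

theorem Pb_nonneg : (0 : ℝ) ≤ (Pb : ℝ) := by norm_num [Pb]

theorem step_sound {X : ℕ → ℝ} (hX : Rec X) {plo phi lo hi : ℤ} {k : ℕ} (h1 : (plo : ℝ) ≤ X k)
    (h2 : X k ≤ phi) (h3 : (lo : ℝ) ≤ X (k + 1)) (h4 : X (k + 1) ≤ hi) :
    (nlo phi lo hi : ℝ) ≤ X (k + 2) ∧ X (k + 2) ≤ (nhi plo lo hi : ℝ) := by
  have e := hX k
  have e1 := sqlo_le h3 h4
  have e2 := le_sqhi h3 h4
  have hb := Pb_nonneg
  have hS := SC_pos
  have e3 : (Pb : ℝ) * X k ≤ Pb * phi := mul_le_mul_of_nonneg_left h2 hb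
  have e4 : (Pb : ℝ) * plo ≤ Pb * X k := mul_le_mul_of_nonneg_left h1 hb
  constructor
  · have h5 := div_le_real (sqlo lo hi + Pc * SC - Pb * phi)
    refine le_of_mul_le_mul_right (a := (SC : ℝ)) ?_ hS
    unfold nlo
    refine h5.trans ?_
    push_cast
    linarith
  · have h5 := div_le_real (-(sqhi lo hi + Pc * SC - Pb * plo))
    refine le_of_mul_le_mul_right (a := (SC : ℝ)) ?_ hS
    unfold nhi
    rw [Int.cast_neg, neg_mul]
    push_cast at h5 ⊢
    linarith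

theorem run_sound {X : ℕ → ℝ} (hX : Rec X) : ∀ (T : List (ℤ × ℤ)) (plo phi lo hi : ℤ) (k : ℕ),
    run plo phi lo hi T = true → (plo : ℝ) ≤ X k → X k ≤ phi → (lo : ℝ) ≤ X (k + 1) →
    X (k + 1) ≤ hi → Ins T X (k + 1) := by
  intro T
  induction T with
  | nil => intros; trivial
  | cons t T ih =>
    intro plo phi lo hi k h h1 h2 h3 h4
    rw [run, Bool.and_eq_true, Bool.and_eq_true, decide_eq_true_eq, decide_eq_true_eq] at h
    obtain ⟨⟨h5, h6⟩, h7⟩ := h
    have h5' : (t.1 : ℝ) ≤ lo := by exact_mod_cast h5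
    have h6' : (hi : ℝ) ≤ t.2 := by exact_mod_cast h6
    obtain ⟨h8, h9⟩ := step_sound hX h1 h2 h3 h4
    exact ⟨⟨by linarith, by linarith⟩, ih _ _ _ _ (k + 1) h7 h3 h4 h8 h9⟩

/-- bisection -/
def chk (f : ℤ → ℤ → Bool) : ℕ → ℤ → ℤ → Bool
  | 0, l, r => f l r
  | n + 1, l, r => f l r || (chk f n l ((l + r) / 2) && chk f n ((l + r) / 2) r)

theorem chk_sound {f : ℤ → ℤ → Bool} : ∀ (n : ℕ) (l r : ℤ), chk f n l r = true → ∀ t : ℝ,
    (l : ℝ) ≤ t → t ≤ r → ∃ l' r' : ℤ, f l' r' = true ∧ (l' : ℝ) ≤ t ∧ t ≤ r' := by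
  intro n
  induction n with
  | zero => intro l r h t h1 h2; exact ⟨l, r, h, h1, h2⟩
  | succ n ih =>
    intro l r h t h1 h2
    rw [chk, Bool.or_eq_true, Bool.and_eq_true] at h
    rcases h with h | ⟨h3, h4⟩
    · exact ⟨l, r, h, h1, h2⟩
    · rcases le_total t (((l + r) / 2 : ℤ) : ℝ) with h5 | h5
      · exact ih _ _ h3 t h1 h5
      · exact ih _ _ h4 t h5 h2

theorem root_bd {y : ℝ} {Q1 Q2 : ℤ} {A B : ℝ} (h1 : 0 ≤ Q1) (h2 : 0 ≤ Q2)
    (h3 : (Q1 : ℝ) * Q1 ≤ A) (h4 : B ≤ (Q2 : ℝ) * Q2) (h5 : A ≤ y ^ 2) (h6 : y ^ 2 ≤ B) :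
    (Q1 : ℝ) ≤ |y| ∧ |y| ≤ Q2 := by
  have h1' : (0 : ℝ) ≤ Q1 := by exact_mod_cast h1
  have h2' : (0 : ℝ) ≤ Q2 := by exact_mod_cast h2
  have e : |y| ^ 2 = y ^ 2 := sq_abs y
  have h0 := abs_nonneg y
  constructor <;> nlinarith

/-- approximate root of `-Pc`, for the linearised root -/
def Q0 : ℤ := 111536650386958096290333781297

/-- margin of the linearised root -/
def PAD : ℤ := 288230376151711744

/-- enclosure of `|X (n-1)|`, lower end -/
def q1 (x2lo l : ℤ) : ℤ := Q0 + (l * SC + Pb * x2lo) / (2 * Q0) - PAD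

/-- enclosure of `|X (n-1)|`, upper end -/
def q2 (x2hi r : ℤ) : ℤ := Q0 + (r * SC + Pb * x2hi) / (2 * Q0) + PAD

/-- check of a piece `[l, r]` of the interval of `X n`: `X (n-2)` in `[x2lo, x2hi]`, `X (n-1)` of
sign `sg`, the intervals of `X n, X (n+1), …` inside the targets -/
def piece (sg : Bool) (x2lo x2hi : ℤ) (T : List (ℤ × ℤ)) (l r : ℤ) : Bool :=
  decide (0 ≤ q1 x2lo l) && decide (0 ≤ q2 x2hi r) &&
  decide (q1 x2lo l * q1 x2lo l ≤ (l - Pc) * SC + Pb * x2lo) &&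
  decide ((r - Pc) * SC + Pb * x2hi ≤ q2 x2hi r * q2 x2hi r) &&
  (match sg with
    | true => run (q1 x2lo l) (q2 x2hi r) l r T
    | false => run (-(q2 x2hi r)) (-(q1 x2lo l)) l r T)

theorem piece_sound {X : ℕ → ℝ} (hX : Rec X) {sg : Bool} {x2lo x2hi : ℤ} {T : List (ℤ × ℤ)}
    {l r : ℤ} (h : piece sg x2lo x2hi T l r = true) {m : ℕ} (h1 : (x2lo : ℝ) ≤ X m)
    (h2 : X m ≤ x2hi) (hs : Sg sg (X (m + 1))) (h3 : (l : ℝ) ≤ X (m + 2)) (h4 : X (m + 2) ≤ r) :
    Ins T X (m + 2) := by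
  unfold piece at h
  simp only [Bool.and_eq_true, decide_eq_true_eq] at h
  obtain ⟨⟨⟨⟨h5, h6⟩, h7⟩, h8⟩, h9⟩ := h
  have e := hX m
  have hb := Pb_nonneg
  have hS := SC_pos
  have e3 : (Pb : ℝ) * X m ≤ Pb * x2hi := mul_le_mul_of_nonneg_left h2 hb
  have e4 : (Pb : ℝ) * x2lo ≤ Pb * X m := mul_le_mul_of_nonneg_left h1 hb
  have e5 : (l : ℝ) * SC ≤ X (m + 2) * SC := mul_le_mul_of_nonneg_right h3 hS.le
  have e6 : X (m + 2) * SC ≤ r * SC := mul_le_mul_of_nonneg_right h4 hS.le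
  have h7' : (q1 x2lo l : ℝ) * q1 x2lo l ≤ (l - Pc) * SC + Pb * x2lo := by exact_mod_cast h7
  have h8' : ((r : ℝ) - Pc) * SC + Pb * x2hi ≤ (q2 x2hi r : ℝ) * q2 x2hi r := by
    exact_mod_cast h8
  obtain ⟨h10, h11⟩ := root_bd (y := X (m + 1)) h5 h6 h7' h8' (by linarith) (by linarith)
  cases sg with
  | true =>
    have h0 : 0 ≤ X (m + 1) := by simpa [Sg] using hs
    rw [abs_of_nonneg h0] at h10 h11
    exact run_sound hX T _ _ _ _ (m + 1) h9 h10 h11 h3 h4
  | false =>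
    have h0 : X (m + 1) < 0 := by simpa [Sg] using hs
    rw [abs_of_neg h0] at h10 h11
    refine run_sound hX T _ _ _ _ (m + 1) h9 ?_ ?_ h3 h4
    · push_cast; linarith
    · push_cast; linarith

/-! ### The norms -/

theorem contr_core {s g t p q g' t' p' q' b d1 d0 : ℝ} (hgt : g * t = 0) (hp : 0 < p)
    (hq : 0 < q) (hp' : 0 < p') (hq' : 0 < q')
    (h1 : |(s - g') - b * t| * p + |(s - g') * g - b| * q ≤ p')
    (h2 : |1 - t' * s + t' * b * t| * p + |(1 - t' * s) * g + t' * b| * q ≤ q') :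
    max (|(s * d1 - b * d0) - g' * d1| / p') (|d1 - t' * (s * d1 - b * d0)| / q') ≤
      max (|d1 - g * d0| / p) (|d0 - t * d1| / q) := by
  obtain ⟨N, hN⟩ : ∃ N, N = max (|d1 - g * d0| / p) (|d0 - t * d1| / q) := ⟨_, rfl⟩
  obtain ⟨u, hu⟩ : ∃ u, u = d1 - g * d0 := ⟨_, rfl⟩
  obtain ⟨v, hv⟩ : ∃ v, v = d0 - t * d1 := ⟨_, rfl⟩
  have hN1 : |u| ≤ p * N := by
    have : |u| / p ≤ N := by rw [hN, hu]; exact le_max_left _ _
    rw [div_le_iff₀ hp] at this; linarith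
  have hN2 : |v| ≤ q * N := by
    have : |v| / q ≤ N := by rw [hN, hv]; exact le_max_right _ _
    rw [div_le_iff₀ hq] at this; linarith
  have hN0 : 0 ≤ N := by
    rw [hN]; exact le_trans (by positivity) (le_max_left _ _)
  have e1 : d1 = u + g * v := by
    rw [hu, hv]
    linear_combination d1 * hgt
  have e0 : d0 = v + t * u := by
    rw [hu, hv]
    linear_combination d0 * hgt
  have f1 : (s * d1 - b * d0) - g' * d1 = ((s - g') - b * t) * u + ((s - g') * g - b) * v := by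
    rw [e1, e0]; ring
  have f2 : d1 - t' * (s * d1 - b * d0) = (1 - t' * s + t' * b * t) * u +
      ((1 - t' * s) * g + t' * b) * v := by
    rw [e1, e0]; ring
  rw [← hN]
  have key : ∀ a c P : ℝ, |a| * p + |c| * q ≤ P → |a * u + c * v| ≤ P * N := by
    intro a c P h
    calc |a * u + c * v| ≤ |a * u| + |c * v| := abs_add_le _ _
      _ = |a| * |u| + |c| * |v| := by rw [abs_mul, abs_mul]
      _ ≤ |a| * (p * N) + |c| * (q * N) := add_le_add
          (mul_le_mul_of_nonneg_left hN1 (abs_nonneg _))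
          (mul_le_mul_of_nonneg_left hN2 (abs_nonneg _))
      _ = (|a| * p + |c| * q) * N := by ring
      _ ≤ P * N := mul_le_mul_of_nonneg_right h hN0
  refine max_le ?_ ?_
  · rw [div_le_iff₀ hp', f1, mul_comm N]
    exact key _ _ _ h1
  · rw [div_le_iff₀ hq', f2, mul_comm N]
    exact key _ _ _ h2

/-- convexity -/
theorem conv {al be ga de P Q c S S0 S1 : ℝ} (hP : 0 ≤ P) (hQ : 0 ≤ Q) (h0 : S0 ≤ S)
    (h1 : S ≤ S1) (h2 : |al * S0 + be| * P + |ga * S0 + de| * Q ≤ c)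
    (h3 : |al * S1 + be| * P + |ga * S1 + de| * Q ≤ c) :
    |al * S + be| * P + |ga * S + de| * Q ≤ c := by
  have key : ∀ e1 e2 : ℝ, (∀ y, e1 * y ≤ |y|) → (∀ y, e2 * y ≤ |y|) →
      e1 * (al * S + be) * P + e2 * (ga * S + de) * Q ≤ c := by
    intro e1 e2 he1 he2
    have a0 : e1 * (al * S0 + be) * P + e2 * (ga * S0 + de) * Q ≤ c :=
      le_trans (add_le_add (mul_le_mul_of_nonneg_right (he1 _) hP)
        (mul_le_mul_of_nonneg_right (he2 _) hQ)) h2
    have a1 : e1 * (al * S1 + be) * P + e2 * (ga * S1 + de) * Q ≤ c :=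
      le_trans (add_le_add (mul_le_mul_of_nonneg_right (he1 _) hP)
        (mul_le_mul_of_nonneg_right (he2 _) hQ)) h3
    obtain ⟨m, hm⟩ : ∃ m, m = e1 * al * P + e2 * ga * Q := ⟨_, rfl⟩
    obtain ⟨w, hw⟩ : ∃ w, w = e1 * be * P + e2 * de * Q := ⟨_, rfl⟩
    have b0 : m * S0 + w ≤ c := by rw [hm, hw]; linarith
    have b1 : m * S1 + w ≤ c := by rw [hm, hw]; linarith
    have b2 : m * S + w ≤ c := by
      rcases le_total 0 m with hm0 | hm0
      · have := mul_le_mul_of_nonneg_left h1 hm0; linarith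
      · have := mul_le_mul_of_nonpos_left h0 hm0; linarith
    rw [hm, hw] at b2
    linarith
  have hpos : ∀ y : ℝ, 1 * y ≤ |y| := fun y => by rw [one_mul]; exact le_abs_self y
  have hneg : ∀ y : ℝ, -1 * y ≤ |y| := fun y => by rw [neg_one_mul]; exact neg_le_abs y
  rcases abs_cases (al * S + be) with ⟨ha, _⟩ | ⟨ha, _⟩ <;>
    rcases abs_cases (ga * S + de) with ⟨hc, _⟩ | ⟨hc, _⟩
  · have := key 1 1 hpos hpos
    rw [ha, hc]; linarith
  · have := key 1 (-1) hpos hneg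
    rw [ha, hc]; linarith
  · have := key (-1) 1 hneg hpos
    rw [ha, hc]; linarith
  · have := key (-1) (-1) hneg hneg
    rw [ha, hc]; linarith

/-- integer absolute value by cases (for the kernel) -/
def ab (z : ℤ) : ℤ := if 0 ≤ z then z else -z

theorem ab_cast (z : ℤ) : ((ab z : ℤ) : ℝ) = |(z : ℝ)| := by
  unfold ab
  split_ifs with h
  · rw [abs_of_nonneg (by exact_mod_cast h)]
  · push Not at h
    rw [abs_of_neg (by exact_mod_cast h)]
    push_cast
    rfl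

/-- first inequality at the end `S` -/
def cA (S G T P Q G' P' : ℤ) : Bool :=
  decide (ab ((S - G') * SC - Pb * T) * P + ab ((S - G') * G - Pb * SC) * Q ≤ P' * (SC * SC))

/-- second inequality at the end `S` -/
def cB (S G T P Q T' Q' : ℤ) : Bool :=
  decide (ab (SC * SC * SC - T' * S * SC + T' * Pb * T) * P +
    ab ((SC * SC - T' * S) * G + T' * Pb * SC) * Q ≤ Q' * (SC * SC * SC))

/-- check of a step -/
def cC (lo hi G T P Q G' T' P' Q' : ℤ) : Bool :=
  cA (2 * lo) G T P Q G' P' && cA (2 * hi) G T P Q G' P' &&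
  cB (2 * lo) G T P Q T' Q' && cB (2 * hi) G T P Q T' Q'

theorem cC_sound {lo hi G T P Q G' T' P' Q' : ℤ}
    (h : cC lo hi G T P Q G' T' P' Q' = true) (hGT : G * T = 0) (hP : 0 < P) (hQ : 0 < Q)
    (hP' : 0 < P') (hQ' : 0 < Q') {X Y d1 d0 : ℝ} (h1 : (lo : ℝ) ≤ X) (h2 : X ≤ hi)
    (h3 : (lo : ℝ) ≤ Y) (h4 : Y ≤ hi) :
    max (|((X + Y) / SC * d1 - Pb / SC * d0) - G' / SC * d1| / P')
      (|d1 - T' / SC * ((X + Y) / SC * d1 - Pb / SC * d0)| / Q') ≤
      max (|d1 - G / SC * d0| / P) (|d0 - T / SC * d1| / Q) := by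
  simp only [cC, Bool.and_eq_true, cA, cB, decide_eq_true_eq] at h
  obtain ⟨⟨⟨hA0, hA1⟩, hB0⟩, hB1⟩ := h
  have hS := SC_pos
  have hP0 : (0 : ℝ) < P := by exact_mod_cast hP
  have hQ0 : (0 : ℝ) < Q := by exact_mod_cast hQ
  have hP0' : (0 : ℝ) < P' := by exact_mod_cast hP'
  have hQ0' : (0 : ℝ) < Q' := by exact_mod_cast hQ'
  have hGT' : (G : ℝ) * T = 0 := by exact_mod_cast hGT
  have rA0 : (((ab ((2 * lo - G') * SC - Pb * T) * P +
      ab ((2 * lo - G') * G - Pb * SC) * Q : ℤ)) : ℝ) ≤ ((P' * (SC * SC) : ℤ) : ℝ) := by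
    exact_mod_cast hA0
  have rA1 : (((ab ((2 * hi - G') * SC - Pb * T) * P +
      ab ((2 * hi - G') * G - Pb * SC) * Q : ℤ)) : ℝ) ≤ ((P' * (SC * SC) : ℤ) : ℝ) := by
    exact_mod_cast hA1
  have rB0 : (((ab (SC * SC * SC - T' * (2 * lo) * SC + T' * Pb * T) * P +
      ab ((SC * SC - T' * (2 * lo)) * G + T' * Pb * SC) * Q : ℤ)) : ℝ) ≤
      ((Q' * (SC * SC * SC) : ℤ) : ℝ) := by
    exact_mod_cast hB0
  have rB1 : (((ab (SC * SC * SC - T' * (2 * hi) * SC + T' * Pb * T) * P +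
      ab ((SC * SC - T' * (2 * hi)) * G + T' * Pb * SC) * Q : ℤ)) : ℝ) ≤
      ((Q' * (SC * SC * SC) : ℤ) : ℝ) := by
    exact_mod_cast hB1
  clear hA0 hA1 hB0 hB1
  rw [Int.cast_add, Int.cast_mul, Int.cast_mul, ab_cast, ab_cast] at rA0 rA1 rB0 rB1
  push_cast at rA0 rA1 rB0 rB1
  obtain ⟨S, hSd⟩ : ∃ S, S = X + Y := ⟨_, rfl⟩
  rw [← hSd]
  have hS0 : 2 * (lo : ℝ) ≤ S := by rw [hSd]; linarith
  have hS1 : S ≤ 2 * (hi : ℝ) := by rw [hSd]; linarith
  obtain ⟨D, hD⟩ : ∃ D : ℝ, D = (SC : ℝ) := ⟨_, rfl⟩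
  rw [← hD] at rA0 rA1 rB0 rB1 hS ⊢
  have cvA := conv (al := D) (be := -G' * D - Pb * T) (ga := G) (de := -G' * G - Pb * D)
    (c := P' * (D * D)) hP0.le hQ0.le hS0 hS1
    (by rw [show D * (2 * (lo : ℝ)) + (-G' * D - Pb * T) = (2 * (lo : ℝ) - G') * D - Pb * T by ring,
          show (G : ℝ) * (2 * (lo : ℝ)) + (-G' * G - Pb * D) = (2 * (lo : ℝ) - G') * G - Pb * D by
            ring]
        exact rA0)
    (by rw [show D * (2 * (hi : ℝ)) + (-G' * D - Pb * T) = (2 * (hi : ℝ) - G') * D - Pb * T by ring,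
          show (G : ℝ) * (2 * (hi : ℝ)) + (-G' * G - Pb * D) = (2 * (hi : ℝ) - G') * G - Pb * D by
            ring]
        exact rA1)
  have cvB := conv (al := -T' * D) (be := D * D * D + T' * Pb * T) (ga := -T' * G)
    (de := D * D * G + T' * Pb * D) (c := Q' * (D * D * D)) hP0.le hQ0.le hS0 hS1
    (by rw [show -T' * D * (2 * (lo : ℝ)) + (D * D * D + T' * Pb * T) =
          D * D * D - T' * (2 * (lo : ℝ)) * D + T' * Pb * T by ring,
          show -T' * G * (2 * (lo : ℝ)) + (D * D * G + T' * Pb * D) =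
            (D * D - T' * (2 * (lo : ℝ))) * G + T' * Pb * D by ring]
        exact rB0)
    (by rw [show -T' * D * (2 * (hi : ℝ)) + (D * D * D + T' * Pb * T) =
          D * D * D - T' * (2 * (hi : ℝ)) * D + T' * Pb * T by ring,
          show -T' * G * (2 * (hi : ℝ)) + (D * D * G + T' * Pb * D) =
            (D * D - T' * (2 * (hi : ℝ))) * G + T' * Pb * D by ring]
        exact rB1)
  have hD0 : D ≠ 0 := hS.ne'
  apply contr_core (by rw [div_mul_div_comm, hGT', zero_div]) hP0 hQ0 hP0' hQ0'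
  · have e1 : (S / D - G' / D) - Pb / D * (T / D) = (D * S + (-G' * D - Pb * T)) / (D * D) := by
      field_simp
      ring
    have e2 : (S / D - G' / D) * (G / D) - Pb / D = (G * S + (-G' * G - Pb * D)) / (D * D) := by
      field_simp
      ring
    rw [e1, e2, abs_div, abs_div, abs_of_pos (show (0 : ℝ) < D * D by positivity), div_mul_eq_mul_div,
      div_mul_eq_mul_div, ← add_div, div_le_iff₀ (by positivity)]
    exact cvA
  · have e1 : 1 - T' / D * (S / D) + T' / D * (Pb / D) * (T / D) =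
        (-T' * D * S + (D * D * D + T' * Pb * T)) / (D * D * D) := by
      field_simp
      ring
    have e2 : (1 - T' / D * (S / D)) * (G / D) + T' / D * (Pb / D) =
        (-T' * G * S + (D * D * G + T' * Pb * D)) / (D * D * D) := by
      field_simp
      ring
    rw [e1, e2, abs_div, abs_div, abs_of_pos (show (0 : ℝ) < D * D * D by positivity),
      div_mul_eq_mul_div, div_mul_eq_mul_div, ← add_div, div_le_iff₀ (by positivity)]
    exact cvB

end Pool.Agent.Work.MP_99322d_an.U.Tr
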